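import Mathlib

/-!
# A random homomorphism placing the points of a sums-differences configuration
-/

namespace Pool.Agent.H663R2.AbSq

open Finset

section Count

variable {k p : ℕ} [NeZero p]

/-- Fibres of a nonzero linear form. -/
lemma card_fiber (d : Fin k → ZMod p) (hd : ∃ j, IsUnit (d j)) (a : ZMod p) :
    p * (univ.filter fun c : Fin k → ZMod p => ∑ j, c j * d j = a).card = p ^ k := by
  classical
  let f : (Fin k → ZMod p) →+ ZMod p :=
    { toFun := fun c => ∑ j, c j * d j
      map_zero' := by simp
      map_add' := by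
        intro x y
        simp only [Pi.add_apply, add_mul, sum_add_distrib] }
  have hsurj : ∀ y, y ∈ Set.range f := by
    intro y
    obtain ⟨j, hj⟩ := hd
    obtain ⟨u, hu⟩ := hj
    refine ⟨Pi.single j (y * (u⁻¹ : (ZMod p)ˣ)), ?_⟩
    change ∑ i, (Pi.single j (y * (u⁻¹ : (ZMod p)ˣ)) : Fin k → ZMod p) i * d i = y
    rw [sum_eq_single j]
    · rw [Pi.single_eq_same, ← hu, mul_assoc, Units.inv_mul, mul_one]
    · intro i _ hi
      rw [Pi.single_eq_of_ne hi, zero_mul]
    · intro h
      exact absurd (mem_univ j) h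
  have h1 : ∀ y, (univ.filter fun c : Fin k → ZMod p => f c = y).card
      = (univ.filter fun c : Fin k → ZMod p => f c = a).card := fun y =>
    AddMonoidHom.card_fiber_eq_of_mem_range f (hsurj y) (hsurj a)
  have h2 : (univ : Finset (Fin k → ZMod p)).card
      = ∑ y : ZMod p, (univ.filter fun c : Fin k → ZMod p => f c = y).card :=
    card_eq_sum_card_fiberwise (fun x _ => mem_univ _)
  rw [sum_congr rfl (fun y _ => h1 y), sum_const, card_univ, card_univ, ZMod.card,
    Fintype.card_fun, ZMod.card, Fintype.card_fin, smul_eq_mul] at h2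
  exact h2.symm

/-- Counting residues by their representatives. -/
lemma card_val (Q : ℕ → Prop) [DecidablePred Q] :
    (univ.filter fun x : ZMod p => Q x.val).card = ((range p).filter Q).card := by
  apply card_nbij' (fun x : ZMod p => x.val) (fun n => (n : ZMod p))
  · intro x hx
    simp only [coe_filter, mem_univ, true_and, Set.mem_setOf_eq, mem_range] at hx ⊢
    exact ⟨ZMod.val_lt x, hx⟩
  · intro n hn
    simp only [coe_filter, mem_range, Set.mem_setOf_eq, mem_univ, true_and] at hn ⊢
    rw [ZMod.val_cast_of_lt hn.1]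
    exact hn.2
  · intro x _
    simp
  · intro n hn
    simp only [coe_filter, mem_range, Set.mem_setOf_eq] at hn
    exact ZMod.val_cast_of_lt hn.1

lemma card_val_lt {r : ℕ} (hr : r ≤ p) : (univ.filter fun x : ZMod p => x.val < r).card = r := by
  rw [card_val (fun n => n < r)]
  have : (range p).filter (fun n => n < r) = range r := by
    ext n
    simp only [mem_filter, mem_range]
    omega
  rw [this, card_range]

lemma card_val_Icc {r : ℕ} (hr : r < p) :
    (univ.filter fun x : ZMod p => 1 ≤ x.val ∧ x.val ≤ r).card = r := by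
  rw [card_val (fun n => 1 ≤ n ∧ n ≤ r)]
  have : (range p).filter (fun n => 1 ≤ n ∧ n ≤ r) = Icc 1 r := by
    ext n
    simp only [mem_filter, mem_range, mem_Icc]
    omega
  rw [this, Nat.card_Icc]
  omega

/-- The column of a point: the value of an affine function modulo `p`. -/
def pos (ω : (Fin k → ZMod p) × ZMod p) (v : Fin k → ℤ) : ZMod p :=
  ∑ j, ω.1 j * (v j : ZMod p) + ω.2

lemma pos_sub (ω : (Fin k → ZMod p) × ZMod p) (u v : Fin k → ℤ) :
    pos ω u - pos ω v = ∑ j, ω.1 j * ((u j - v j : ℤ) : ZMod p) := by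
  unfold pos
  rw [add_sub_add_right_eq_sub, ← sum_sub_distrib]
  apply sum_congr rfl
  intro j _
  push_cast
  ring

/-- Two points rarely collide. -/
lemma card_collide {u v : Fin k → ℤ} (h : ∃ j, IsUnit ((u j - v j : ℤ) : ZMod p)) :
    (univ.filter fun ω : (Fin k → ZMod p) × ZMod p => pos ω u = pos ω v).card = p ^ k := by
  have h1 := card_fiber (fun j => ((u j - v j : ℤ) : ZMod p)) h 0
  rw [← h1, ← univ_product_univ, card_filter, sum_product, card_filter, mul_sum]
  apply sum_congr rfl
  intro c _
  have h2 : ∀ s : ZMod p, (pos (c, s) u = pos (c, s) v) ↔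
      ∑ j, c j * ((u j - v j : ℤ) : ZMod p) = 0 := by
    intro s
    rw [← sub_eq_zero, pos_sub]
  simp only [h2]
  rw [sum_const, card_univ, ZMod.card, smul_eq_mul]

/-- The point `u` lies in the first `r` columns and `v` lies at most `r` columns further. -/
lemma card_place {u v : Fin k → ℤ} (h : ∃ j, IsUnit ((v j - u j : ℤ) : ZMod p)) {r : ℕ}
    (hr : r < p) :
    p * (univ.filter fun ω : (Fin k → ZMod p) × ZMod p => (pos ω u).val < r ∧
      1 ≤ (pos ω v - pos ω u).val ∧ (pos ω v - pos ω u).val ≤ r).card = r * r * p ^ k := by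
  classical
  have h1 : (univ.filter fun c : Fin k → ZMod p =>
      1 ≤ (∑ j, c j * ((v j - u j : ℤ) : ZMod p)).val ∧
      (∑ j, c j * ((v j - u j : ℤ) : ZMod p)).val ≤ r).card * p = r * p ^ k := by
    have h2 : (univ.filter fun c : Fin k → ZMod p =>
      1 ≤ (∑ j, c j * ((v j - u j : ℤ) : ZMod p)).val ∧
      (∑ j, c j * ((v j - u j : ℤ) : ZMod p)).val ≤ r).card
      = ∑ y ∈ univ.filter (fun y : ZMod p => 1 ≤ y.val ∧ y.val ≤ r),
        (univ.filter fun c : Fin k → ZMod p =>
          ∑ j, c j * ((v j - u j : ℤ) : ZMod p) = y).card := by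
      rw [card_eq_sum_card_fiberwise (f := fun c : Fin k → ZMod p =>
        ∑ j, c j * ((v j - u j : ℤ) : ZMod p))
        (t := univ.filter (fun y : ZMod p => 1 ≤ y.val ∧ y.val ≤ r))]
      · apply sum_congr rfl
        intro y hy
        congr 1
        ext c
        simp only [mem_filter, mem_univ, true_and] at hy ⊢
        constructor
        · rintro ⟨_, h⟩
          exact h
        · intro h
          rw [h]
          exact ⟨hy, rfl⟩
      · intro c hc
        simpa using hc
    rw [h2, sum_mul]
    have h3 : ∀ y ∈ univ.filter (fun y : ZMod p => 1 ≤ y.val ∧ y.val ≤ r),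
        (univ.filter fun c : Fin k → ZMod p =>
          ∑ j, c j * ((v j - u j : ℤ) : ZMod p) = y).card * p = p ^ k := by
      intro y _
      rw [mul_comm]
      exact card_fiber _ h y
    rw [sum_congr rfl h3, sum_const, card_val_Icc hr, smul_eq_mul]
  have h4 : (univ.filter fun ω : (Fin k → ZMod p) × ZMod p => (pos ω u).val < r ∧
      1 ≤ (pos ω v - pos ω u).val ∧ (pos ω v - pos ω u).val ≤ r).card
      = (univ.filter fun c : Fin k → ZMod p =>
      1 ≤ (∑ j, c j * ((v j - u j : ℤ) : ZMod p)).val ∧
      (∑ j, c j * ((v j - u j : ℤ) : ZMod p)).val ≤ r).card * r := by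
    rw [← univ_product_univ, card_filter, sum_product, card_filter, sum_mul]
    apply sum_congr rfl
    intro c _
    simp only [pos_sub]
    by_cases hc : 1 ≤ (∑ j, c j * ((v j - u j : ℤ) : ZMod p)).val ∧
      (∑ j, c j * ((v j - u j : ℤ) : ZMod p)).val ≤ r
    · rw [if_pos hc, one_mul]
      simp only [hc, and_true, true_and]
      rw [← card_filter]
      have h5 : (univ.filter fun s : ZMod p => (pos (c, s) u).val < r).card
          = (univ.filter fun s : ZMod p => s.val < r).card := by
        apply card_bijective (fun s => pos (c, s) u)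
        · constructor
          · intro s s' hs
            simpa [pos] using hs
          · intro y
            exact ⟨y - ∑ j, c j * (u j : ZMod p), by simp [pos]⟩
        · intro s
          simp
      rw [h5, card_val_lt hr.le]
    · rw [if_neg hc, zero_mul]
      apply sum_eq_zero
      intro s _
      rw [if_neg]
      tauto
  rw [h4]
  calc p * ((univ.filter fun c : Fin k → ZMod p =>
      1 ≤ (∑ j, c j * ((v j - u j : ℤ) : ZMod p)).val ∧
      (∑ j, c j * ((v j - u j : ℤ) : ZMod p)).val ≤ r).card * r)
      = ((univ.filter fun c : Fin k → ZMod p =>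
      1 ≤ (∑ j, c j * ((v j - u j : ℤ) : ZMod p)).val ∧
      (∑ j, c j * ((v j - u j : ℤ) : ZMod p)).val ≤ r).card * p) * r := by ring
    _ = r * r * p ^ k := by rw [h1]; ring

end Count

end Pool.Agent.H663R2.AbSq
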