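import Pool.Agent.H663R2.AbSqWord
import Pool.Agent.H663R2.AbSqCount

/-!
# Words with many inequivalent abelian squares: existence
-/

namespace Pool.Agent.H663R2.AbSq

open Finset

section Config

variable {k : ℕ}

/-- the points `2x` -/
def pE (x : Finset (Fin k)) : Fin k → ℤ := fun j => if j ∈ x then 2 else 0

/-- the midpoints -/
def pM (y : Finset (Fin k)) : Fin k → ℤ := fun j => if j ∈ y then 1 else 0

/-- the configuration -/
def conf (k m : ℕ) : Finset (Fin k → ℤ) :=
  (powersetCard m univ).image pE ∪ (powersetCard (2 * m) univ).image pM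

/-- the pairs of disjoint sets -/
def prs (k m : ℕ) : Finset (Finset (Fin k) × Finset (Fin k)) :=
  (powersetCard m univ ×ˢ powersetCard m univ).filter fun q => Disjoint q.1 q.2

lemma conf_range {m : ℕ} {a : Fin k → ℤ} (ha : a ∈ conf k m) (j : Fin k) :
    0 ≤ a j ∧ a j ≤ 2 := by
  unfold conf at ha
  rw [mem_union, mem_image, mem_image] at ha
  rcases ha with ⟨x, _, rfl⟩ | ⟨x, _, rfl⟩
  · unfold pE; split_ifs <;> norm_num
  · unfold pM; split_ifs <;> norm_num

lemma card_conf_le (m : ℕ) : (conf (3 * m) m).card ≤ 2 * (3 * m).choose m := by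
  unfold conf
  refine (card_union_le _ _).trans ?_
  have h1 : ((powersetCard m (univ : Finset (Fin (3 * m)))).image pE).card ≤ (3 * m).choose m := by
    refine card_image_le.trans ?_
    rw [card_powersetCard, card_univ, Fintype.card_fin]
  have h2 : ((powersetCard (2 * m) (univ : Finset (Fin (3 * m)))).image pM).card
      ≤ (3 * m).choose m := by
    refine card_image_le.trans ?_
    rw [card_powersetCard, card_univ, Fintype.card_fin]
    have : (3 * m).choose (2 * m) = (3 * m).choose m := by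
      rw [← Nat.choose_symm (by omega : m ≤ 3 * m)]
      congr 1
      omega
    rw [this]
  omega

lemma card_prs (m : ℕ) : (prs (3 * m) m).card = (3 * m).choose m * (2 * m).choose m := by
  unfold prs
  rw [card_filter, sum_product]
  have h : ∀ x ∈ powersetCard m (univ : Finset (Fin (3 * m))),
      (∑ z ∈ powersetCard m (univ : Finset (Fin (3 * m))), if Disjoint x z then 1 else 0)
        = (2 * m).choose m := by
    intro x hx
    rw [← card_filter]
    have h1 : (powersetCard m (univ : Finset (Fin (3 * m)))).filter (fun z => Disjoint x z)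
        = powersetCard m xᶜ := by
      ext z
      simp only [mem_filter, mem_powersetCard, subset_univ, true_and]
      rw [and_comm, and_congr_left_iff]
      intro _
      rw [disjoint_comm, disjoint_left, subset_iff]
      simp only [mem_compl]
    rw [h1, card_powersetCard, card_compl, Fintype.card_fin]
    rw [mem_powersetCard] at hx
    rw [hx.2]
    congr 1
    omega
  rw [sum_congr rfl h, sum_const, card_powersetCard, card_univ, Fintype.card_fin, smul_eq_mul]

lemma isUnit_small {p : ℕ} (hp : Odd p) {n : ℤ} (h0 : n ≠ 0) (h1 : -2 ≤ n) (h2 : n ≤ 2) :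
    IsUnit (n : ZMod p) := by
  have h2u : IsUnit ((2 : ℕ) : ZMod p) := by
    rw [ZMod.isUnit_iff_coprime]
    exact (Nat.coprime_two_left).mpr hp
  have : n = -2 ∨ n = -1 ∨ n = 1 ∨ n = 2 := by omega
  rcases this with rfl | rfl | rfl | rfl
  · have := h2u.neg
    push_cast at this ⊢
    exact this
  · push_cast
    exact isUnit_one.neg
  · push_cast
    exact isUnit_one
  · push_cast at h2u ⊢
    exact h2u

lemma conf_unit {p m : ℕ} (hp : Odd p) {a b : Fin k → ℤ} (ha : a ∈ conf k m) (hb : b ∈ conf k m)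
    (hab : a ≠ b) : ∃ j, IsUnit ((a j - b j : ℤ) : ZMod p) := by
  obtain ⟨j, hj⟩ := Function.ne_iff.mp hab
  have h1 := conf_range ha j
  have h2 := conf_range hb j
  exact ⟨j, isUnit_small hp (sub_ne_zero.mpr hj) (by omega) (by omega)⟩

end Config

section Good

variable {k p : ℕ} [NeZero p]

/-- `a` is the only point of the configuration in its column -/
def Alone (m : ℕ) (ω : (Fin k → ZMod p) × ZMod p) (a : Fin k → ℤ) : Prop :=
  ∀ b ∈ conf k m, b ≠ a → pos ω b ≠ pos ω a

/-- The pair `q` is well placed. -/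
def Good (m r : ℕ) (ω : (Fin k → ZMod p) × ZMod p) (q : Finset (Fin k) × Finset (Fin k)) : Prop :=
  ((pos ω (pE q.1)).val < r ∧ 1 ≤ (pos ω (pM (q.1 ∪ q.2)) - pos ω (pE q.1)).val ∧
    (pos ω (pM (q.1 ∪ q.2)) - pos ω (pE q.1)).val ≤ r) ∧
  Alone m ω (pE q.1) ∧ Alone m ω (pM (q.1 ∪ q.2)) ∧ Alone m ω (pE q.2)

lemma mem_prs {m : ℕ} {q : Finset (Fin k) × Finset (Fin k)} : q ∈ prs k m ↔
    (q.1.card = m ∧ q.2.card = m) ∧ Disjoint q.1 q.2 := by
  unfold prs
  simp [mem_powersetCard]

lemma mem_confE {m : ℕ} {x : Finset (Fin k)} (hx : x.card = m) : pE x ∈ conf k m := by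
  unfold conf
  rw [mem_union, mem_image]
  exact Or.inl ⟨x, by simp [mem_powersetCard, hx], rfl⟩

lemma mem_confM {m : ℕ} {x : Finset (Fin k)} (hx : x.card = 2 * m) : pM x ∈ conf k m := by
  unfold conf
  rw [mem_union, mem_image, mem_image]
  exact Or.inr ⟨x, by simp [mem_powersetCard, hx], rfl⟩

open Classical in
lemma card_not_alone {m : ℕ} (hp : Odd p) {a : Fin k → ℤ} (ha : a ∈ conf k m) :
    (univ.filter fun ω : (Fin k → ZMod p) × ZMod p => ¬ Alone m ω a).card
      ≤ (conf k m).card * p ^ k := by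
  have h1 : (univ.filter fun ω : (Fin k → ZMod p) × ZMod p => ¬ Alone m ω a) ⊆
      ((conf k m).erase a).biUnion fun b =>
        univ.filter fun ω : (Fin k → ZMod p) × ZMod p => pos ω b = pos ω a := by
    intro ω hω
    rw [mem_filter] at hω
    have := hω.2
    unfold Alone at this
    push Not at this
    obtain ⟨b, hb, hba, heq⟩ := this
    rw [mem_biUnion]
    exact ⟨b, mem_erase.mpr ⟨hba, hb⟩, by simp [heq]⟩
  refine (card_le_card h1).trans (card_biUnion_le.trans ?_)
  have h2 : ∀ b ∈ (conf k m).erase a,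
      (univ.filter fun ω : (Fin k → ZMod p) × ZMod p => pos ω b = pos ω a).card = p ^ k := by
    intro b hb
    rw [mem_erase] at hb
    exact card_collide (conf_unit hp hb.2 ha hb.1)
  rw [sum_congr rfl h2, sum_const, smul_eq_mul]
  exact Nat.mul_le_mul_right _ (card_le_card (erase_subset _ _))

open Classical in
lemma card_good {m r : ℕ} (hm : 1 ≤ m) (hp : Odd p) (hr : r < p)
    {q : Finset (Fin k) × Finset (Fin k)} (hq : q ∈ prs k m) :
    r * r * p ^ k ≤ p * (univ.filter fun ω : (Fin k → ZMod p) × ZMod p => Good m r ω q).card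
      + p * (3 * ((conf k m).card * p ^ k)) := by
  obtain ⟨⟨h1, h2⟩, hd⟩ := mem_prs.mp hq
  have hM : (q.1 ∪ q.2).card = 2 * m := by
    rw [card_union_of_disjoint hd]; omega
  have hunit : ∃ j, IsUnit ((pM (q.1 ∪ q.2) j - pE q.1 j : ℤ) : ZMod p) := by
    obtain ⟨j, hj⟩ := card_pos.mp (show 0 < q.1.card by omega)
    refine ⟨j, isUnit_small hp ?_ ?_ ?_⟩ <;> simp [pM, pE, hj]
  rw [← card_place hunit hr, ← Nat.mul_add]
  apply Nat.mul_le_mul_left
  have hsub : (univ.filter fun ω : (Fin k → ZMod p) × ZMod p => (pos ω (pE q.1)).val < r ∧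
      1 ≤ (pos ω (pM (q.1 ∪ q.2)) - pos ω (pE q.1)).val ∧
        (pos ω (pM (q.1 ∪ q.2)) - pos ω (pE q.1)).val ≤ r) ⊆
      (univ.filter fun ω : (Fin k → ZMod p) × ZMod p => Good m r ω q) ∪
      ((univ.filter fun ω : (Fin k → ZMod p) × ZMod p => ¬ Alone m ω (pE q.1)) ∪
      ((univ.filter fun ω : (Fin k → ZMod p) × ZMod p => ¬ Alone m ω (pM (q.1 ∪ q.2))) ∪
      (univ.filter fun ω : (Fin k → ZMod p) × ZMod p => ¬ Alone m ω (pE q.2)))) := by
    intro ω hω
    simp only [mem_union, mem_filter, mem_univ, true_and] at hω ⊢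
    unfold Good
    tauto
  refine (card_le_card hsub).trans ?_
  refine (card_union_le _ _).trans (Nat.add_le_add_left ?_ _)
  have h3 := card_not_alone (p := p) hp (mem_confE h1)
  have h4 := card_not_alone (p := p) hp (mem_confM hM)
  have h5 := card_not_alone (p := p) hp (mem_confE h2)
  refine (card_union_le _ _).trans ?_
  refine (Nat.add_le_add_left (card_union_le _ _) _).trans ?_
  omega

open Classical in
/-- Some placement is good for a constant proportion of the pairs. -/
lemma exists_placement {m r : ℕ} (hm : 1 ≤ m) (hpr : p = 3 * r) (hrodd : Odd r)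
    (hr : 18 * (conf k m).card ≤ r) :
    ∃ ω : (Fin k → ZMod p) × ZMod p, (prs k m).card ≤ 18 * ((prs k m).filter (Good m r ω)).card := by
  have hp : Odd p := by
    rw [hpr]
    exact Odd.mul (by decide) hrodd
  have hr0 : 0 < r := hrodd.pos
  have hrp : r < p := by omega
  by_contra hcon
  push Not at hcon
  -- sum over all placements
  have hsum : ∑ ω : (Fin k → ZMod p) × ZMod p, ((prs k m).filter (Good m r ω)).card
      = ∑ q ∈ prs k m, (univ.filter fun ω : (Fin k → ZMod p) × ZMod p => Good m r ω q).card := by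
    simp only [card_filter]
    rw [sum_comm]
  have hlow : ∀ q ∈ prs k m, r * r * p ^ k ≤
      2 * p * (univ.filter fun ω : (Fin k → ZMod p) × ZMod p => Good m r ω q).card := by
    intro q hq
    have h1 := card_good hm hp hrp hq
    have h2 : 2 * (p * (3 * ((conf k m).card * p ^ k))) ≤ r * r * p ^ k := by
      rw [hpr]
      calc 2 * (3 * r * (3 * ((conf k m).card * (3 * r) ^ k)))
          = (18 * (conf k m).card) * r * (3 * r) ^ k := by ring
        _ ≤ r * r * (3 * r) ^ k := by
            apply Nat.mul_le_mul_right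
            exact Nat.mul_le_mul_right _ hr
    calc r * r * p ^ k ≤ 2 * (r * r * p ^ k) - r * r * p ^ k := by omega
      _ ≤ 2 * (p * (univ.filter fun ω : (Fin k → ZMod p) × ZMod p => Good m r ω q).card
          + p * (3 * ((conf k m).card * p ^ k))) - r * r * p ^ k := by omega
      _ ≤ 2 * p * (univ.filter fun ω : (Fin k → ZMod p) × ZMod p => Good m r ω q).card := by
          rw [Nat.mul_add, mul_assoc 2 p]
          omega
  have hlow2 : (prs k m).card * (r * r * p ^ k) ≤
      2 * p * ∑ ω : (Fin k → ZMod p) × ZMod p, ((prs k m).filter (Good m r ω)).card := by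
    rw [hsum, mul_sum, ← smul_eq_mul, ← sum_const]
    exact sum_le_sum hlow
  have hupp : ∑ ω : (Fin k → ZMod p) × ZMod p, 18 * ((prs k m).filter (Good m r ω)).card
      < ∑ _ω : (Fin k → ZMod p) × ZMod p, (prs k m).card := by
    apply sum_lt_sum_of_nonempty univ_nonempty
    intro ω _
    exact hcon ω
  rw [sum_const, card_univ, Fintype.card_prod, Fintype.card_fun, ZMod.card, Fintype.card_fin,
    smul_eq_mul, ← mul_sum] at hupp
  have h3 : 9 * ((prs k m).card * (r * r * p ^ k)) = (p ^ k * p * (prs k m).card) * p := by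
    rw [hpr]; ring
  have h4 : (p ^ k * p * (prs k m).card) * p ≤
      18 * (∑ ω : (Fin k → ZMod p) × ZMod p, ((prs k m).filter (Good m r ω)).card) * p := by
    rw [← h3]
    calc 9 * ((prs k m).card * (r * r * p ^ k))
        ≤ 9 * (2 * p * ∑ ω : (Fin k → ZMod p) × ZMod p, ((prs k m).filter (Good m r ω)).card) :=
          Nat.mul_le_mul_left _ hlow2
      _ = _ := by ring
  have h5 := Nat.le_of_mul_le_mul_right h4 (by omega : 0 < p)
  omega

/-! ### The function of a placement -/

open Classical in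
/-- the point in column `i` (or zero) -/
noncomputable def gfun (m : ℕ) (ω : (Fin k → ZMod p) × ZMod p) (i : ℕ) : Fin k → ℤ :=
  if h : ∃ a ∈ conf k m, (pos ω a).val = i then h.choose else 0

lemma gfun_range (m : ℕ) (ω : (Fin k → ZMod p) × ZMod p) (i : ℕ) (j : Fin k) :
    0 ≤ gfun m ω i j ∧ gfun m ω i j ≤ 2 := by
  unfold gfun
  split_ifs with h
  · exact conf_range h.choose_spec.1 j
  · simp

lemma gfun_alone {m : ℕ} {ω : (Fin k → ZMod p) × ZMod p} {a : Fin k → ℤ} (ha : a ∈ conf k m)
    (h : Alone m ω a) : gfun m ω (pos ω a).val = a := by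
  have hex : ∃ b ∈ conf k m, (pos ω b).val = (pos ω a).val := ⟨a, ha, rfl⟩
  unfold gfun
  rw [dif_pos hex]
  by_contra hne
  exact h _ hex.choose_spec.1 hne (ZMod.val_injective p hex.choose_spec.2)

/-- the step of a pair -/
def stp (ω : (Fin k → ZMod p) × ZMod p) (q : Finset (Fin k) × Finset (Fin k)) : ℕ :=
  (pos ω (pM (q.1 ∪ q.2)) - pos ω (pE q.1)).val

/-- the first column of a pair -/
def col (ω : (Fin k → ZMod p) × ZMod p) (q : Finset (Fin k) × Finset (Fin k)) : ℕ :=
  (pos ω (pE q.1)).val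

lemma val_add_lt {a b : ZMod p} (h : a.val + b.val < p) : (a + b).val = a.val + b.val := by
  rw [ZMod.val_add, Nat.mod_eq_of_lt h]

lemma good_cols {m r : ℕ} (hpr : p = 3 * r) {ω : (Fin k → ZMod p) × ZMod p}
    {q : Finset (Fin k) × Finset (Fin k)} (hq : q ∈ prs k m) (hg : Good m r ω q) :
    gfun m ω (col ω q) = pE q.1 ∧ gfun m ω (col ω q + stp ω q) = pM (q.1 ∪ q.2) ∧
      gfun m ω (col ω q + stp ω q + stp ω q) = pE q.2 ∧ 1 ≤ stp ω q ∧
      col ω q + 2 * stp ω q ≤ p := by
  obtain ⟨⟨h1, h2⟩, hd⟩ := mem_prs.mp hq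
  obtain ⟨⟨g1, g2, g3⟩, a1, a2, a3⟩ := hg
  have hM : (q.1 ∪ q.2).card = 2 * m := by
    rw [card_union_of_disjoint hd]; omega
  have hv1 : (pos ω (pM (q.1 ∪ q.2))).val = col ω q + stp ω q := by
    have : pos ω (pM (q.1 ∪ q.2)) = pos ω (pE q.1) +
        (pos ω (pM (q.1 ∪ q.2)) - pos ω (pE q.1)) := by ring
    rw [this, val_add_lt (by omega)]
    rfl
  have hdiff : pos ω (pE q.2) - pos ω (pM (q.1 ∪ q.2))
      = pos ω (pM (q.1 ∪ q.2)) - pos ω (pE q.1) := by
    rw [pos_sub, pos_sub]
    apply sum_congr rfl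
    intro j _
    congr 2
    unfold pE pM
    by_cases hj1 : j ∈ q.1
    · have hj2 : j ∉ q.2 := disjoint_left.mp hd hj1
      simp [hj1, hj2]
    · by_cases hj2 : j ∈ q.2
      · simp [hj1, hj2]
      · simp [hj1, hj2]
  have hv2 : (pos ω (pE q.2)).val = col ω q + stp ω q + stp ω q := by
    have h5 : pos ω (pE q.2) = pos ω (pM (q.1 ∪ q.2)) +
        (pos ω (pM (q.1 ∪ q.2)) - pos ω (pE q.1)) := by
      rw [← hdiff]; ring
    rw [h5, val_add_lt ?_, hv1]
    · rfl
    · rw [hv1]
      unfold col stp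
      omega
  refine ⟨gfun_alone (mem_confE h1) a1, ?_, ?_, g2, ?_⟩
  · rw [← hv1]
    exact gfun_alone (mem_confM hM) a2
  · rw [← hv2]
    exact gfun_alone (mem_confE h2) a3
  · unfold col stp
    omega

open Classical in
/-- The word of a placement contains many inequivalent abelian squares. -/
lemma numSquares_ge {m r : ℕ} (hk : 1 ≤ k) (hpr : p = 3 * r) (ω : (Fin k → ZMod p) × ZMod p) :
    ((prs k m).filter (Good m r ω)).card ≤ numSquares (word (gfun m ω) p) := by
  have hg := gfun_range m ω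
  set f : Finset (Fin k) × Finset (Fin k) → (Option (Fin k) → ℕ) := fun q =>
    parikh (seg (gfun m ω) (col ω q) (stp ω q + stp ω q)) with hf
  have hdif : ∀ q ∈ (prs k m).filter (Good m r ω), ∀ j,
      gfun m ω (col ω q + stp ω q) j - gfun m ω (col ω q) j
        = (if j ∈ q.2 then 1 else 0) - (if j ∈ q.1 then 1 else 0) ∧
      gfun m ω (col ω q + stp ω q + stp ω q) j - gfun m ω (col ω q + stp ω q) j
        = (if j ∈ q.2 then 1 else 0) - (if j ∈ q.1 then 1 else 0) := by
    intro q hq j
    rw [mem_filter] at hq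
    obtain ⟨h1, h2, h3, _, _⟩ := good_cols hpr hq.1 hq.2
    have hd := (mem_prs.mp hq.1).2
    rw [h1, h2, h3]
    unfold pE pM
    by_cases hj1 : j ∈ q.1
    · have hj2 : j ∉ q.2 := disjoint_left.mp hd hj1
      simp [hj1, hj2]
    · by_cases hj2 : j ∈ q.2
      · simp [hj1, hj2]
      · simp [hj1, hj2]
  have hinj : Set.InjOn f ((prs k m).filter (Good m r ω) : Finset _) := by
    intro q hq q' hq' heq
    obtain ⟨_, h2⟩ := seg_inj hg hk heq
      (fun j => by rw [(hdif q hq j).1, (hdif q hq j).2])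
      (fun j => by rw [(hdif q' hq' j).1, (hdif q' hq' j).2])
    have h3 : ∀ j, ((if j ∈ q.2 then (1 : ℤ) else 0) - (if j ∈ q.1 then 1 else 0))
        = (if j ∈ q'.2 then 1 else 0) - (if j ∈ q'.1 then 1 else 0) := by
      intro j
      rw [← (hdif q hq j).1, ← (hdif q' hq' j).1]
      exact h2 j
    have hd := (mem_prs.mp (mem_filter.mp hq).1).2
    have hd' := (mem_prs.mp (mem_filter.mp hq').1).2
    apply Prod.ext
    · ext j
      have h4 := h3 j
      have h5 : j ∈ q.1 → j ∉ q.2 := fun h => disjoint_left.mp hd h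
      have h6 : j ∈ q'.1 → j ∉ q'.2 := fun h => disjoint_left.mp hd' h
      by_cases a1 : j ∈ q.1 <;> by_cases a2 : j ∈ q.2 <;> by_cases a3 : j ∈ q'.1 <;>
        by_cases a4 : j ∈ q'.2 <;> simp [a1, a2, a3, a4] at h4 h5 h6 ⊢
    · ext j
      have h4 := h3 j
      have h5 : j ∈ q.1 → j ∉ q.2 := fun h => disjoint_left.mp hd h
      have h6 : j ∈ q'.1 → j ∉ q'.2 := fun h => disjoint_left.mp hd' h
      by_cases a1 : j ∈ q.1 <;> by_cases a2 : j ∈ q.2 <;> by_cases a3 : j ∈ q'.1 <;>
        by_cases a4 : j ∈ q'.2 <;> simp [a1, a2, a3, a4] at h4 h5 h6 ⊢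
  rw [← card_image_of_injOn hinj]
  unfold numSquares
  rw [← Set.ncard_coe_finset]
  apply Set.ncard_le_ncard _ (squareClasses_finite _)
  intro x hx
  rw [mem_coe, mem_image] at hx
  obtain ⟨q, hq, rfl⟩ := hx
  obtain ⟨_, _, _, h4, h5⟩ := good_cols hpr (mem_filter.mp hq).1 (mem_filter.mp hq).2
  exact mem_squareClasses hg hk h4 h5 (fun j => by rw [(hdif q hq j).1, (hdif q hq j).2])

end Good

/-- **Words with many inequivalent abelian squares.** -/
theorem exists_word (m : ℕ) (hm : 1 ≤ m) : ∃ w : List (Option (Fin (3 * m))),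
    w.length = 12 * m * (108 * (3 * m).choose m + 3) ∧
    (3 * m).choose m * (2 * m).choose m ≤ 18 * numSquares w := by
  set r := 36 * (3 * m).choose m + 1 with hr
  have hrodd : Odd r := ⟨18 * (3 * m).choose m, by rw [hr]; ring⟩
  haveI : NeZero (3 * r) := ⟨by omega⟩
  have h18 : 18 * (conf (3 * m) m).card ≤ r := by
    have := card_conf_le m
    omega
  obtain ⟨ω, hω⟩ := exists_placement (k := 3 * m) (p := 3 * r) hm rfl hrodd h18
  refine ⟨word (gfun m ω) (3 * r), ?_, ?_⟩
  · unfold word
    rw [length_seg (gfun_range m ω), hr]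
    ring
  · rw [← card_prs]
    exact hω.trans (Nat.mul_le_mul_left _ (numSquares_ge (by omega) rfl ω))

end Pool.Agent.H663R2.AbSq
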