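import Mathlib

/-!
# Words with many inequivalent abelian squares: the word of a vector-valued function
-/

namespace Pool.Agent.H663R2.AbSq

open Finset

section Defs

variable {α : Type} [DecidableEq α]

/-- The Parikh vector of a word. -/
def parikh (w : List α) : α → ℕ := fun a => w.count a

/-- Abelian squares: nonempty words `uv` such that `u` and `v` have the same Parikh vector. -/
def IsAbelianSquare (s : List α) : Prop := s ≠ [] ∧ ∃ u v, s = u ++ v ∧ parikh u = parikh v

/-- The Parikh vectors of the abelian squares contained in `w`. -/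
def squareClasses (w : List α) : Set (α → ℕ) :=
  {f | ∃ s, s <:+: w ∧ IsAbelianSquare s ∧ parikh s = f}

/-- The number of pairwise inequivalent abelian squares contained in `w`. -/
noncomputable def numSquares (w : List α) : ℕ := (squareClasses w).ncard

lemma squareClasses_finite (w : List α) : (squareClasses w).Finite := by
  refine (Set.Finite.image parikh (s := {s | s ∈ w.sublists}) ?_).subset ?_
  · exact List.finite_toSet _
  · rintro f ⟨s, hs, _, rfl⟩
    exact ⟨s, List.mem_sublists.mpr hs.sublist, rfl⟩

lemma parikh_append (u v : List α) (a : α) :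
    parikh (u ++ v) a = parikh u a + parikh v a := List.count_append

lemma parikh_replicate (n : ℕ) (a b : α) :
    parikh (List.replicate n b) a = if b = a then n else 0 := by
  unfold parikh
  rw [List.count_replicate]
  simp

lemma parikh_flatMap {β : Type} (l : List β) (f : β → List α) (a : α) :
    parikh (l.flatMap f) a = (l.map fun b => parikh (f b) a).sum := by
  unfold parikh
  rw [List.count_flatMap]
  rfl

end Defs

section Word

variable {k : ℕ} (g : ℕ → Fin k → ℤ)

/-- the number of letters `j` in block `i` -/
def cnt (i : ℕ) (j : Fin k) : ℕ := (2 + g (i + 1) j - g i j).toNat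

/-- block `i` -/
def block (i : ℕ) : List (Option (Fin k)) :=
  (List.finRange k).flatMap (fun j => List.replicate (cnt g i j) (some j)) ++
    List.replicate (4 * k - ∑ j, cnt g i j) none

/-- the blocks `X, ..., X + n - 1` -/
def seg (X n : ℕ) : List (Option (Fin k)) := (List.range' X n).flatMap (block g)

variable {g} (hg : ∀ i j, 0 ≤ g i j ∧ g i j ≤ 2)

include hg in
lemma cnt_cast (i : ℕ) (j : Fin k) : (cnt g i j : ℤ) = 2 + g (i + 1) j - g i j := by
  unfold cnt
  rw [Int.toNat_of_nonneg]
  have h1 := hg i j
  have h2 := hg (i + 1) j
  omega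

include hg in
lemma cnt_le (i : ℕ) (j : Fin k) : cnt g i j ≤ 4 := by
  have h := cnt_cast hg i j
  have h1 := hg i j
  have h2 := hg (i + 1) j
  omega

include hg in
lemma sum_cnt_le (i : ℕ) : ∑ j, cnt g i j ≤ 4 * k := by
  calc ∑ j, cnt g i j ≤ ∑ _j : Fin k, 4 := sum_le_sum fun j _ => cnt_le hg i j
    _ = 4 * k := by simp [mul_comm]

lemma count_flat (i : ℕ) (j : Fin k) :
    parikh ((List.finRange k).flatMap (fun j => List.replicate (cnt g i j) (some j))) (some j)
      = cnt g i j := by
  rw [parikh_flatMap]
  simp only [parikh_replicate]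
  rw [← List.ofFn_eq_map, List.sum_ofFn]
  simp

lemma length_flat (i : ℕ) :
    ((List.finRange k).flatMap (fun j => List.replicate (cnt g i j) (some j))).length
      = ∑ j, cnt g i j := by
  rw [List.length_flatMap]
  simp only [List.length_replicate]
  rw [← List.ofFn_eq_map, List.sum_ofFn]

lemma count_flat_none (i : ℕ) :
    parikh ((List.finRange k).flatMap (fun j => List.replicate (cnt g i j) (some j))) none
      = 0 := by
  rw [parikh_flatMap]
  simp only [parikh_replicate]
  rw [← List.ofFn_eq_map, List.sum_ofFn]
  simp

lemma count_block (i : ℕ) (j : Fin k) : parikh (block g i) (some j) = cnt g i j := by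
  unfold block
  rw [parikh_append, count_flat, parikh_replicate]
  simp

lemma count_block_none (i : ℕ) : parikh (block g i) none = 4 * k - ∑ j, cnt g i j := by
  unfold block
  rw [parikh_append, count_flat_none, parikh_replicate]
  simp

include hg in
lemma length_block (i : ℕ) : (block g i).length = 4 * k := by
  unfold block
  rw [List.length_append, length_flat, List.length_replicate]
  have := sum_cnt_le hg i
  omega

lemma seg_add (X m n : ℕ) : seg g X (m + n) = seg g X m ++ seg g (X + m) n := by
  unfold seg
  rw [← List.flatMap_append]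
  congr 1
  have := @List.range'_append X m n 1
  simpa using this.symm

lemma seg_succ (X n : ℕ) : seg g X (n + 1) = seg g X n ++ block g (X + n) := by
  rw [seg_add]
  congr 1
  simp [seg]

include hg in
lemma length_seg (X n : ℕ) : (seg g X n).length = 4 * k * n := by
  induction n with
  | zero => simp [seg]
  | succ n ih => rw [seg_succ, List.length_append, ih, length_block hg]; ring

include hg in
lemma count_seg (X n : ℕ) (j : Fin k) :
    (parikh (seg g X n) (some j) : ℤ) = 2 * n + g (X + n) j - g X j := by
  induction n with
  | zero => simp [seg, parikh]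
  | succ n ih =>
    rw [seg_succ, parikh_append, count_block, Nat.cast_add, ih, cnt_cast hg]
    push_cast
    have : X + (n + 1) = X + n + 1 := by omega
    rw [this]
    ring

include hg in
lemma count_seg_none (X n : ℕ) :
    (parikh (seg g X n) none : ℤ) = 4 * k * n - ∑ j, (parikh (seg g X n) (some j) : ℤ) := by
  induction n with
  | zero => simp [seg, parikh]
  | succ n ih =>
    have h1 := sum_cnt_le hg (X + n)
    rw [seg_succ]
    simp only [parikh_append, count_block, count_block_none, Nat.cast_add, ih,
      sum_add_distrib]
    rw [Nat.cast_sub h1]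
    push_cast
    ring

include hg in
/-- Consecutive segments with the same difference have the same Parikh vectors. -/
lemma parikh_seg_eq {X Y n : ℕ} (h : ∀ j, g (X + n) j - g X j = g (Y + n) j - g Y j) :
    parikh (seg g X n) = parikh (seg g Y n) := by
  have h1 : ∀ j, (parikh (seg g X n) (some j) : ℤ) = (parikh (seg g Y n) (some j) : ℤ) := by
    intro j
    rw [count_seg hg, count_seg hg]
    have := h j
    omega
  funext a
  cases a with
  | none =>
    have : (parikh (seg g X n) none : ℤ) = (parikh (seg g Y n) none : ℤ) := by
      rw [count_seg_none hg, count_seg_none hg]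
      simp only [h1]
    exact_mod_cast this
  | some j => exact_mod_cast h1 j

/-- The word of `g`. -/
def word (g : ℕ → Fin k → ℤ) (p : ℕ) : List (Option (Fin k)) := seg g 0 p

lemma seg_infix {X n p : ℕ} (h : X + n ≤ p) : seg g X n <:+: word g p := by
  unfold word
  obtain ⟨q, rfl⟩ := Nat.exists_eq_add_of_le h
  rw [seg_add, seg_add, Nat.zero_add]
  exact ⟨seg g 0 X, seg g (0 + (X + n)) q, by rw [Nat.zero_add]⟩

include hg in
/-- A good triple of columns gives an abelian square. -/
lemma mem_squareClasses {p X n : ℕ} (hk : 1 ≤ k) (hn : 1 ≤ n) (hX : X + 2 * n ≤ p)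
    (h : ∀ j, g (X + n) j - g X j = g (X + n + n) j - g (X + n) j) :
    parikh (seg g X (n + n)) ∈ squareClasses (word g p) := by
  refine ⟨seg g X (n + n), seg_infix (by omega), ⟨?_, seg g X n, seg g (X + n) n, seg_add X n n,
    parikh_seg_eq hg h⟩, rfl⟩
  intro h0
  have h1 := length_seg hg X (n + n)
  rw [h0, List.length_nil] at h1
  have : 0 < 4 * k * (n + n) := by positivity
  omega

include hg in
/-- The Parikh vector determines the length and the difference. -/
lemma seg_inj {X Y m n : ℕ} (hk : 1 ≤ k)
    (h : parikh (seg g X (m + m)) = parikh (seg g Y (n + n)))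
    (hX : ∀ j, g (X + m) j - g X j = g (X + m + m) j - g (X + m) j)
    (hY : ∀ j, g (Y + n) j - g Y j = g (Y + n + n) j - g (Y + n) j) :
    m = n ∧ ∀ j, g (X + m) j - g X j = g (Y + n) j - g Y j := by
  have h1 : ∀ j, (parikh (seg g X (m + m)) (some j) : ℤ) = (parikh (seg g Y (n + n)) (some j) : ℤ) :=
    fun j => by exact_mod_cast congrFun h (some j)
  have h2 : (parikh (seg g X (m + m)) none : ℤ) = (parikh (seg g Y (n + n)) none : ℤ) := by
    exact_mod_cast congrFun h none
  have h3 : m = n := by
    rw [count_seg_none hg, count_seg_none hg] at h2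
    simp only [h1] at h2
    have h4 : (4 * k * ((m + m : ℕ) : ℤ)) = 4 * k * ((n + n : ℕ) : ℤ) := by linarith
    have h5 : 4 * k * (m + m) = 4 * k * (n + n) := by exact_mod_cast h4
    have h6 : 0 < 4 * k := by positivity
    have h7 := Nat.eq_of_mul_eq_mul_left h6 h5
    omega
  refine ⟨h3, fun j => ?_⟩
  subst h3
  have h4 := h1 j
  rw [count_seg hg, count_seg hg] at h4
  have h5 := hX j
  have h6 := hY j
  have h7 : X + (m + m) = X + m + m := by omega
  have h8 : Y + (m + m) = Y + m + m := by omega
  rw [h7, h8] at h4
  omega

end Word

end Pool.Agent.H663R2.AbSq
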