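import Pool.Agent.H663R2.HyperMatch

/-!
# Linear representation of the graph instance
-/

namespace Pool.Agent.H663R2.HM

open Finset

section Lin

variable {ι : Type} [DecidableEq ι]

/-- The oriented incidence vector of an edge with ends `a`, `b`. -/
def evec (a b : ℕ) : ℕ → ℚ := Pi.single a 1 - Pi.single b 1

omit [DecidableEq ι] in
/-- A dependency-free criterion. -/
lemma dep_zero {F : Finset ι} {a b : ι → ℕ} (hab : ∀ x ∈ F, a x ≠ b x)
    (H : SH F fun x => {a x, b x}) {c : ι → ℚ} (hc : ∀ s, ∑ x ∈ F, c x * evec (a x) (b x) s = 0) :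
    ∀ x ∈ F, c x = 0 := by
  classical
  by_contra hcon
  push Not at hcon
  obtain ⟨x0, hx0, hcx0⟩ := hcon
  set X := F.filter (fun x => c x ≠ 0) with hX
  have hXne : X.Nonempty := ⟨x0, mem_filter.mpr ⟨hx0, hcx0⟩⟩
  have h1 := H X (filter_subset _ _) hXne
  -- every vertex of the union is on two edges
  have h2 : ∀ s ∈ X.biUnion (fun x => ({a x, b x} : Finset ℕ)),
      2 ≤ (X.filter fun x => s ∈ ({a x, b x} : Finset ℕ)).card := by
    intro s hs
    rw [mem_biUnion] at hs
    obtain ⟨x, hx, hsx⟩ := hs
    by_contra hlt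
    have h3 : (X.filter fun x => s ∈ ({a x, b x} : Finset ℕ)) = {x} := by
      apply eq_singleton_iff_unique_mem.mpr
      refine ⟨mem_filter.mpr ⟨hx, hsx⟩, ?_⟩
      intro y hy
      exact card_le_one.mp (by omega) y hy x (mem_filter.mpr ⟨hx, hsx⟩)
    have h4 := hc s
    rw [sum_eq_single_of_mem x (mem_filter.mp hx).1] at h4
    · rcases mul_eq_zero.mp h4 with h5 | h5
      · exact (mem_filter.mp hx).2 h5
      · have hxF := (mem_filter.mp hx).1
        have hne := hab x hxF
        simp only [mem_insert, mem_singleton] at hsx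
        unfold evec at h5
        rw [Pi.sub_apply] at h5
        rcases hsx with rfl | rfl
        · rw [Pi.single_eq_same, Pi.single_eq_of_ne hne] at h5
          norm_num at h5
        · rw [Pi.single_eq_same, Pi.single_eq_of_ne hne.symm] at h5
          norm_num at h5
    · intro y hy hyx
      by_cases hcy : c y = 0
      · rw [hcy, zero_mul]
      · have hyX : y ∈ X := mem_filter.mpr ⟨hy, hcy⟩
        have hsy : s ∉ ({a y, b y} : Finset ℕ) := by
          intro hsy
          have : y ∈ (X.filter fun x => s ∈ ({a x, b x} : Finset ℕ)) :=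
            mem_filter.mpr ⟨hyX, hsy⟩
          rw [h3, mem_singleton] at this
          exact hyx this
        simp only [mem_insert, mem_singleton, not_or] at hsy
        unfold evec
        rw [Pi.sub_apply, Pi.single_eq_of_ne hsy.1, Pi.single_eq_of_ne hsy.2, sub_zero, mul_zero]
  -- double counting
  have h3 : ∑ s ∈ X.biUnion (fun x => ({a x, b x} : Finset ℕ)),
      (X.filter fun x => s ∈ ({a x, b x} : Finset ℕ)).card
      = ∑ x ∈ X, ((X.biUnion (fun x => ({a x, b x} : Finset ℕ))).filter
        fun s => s ∈ ({a x, b x} : Finset ℕ)).card :=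
    sum_card_bipartiteAbove_eq_sum_card_bipartiteBelow (fun s x => s ∈ ({a x, b x} : Finset ℕ))
  have h4 : ∑ x ∈ X, ((X.biUnion (fun x => ({a x, b x} : Finset ℕ))).filter
        fun s => s ∈ ({a x, b x} : Finset ℕ)).card ≤ ∑ x ∈ X, 2 := by
    apply sum_le_sum
    intro x _
    refine (card_le_card (t := ({a x, b x} : Finset ℕ)) ?_).trans card_le_two
    intro s hs
    exact (mem_filter.mp hs).2
  have h5 : ∑ s ∈ X.biUnion (fun x => ({a x, b x} : Finset ℕ)), 2 ≤
      ∑ s ∈ X.biUnion (fun x => ({a x, b x} : Finset ℕ)),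
      (X.filter fun x => s ∈ ({a x, b x} : Finset ℕ)).card := sum_le_sum h2
  rw [h3] at h5
  have h6 := h5.trans h4
  rw [sum_const, sum_const, smul_eq_mul, smul_eq_mul] at h6
  omega

omit [DecidableEq ι] in
/-- Linear independence of the incidence vectors implies the strong Hall condition. -/
lemma SH_of_lin {F : Finset ι} {a b : ι → ℕ}
    (H : LinearIndependent ℚ (fun x : F => evec (a x) (b x))) : SH F fun x => {a x, b x} := by
  classical
  intro X hX hne
  set S := X.biUnion (fun x => ({a x, b x} : Finset ℕ)) with hS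
  have hSne : S.Nonempty := by
    obtain ⟨x, hx⟩ := hne
    exact ⟨a x, mem_biUnion.mpr ⟨x, hx, by simp⟩⟩
  obtain ⟨s0, hs0⟩ := hSne
  -- the vectors indexed by `X` together with a unit vector
  set w : Option X → (S → ℚ) := fun o => match o with
    | none => fun s => if s.1 = s0 then 1 else 0
    | some x => fun s => evec (a x) (b x) s.1 with hw
  have hlin : LinearIndependent ℚ w := by
    rw [Fintype.linearIndependent_iff]
    intro g hg
    rw [Fintype.sum_option] at hg
    -- sum of the coordinates of an edge vector vanishes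
    have hsum : ∀ x : X, ∑ s : S, evec (a x) (b x) s.1 = 0 := by
      intro x
      have ha : a x ∈ S := mem_biUnion.mpr ⟨x, x.2, by simp⟩
      have hb : b x ∈ S := mem_biUnion.mpr ⟨x, x.2, by simp⟩
      unfold evec
      simp only [Pi.sub_apply, sum_sub_distrib]
      rw [sum_coe_sort S (fun s => (Pi.single (a x) (1 : ℚ) : ℕ → ℚ) s),
        sum_coe_sort S (fun s => (Pi.single (b x) (1 : ℚ) : ℕ → ℚ) s)]
      simp [Pi.single_apply, ha, hb]
    have h0 : g none = 0 := by
      have h1 := congrArg (fun v : S → ℚ => ∑ s : S, v s) hg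
      simp only [hw, Pi.add_apply, Pi.smul_apply, Finset.sum_apply, smul_eq_mul,
        sum_add_distrib, Pi.zero_apply, sum_const_zero] at h1
      rw [sum_comm (s := univ) (t := univ)] at h1
      simp_rw [← mul_sum, hsum, mul_zero, sum_const_zero, add_zero] at h1
      rw [sum_coe_sort S (fun s => if s = s0 then (1 : ℚ) else 0), sum_ite_eq' S s0,
        if_pos hs0, mul_one] at h1
      exact h1
    have h1 : ∀ x : X, g (some x) = 0 := by
      rw [h0, zero_smul, zero_add] at hg
      have hXF : LinearIndependent ℚ (fun x : X => evec (a x) (b x)) :=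
        H.comp (fun x : X => (⟨x.1, hX x.2⟩ : F)) (fun x y hxy => Subtype.ext (by simpa using hxy))
      rw [Fintype.linearIndependent_iff] at hXF
      apply hXF (fun x => g (some x))
      funext s
      by_cases hs : s ∈ S
      · have := congrFun hg ⟨s, hs⟩
        simp only [hw, Finset.sum_apply, Pi.smul_apply, smul_eq_mul, Pi.zero_apply] at this
        simpa [Finset.sum_apply] using this
      · simp only [Finset.sum_apply, Pi.smul_apply, smul_eq_mul, Pi.zero_apply]
        apply sum_eq_zero
        intro x _
        have ha : s ≠ a x := by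
          rintro rfl
          exact hs (mem_biUnion.mpr ⟨x, x.2, by simp⟩)
        have hb : s ≠ b x := by
          rintro rfl
          exact hs (mem_biUnion.mpr ⟨x, x.2, by simp⟩)
        unfold evec
        rw [Pi.sub_apply, Pi.single_eq_of_ne ha, Pi.single_eq_of_ne hb, sub_zero, mul_zero]
    intro o
    cases o
    · exact h0
    · exact h1 _
  have := hlin.fintype_card_le_finrank
  simpa using this

end Lin

/-! ### Explicitly represented matroids -/

/-- A linear matroid with a partition of its ground set into pairs: the list of the pairs, each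
element being given by an integer vector (the list of its coordinates). -/
abbrev LInst : Type := List (List ℤ × List ℤ)

/-- The rational vector given by a list of coordinates (all further coordinates are `0`). -/
def colv (l : List ℤ) : ℕ → ℚ := fun j => ((l.getD j 0 : ℤ) : ℚ)

/-- The vector of the element `(i, b)`. -/
def lvec (L : LInst) (x : Fin L.length × Bool) : ℕ → ℚ :=
  colv (if x.2 then (L[x.1]).2 else (L[x.1]).1)

/-- `m` pairs can be chosen whose union is linearly independent over `ℚ`. -/
def HasLinMatching (L : LInst) (m : ℕ) : Prop :=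
  ∃ J : Finset (Fin L.length), J.card = m ∧
    LinearIndepOn ℚ (lvec L) ((J ×ˢ (Finset.univ : Finset Bool) : Finset (Fin L.length × Bool)) :
      Set (Fin L.length × Bool))

/-- The incidence vector of the edge `c` as a list, the coordinates being indexed by the vertex
list `V`. -/
def ivec (V c : List ℕ) : List ℤ :=
  V.map fun w => (if w = c.getD 0 0 then 1 else 0) - (if w = c.getD 1 0 then 1 else 0)

/-- The incidence matrix of a graph instance. -/
def toLin (G : Inst) : LInst := G.2.map fun p => (ivec G.1 p.1, ivec G.1 p.2)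

/-- A loopless graph instance. -/
def IsGr2 (G : Inst) : Prop :=
  ∀ p ∈ G.2, ∀ b, ∃ u v, side p b = [u, v] ∧ u ≠ v ∧ u ∈ G.1 ∧ v ∈ G.1

lemma toLin_length (G : Inst) : (toLin G).length = G.2.length := by simp [toLin]

lemma colv_ivec {V : List ℕ} {u v : ℕ} (j : ℕ) :
    colv (ivec V [u, v]) j = if j < V.length then evec u v (V.getD j 0) else 0 := by
  unfold colv ivec
  split_ifs with h
  · rw [List.getD_eq_getElem?_getD, List.getElem?_map, List.getElem?_eq_getElem h,
      List.getD_eq_getElem _ _ h]
    simp only [Option.map_some, Option.getD_some, evec, Pi.sub_apply, Pi.single_apply]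
    simp
  · rw [List.getD_eq_getElem?_getD, List.getElem?_eq_none (by simpa using h)]
    simp

/-- change of coordinates -/
def coordMap (V : List ℕ) : (ℕ → ℚ) →ₗ[ℚ] (ℕ → ℚ) where
  toFun f j := if j < V.length then f (V.getD j 0) else 0
  map_add' f g := by
    funext j
    simp only [Pi.add_apply]
    split_ifs <;> simp
  map_smul' c f := by
    funext j
    simp only [Pi.smul_apply, smul_eq_mul, RingHom.id_apply]
    split_ifs <;> simp

lemma lin_iff_SH {G : Inst} (hG : IsGr2 G) (J : Finset (Fin (toLin G).length)) :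
    LinearIndepOn ℚ (lvec (toLin G))
      ((J ×ˢ (Finset.univ : Finset Bool) : Finset (Fin (toLin G).length × Bool)) :
        Set (Fin (toLin G).length × Bool)) ↔
    SH ((J.map (finCongr (toLin_length G)).toEmbedding) ×ˢ (Finset.univ : Finset Bool))
      (hedge G) := by
  set e := finCongr (toLin_length G) with he
  have h0 : (J.map e.toEmbedding) ×ˢ (Finset.univ : Finset Bool)
      = (J ×ˢ (Finset.univ : Finset Bool)).image (fun x => (e x.1, x.2)) := by
    ext ⟨i, b⟩
    simp only [mem_product, mem_map, mem_univ, and_true, mem_image, Prod.mk.injEq,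
      Equiv.coe_toEmbedding]
    constructor
    · rintro ⟨j, hj, rfl⟩
      exact ⟨(j, b), hj, rfl, rfl⟩
    · rintro ⟨⟨j, b'⟩, hj, rfl, rfl⟩
      exact ⟨j, hj, rfl⟩
  -- the ends of the edges
  have hab : ∀ x : Fin (toLin G).length × Bool, ∃ uv : ℕ × ℕ,
      side G.2[e x.1] x.2 = [uv.1, uv.2] ∧ uv.1 ≠ uv.2 ∧ uv.1 ∈ G.1 ∧ uv.2 ∈ G.1 := by
    intro x
    obtain ⟨u, v, h⟩ := hG G.2[e x.1] (List.getElem_mem _) x.2
    exact ⟨(u, v), h⟩
  choose ab h1 h2 h3 h4 using hab
  have hhe : ∀ x : Fin (toLin G).length × Bool,
      hedge G (e x.1, x.2) = {(ab x).1, (ab x).2} := by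
    intro x
    rw [hedge_eq]
    unfold lset
    simp only
    rw [h1 x]
    simp
  have hvec : ∀ x : Fin (toLin G).length × Bool,
      lvec (toLin G) x = colv (ivec G.1 [(ab x).1, (ab x).2]) := by
    intro x
    rw [← h1 x]
    unfold lvec side
    congr 1
    have : (toLin G)[x.1] = (ivec G.1 G.2[e x.1].1, ivec G.1 G.2[e x.1].2) := by
      simp only [toLin, Fin.getElem_fin, List.getElem_map]
      rfl
    rw [this]
    split <;> rfl
  rw [h0, SH_image (h := fun x => {(ab x).1, (ab x).2})
    (by rintro ⟨i, b⟩ _ ⟨j, b'⟩ _ hij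
        simp only [Prod.mk.injEq, EmbeddingLike.apply_eq_iff_eq] at hij
        rw [hij.1, hij.2])
    (fun x _ => hhe x)]
  constructor
  · intro H
    apply SH_of_lin
    have hT : ∀ x : Fin (toLin G).length × Bool,
        coordMap G.1 (evec (ab x).1 (ab x).2) = lvec (toLin G) x := by
      intro x
      rw [hvec x]
      funext j
      rw [colv_ivec]
      rfl
    have H' : LinearIndependent ℚ (fun x : (J ×ˢ (Finset.univ : Finset Bool) :
        Finset (Fin (toLin G).length × Bool)) => lvec (toLin G) x) := H
    apply LinearIndependent.of_comp (coordMap G.1)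
    convert H' using 1
    funext x
    exact hT x
  · intro H
    rw [linearIndepOn_finset_iff]
    intro f hf
    apply dep_zero (fun x _ => h2 x) H
    intro s
    by_cases hs : s ∈ G.1
    · obtain ⟨j, hj, rfl⟩ := List.getElem_of_mem hs
      have := congrFun hf j
      simp only [Finset.sum_apply, Pi.smul_apply, smul_eq_mul, Pi.zero_apply] at this
      rw [← this]
      apply sum_congr rfl
      intro x _
      rw [hvec x, colv_ivec, if_pos hj, List.getD_eq_getElem _ _ hj]
    · apply sum_eq_zero
      intro x _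
      have ha : s ≠ (ab x).1 := by rintro rfl; exact hs (h3 x)
      have hb : s ≠ (ab x).2 := by rintro rfl; exact hs (h4 x)
      unfold evec
      rw [Pi.sub_apply, Pi.single_eq_of_ne ha, Pi.single_eq_of_ne hb, sub_zero, mul_zero]

lemma hasLinMatching_iff {G : Inst} (hG : IsGr2 G) (m : ℕ) :
    HasLinMatching (toLin G) m ↔ HasMatching G m := by
  constructor
  · rintro ⟨J, hJ, H⟩
    exact ⟨J.map (finCongr (toLin_length G)).toEmbedding, by rw [card_map, hJ],
      (lin_iff_SH hG J).mp H⟩
  · rintro ⟨J, hJ, H⟩
    refine ⟨J.map (finCongr (toLin_length G)).symm.toEmbedding, by rw [card_map, hJ],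
      (lin_iff_SH hG _).mpr ?_⟩
    rw [map_map]
    have h1 : J.map ((finCongr (toLin_length G)).symm.toEmbedding.trans
        (finCongr (toLin_length G)).toEmbedding) = J := by
      ext i
      simp
    rw [h1]
    exact H

/-- A valid instance: every hyperedge is a nonempty set of vertices. -/
def Valid (I : Inst) : Prop :=
  ∀ p ∈ I.2, (p.1 ≠ [] ∧ ∀ v ∈ p.1, v ∈ I.1) ∧ (p.2 ≠ [] ∧ ∀ v ∈ p.2, v ∈ I.1)

lemma red_isGr2 {I : Inst} (hI : Valid I) : IsGr2 (red I) := by
  intro p hp b
  rw [mem_red] at hp
  obtain ⟨i, hp⟩ := hp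
  have hpriv : ∀ b', ∃ u v, priv (num i b') = [u, v] ∧ u ≠ v ∧ u ∈ (red I).1 ∧ v ∈ (red I).1 := by
    intro b'
    refine ⟨_, _, rfl, by omega, ?_, ?_⟩
    all_goals
      unfold red
      simp only [List.mem_append, List.mem_flatMap, List.mem_range]
      refine Or.inr ⟨num i b', ?_, by simp [priv]⟩
      have := i.2
      unfold num
      split <;> omega
  have hside : ∀ b', ∀ c ∈ prs (side I.2[i] b'),
      ∃ u v, c = [u, v] ∧ u ≠ v ∧ u ∈ (red I).1 ∧ v ∈ (red I).1 := by
    intro b' c hc
    obtain ⟨u, hu, v, hv, huv, rfl⟩ := mem_prs.mp hc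
    have hmem : ∀ w ∈ side I.2[i] b', 2 * w ∈ (red I).1 := by
      intro w hw
      unfold red
      simp only [List.mem_append, List.mem_map]
      left
      refine ⟨w, ?_, rfl⟩
      obtain ⟨h1, h2⟩ := hI I.2[i] (List.getElem_mem _)
      unfold side at hw
      split at hw
      · exact h2.2 w hw
      · exact h1.2 w hw
    exact ⟨2 * u, 2 * v, rfl, by omega, hmem u hu, hmem v hv⟩
  rw [mem_lines] at hp
  rcases hp with rfl | ⟨b', c, hc, rfl⟩
  · cases b
    · exact hpriv false
    · exact hpriv true
  · cases b
    · exact hpriv b'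
    · exact hside b' c hc

/-- **Correctness of the reduction to linear matroid matching.** -/
theorem lin_red_iff {I : Inst} (hI : Valid I) (m : ℕ) :
    HasLinMatching (toLin (red I)) (I.2.length + m) ↔ HasMatching I m := by
  rw [hasLinMatching_iff (red_isGr2 hI), red_iff]

end Pool.Agent.H663R2.HM
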