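import Mathlib

/-!
# Hypergraphic matroid matching reduces to graphic matroid matching: combinatorial part
-/

namespace Pool.Agent.H663R2.HM

open Finset

/-- An instance: the list of the vertices of a hypergraph and the list of the blocks of a partition
of its hyperedges into pairs; a hyperedge is given by the list of its vertices. -/
abbrev Inst : Type := List ℕ × List (List ℕ × List ℕ)

/-- The ground set (the family of hyperedges): the two members of every block. -/
abbrev Ground (I : Inst) : Type := Fin I.2.length × Bool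

/-- The set of vertices of a hyperedge. -/
def hedge (I : Inst) (x : Ground I) : Finset ℕ :=
  if x.2 then (I.2[x.1]).2.toFinset else (I.2[x.1]).1.toFinset

/-- Independence in the hypergraphic matroid. -/
def Indep (I : Inst) (F : Finset (Ground I)) : Prop :=
  ∀ X ⊆ F, X.Nonempty → X.card + 1 ≤ (X.biUnion (hedge I)).card

/-- `m` blocks can be chosen whose union is independent. -/
def HasMatching (I : Inst) (m : ℕ) : Prop :=
  ∃ J : Finset (Fin I.2.length), J.card = m ∧ Indep I (J ×ˢ Finset.univ)

/-! ### Strong Hall families -/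

section SH

variable {ι : Type} [DecidableEq ι]

/-- The strong Hall condition. -/
def SH (F : Finset ι) (h : ι → Finset ℕ) : Prop :=
  ∀ X ⊆ F, X.Nonempty → X.card + 1 ≤ (X.biUnion h).card

omit [DecidableEq ι] in
lemma SH.two_le {F : Finset ι} {h : ι → Finset ℕ} (H : SH F h) {e : ι} (he : e ∈ F) :
    2 ≤ (h e).card := by
  have := H {e} (by simpa using he) (singleton_nonempty e)
  simpa using this

/-- Shrinking one set of a strong Hall family. -/
lemma SH.shrink {F : Finset ι} {h : ι → Finset ℕ} (H : SH F h) {e : ι} (he : e ∈ F)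
    (h3 : 3 ≤ (h e).card) : ∃ v ∈ h e, SH F (Function.update h e ((h e).erase v)) := by
  by_contra hcon
  push Not at hcon
  -- for each v a violating set
  have key : ∀ v ∈ h e, ∃ Y : Finset ι, Y ⊆ F ∧ e ∉ Y ∧
      ((Y.biUnion h) ∪ (h e).erase v).card ≤ Y.card + 1 := by
    intro v hv
    have := hcon v hv
    unfold SH at this
    push Not at this
    obtain ⟨X, hXF, hXne, hXc⟩ := this
    have heX : e ∈ X := by
      by_contra heX
      have h1 : X.biUnion (Function.update h e ((h e).erase v)) = X.biUnion h := by
        apply biUnion_congr rfl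
        intro x hx
        rw [Function.update_of_ne (by rintro rfl; exact heX hx)]
      rw [h1] at hXc
      have := H X hXF hXne
      omega
    refine ⟨X.erase e, (erase_subset _ _).trans hXF, notMem_erase _ _, ?_⟩
    have h1 : X.biUnion (Function.update h e ((h e).erase v))
        = ((X.erase e).biUnion h) ∪ (h e).erase v := by
      ext y
      simp only [mem_biUnion, mem_union, mem_erase]
      constructor
      · rintro ⟨x, hx, hy⟩
        by_cases hxe : x = e
        · subst hxe
          rw [Function.update_self, mem_erase] at hy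
          exact Or.inr hy
        · rw [Function.update_of_ne hxe] at hy
          exact Or.inl ⟨x, ⟨hxe, hx⟩, hy⟩
      · rintro (⟨x, ⟨hxe, hx⟩, hy⟩ | hy)
        · exact ⟨x, hx, by rwa [Function.update_of_ne hxe]⟩
        · exact ⟨e, heX, by rw [Function.update_self, mem_erase]; exact hy⟩
    rw [← h1, card_erase_of_mem heX]
    have := card_pos.mpr hXne
    omega
  obtain ⟨v, hv, w, hw, hvw⟩ := one_lt_card.mp (show 1 < (h e).card by omega)
  obtain ⟨Y, hYF, heY, hY⟩ := key v hv
  obtain ⟨Z, hZF, heZ, hZ⟩ := key w hw
  set U := (Y.biUnion h) ∪ (h e).erase v with hU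
  set W := (Z.biUnion h) ∪ (h e).erase w with hW
  have hcard := card_union_add_card_inter U W
  have hYZ := card_union_add_card_inter Y Z
  -- the union
  have h1 : (insert e (Y ∪ Z)).biUnion h ⊆ U ∪ W := by
    intro y hy
    simp only [mem_biUnion, mem_insert, mem_union] at hy
    simp only [hU, hW, mem_union, mem_biUnion, mem_erase]
    obtain ⟨x, (rfl | hx | hx), hy⟩ := hy
    · by_cases hyv : y = v
      · subst hyv
        exact Or.inr (Or.inr ⟨hvw, hy⟩)
      · exact Or.inl (Or.inr ⟨hyv, hy⟩)
    · exact Or.inl (Or.inl ⟨x, hx, hy⟩)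
    · exact Or.inr (Or.inl ⟨x, hx, hy⟩)
  have h2 := H (insert e (Y ∪ Z)) (insert_subset he (union_subset hYF hZF)) ⟨e, by simp⟩
  have h3' : (insert e (Y ∪ Z)).card = (Y ∪ Z).card + 1 :=
    card_insert_of_notMem (by simp [heY, heZ])
  have h4 := card_le_card h1
  -- the intersection
  have h5 : (Y ∩ Z).card + 1 ≤ (U ∩ W).card := by
    by_cases hne : (Y ∩ Z).Nonempty
    · have h6 := H (Y ∩ Z) (inter_subset_left.trans hYF) hne
      have h7 : (Y ∩ Z).biUnion h ⊆ U ∩ W := by
        intro y hy
        simp only [mem_biUnion, mem_inter] at hy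
        obtain ⟨x, ⟨hx1, hx2⟩, hy⟩ := hy
        simp only [hU, hW, mem_union, mem_biUnion, mem_inter]
        exact ⟨Or.inl ⟨x, hx1, hy⟩, Or.inl ⟨x, hx2, hy⟩⟩
      exact h6.trans (card_le_card h7)
    · rw [not_nonempty_iff_eq_empty] at hne
      rw [hne, card_empty]
      have h7 : ((h e).erase v).erase w ⊆ U ∩ W := by
        intro y hy
        simp only [mem_erase] at hy
        simp only [hU, hW, mem_union, mem_inter, mem_erase]
        exact ⟨Or.inr ⟨hy.2.1, hy.2.2⟩, Or.inr ⟨hy.1, hy.2.2⟩⟩
      have h8 := card_le_card h7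
      rw [card_erase_of_mem (mem_erase.mpr ⟨hvw.symm, hw⟩), card_erase_of_mem hv] at h8
      omega
  omega

/-- **Lovász**: in a strong Hall family two elements can be chosen from every set such that the
resulting family of pairs is still strong Hall. -/
lemma SH.exists_pairs {F : Finset ι} {h : ι → Finset ℕ} (H : SH F h) :
    ∃ g : ι → Finset ℕ, SH F g ∧ ∀ e ∈ F, g e ⊆ h e ∧ (g e).card = 2 := by
  -- induction on the total size
  have main : ∀ (n : ℕ) (h : ι → Finset ℕ), SH F h → ∑ e ∈ F, (h e).card = n →
      ∃ g : ι → Finset ℕ, SH F g ∧ ∀ e ∈ F, g e ⊆ h e ∧ (g e).card = 2 := by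
    intro n
    induction n using Nat.strong_induction_on with
    | _ n ih =>
      intro h H hn
      by_cases hbig : ∃ e ∈ F, 3 ≤ (h e).card
      · obtain ⟨e, he, h3⟩ := hbig
        obtain ⟨v, hv, H'⟩ := H.shrink he h3
        have hlt : ∑ x ∈ F, (Function.update h e ((h e).erase v) x).card < n := by
          rw [← hn]
          apply sum_lt_sum
          · intro i _
            by_cases hi : i = e
            · subst hi
              rw [Function.update_self]
              exact card_le_card (erase_subset _ _)
            · rw [Function.update_of_ne hi]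
          · refine ⟨e, he, ?_⟩
            rw [Function.update_self]
            exact card_lt_card (erase_ssubset hv)
        obtain ⟨g, hg, hg'⟩ := ih _ hlt _ H' rfl
        refine ⟨g, hg, fun x hx => ⟨?_, (hg' x hx).2⟩⟩
        have := (hg' x hx).1
        by_cases hxe : x = e
        · subst hxe
          rw [Function.update_self] at this
          exact this.trans (erase_subset _ _)
        · rwa [Function.update_of_ne hxe] at this
      · push Not at hbig
        refine ⟨h, H, fun e he => ⟨Subset.rfl, ?_⟩⟩
        have h1 := H.two_le he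
        have h2 := hbig e he
        omega
  exact main _ h H rfl

end SH

/-! ### General lemmas on strong Hall families -/

section SH2

variable {ι κ : Type} [DecidableEq ι] [DecidableEq κ]

omit [DecidableEq ι] in
lemma SH.subset {F G : Finset ι} {h : ι → Finset ℕ} (H : SH F h) (hG : G ⊆ F) : SH G h :=
  fun X hX hne => H X (hX.trans hG) hne

omit [DecidableEq ι] in
lemma SH_image {F : Finset ι} {φ : ι → κ} {h : ι → Finset ℕ} {h' : κ → Finset ℕ}
    (hφ : Set.InjOn φ (F : Set ι)) (hh : ∀ x ∈ F, h' (φ x) = h x) :
    SH (F.image φ) h' ↔ SH F h := by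
  classical
  have e : ∀ X ⊆ F, (X.image φ).card = X.card ∧ (X.image φ).biUnion h' = X.biUnion h := by
    intro X hX
    refine ⟨card_image_of_injOn (hφ.mono (by exact_mod_cast hX)), ?_⟩
    rw [image_biUnion]
    exact biUnion_congr rfl fun x hx => hh x (hX hx)
  constructor
  · intro H X hX hne
    have := H (X.image φ) (image_subset_image hX) (hne.image φ)
    rwa [(e X hX).1, (e X hX).2] at this
  · intro H Y hY hne
    obtain ⟨X, hX, rfl⟩ := subset_image_iff.mp hY
    have hX' : X ⊆ F := by exact_mod_cast hX
    have := H X hX' (image_nonempty.mp hne)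
    rwa [(e X hX').1, (e X hX').2]

omit [DecidableEq ι] in
lemma SH_congr {F : Finset ι} {h h' : ι → Finset ℕ} (hh : ∀ x ∈ F, h' x = h x) :
    SH F h' ↔ SH F h := by
  classical
  have := SH_image (F := F) (φ := id) (h := h) (h' := h') (Set.injOn_id _) hh
  rwa [image_id] at this

lemma SH_union {F G : Finset ι} {h : ι → Finset ℕ} (hF : SH F h) (hG : SH G h)
    (hd : ∀ x ∈ F, ∀ y ∈ G, Disjoint (h x) (h y)) : SH (F ∪ G) h := by
  intro X hX hne
  have h1 : X = (X.filter (· ∈ F)) ∪ (X.filter (· ∉ F)) := (filter_union_filter_not_eq _ _).symm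
  have hXF : X.filter (· ∈ F) ⊆ F := fun x hx => (mem_filter.mp hx).2
  have hXG : X.filter (· ∉ F) ⊆ G := fun x hx => by
    obtain ⟨hx1, hx2⟩ := mem_filter.mp hx
    exact (mem_union.mp (hX hx1)).resolve_left hx2
  have hcard : X.card = (X.filter (· ∈ F)).card + (X.filter (· ∉ F)).card :=
    (card_filter_add_card_filter_not _).symm
  have hU : X.biUnion h = (X.filter (· ∈ F)).biUnion h ∪ (X.filter (· ∉ F)).biUnion h := by
    conv_lhs => rw [h1]
    rw [union_biUnion]
  have hdis : Disjoint ((X.filter (· ∈ F)).biUnion h) ((X.filter (· ∉ F)).biUnion h) := by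
    rw [disjoint_biUnion_left]
    intro x hx
    rw [disjoint_biUnion_right]
    intro y hy
    exact hd x (hXF hx) y (hXG hy)
  rw [hU, card_union_of_disjoint hdis, hcard]
  rcases (X.filter (· ∈ F)).eq_empty_or_nonempty with hA | hA
  · rw [hA] at hcard ⊢
    have hne' : (X.filter (· ∉ F)).Nonempty := by
      rw [← card_pos]
      have := card_pos.mpr hne
      rw [card_empty] at hcard
      omega
    have := hG _ hXG hne'
    simp only [card_empty, biUnion_empty]
    omega
  · have h2 := hF _ hXF hA
    rcases (X.filter (· ∉ F)).eq_empty_or_nonempty with hB | hB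
    · rw [hB]
      simp only [card_empty, biUnion_empty]
      omega
    · have h3 := hG _ hXG hB
      omega

omit [DecidableEq ι] in
lemma SH_disjoint {F : Finset ι} {h : ι → Finset ℕ}
    (hd : ∀ x ∈ F, ∀ y ∈ F, x ≠ y → Disjoint (h x) (h y)) (h2 : ∀ x ∈ F, 2 ≤ (h x).card) :
    SH F h := by
  classical
  intro X hX hne
  rw [card_biUnion (fun x hx y hy hxy => hd x (hX hx) y (hX hy) hxy)]
  have h3 : X.card * 2 ≤ ∑ x ∈ X, (h x).card := by
    have := X.card_nsmul_le_sum (fun x => (h x).card) 2 (fun x hx => h2 x (hX hx))
    simpa using this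
  have := card_pos.mpr hne
  omega

/-- two different members of a strong Hall family of pairs are different sets -/
lemma SH.ne {F : Finset ι} {h : ι → Finset ℕ} (H : SH F h) {x y : ι} (hx : x ∈ F) (hy : y ∈ F)
    (hxy : x ≠ y) (hc : (h x).card ≤ 2) : h x ≠ h y := by
  intro heq
  have h1 := H {x, y} (by intro z hz; simp only [mem_insert, mem_singleton] at hz
                          rcases hz with rfl | rfl <;> assumption) ⟨x, by simp⟩
  rw [card_pair hxy] at h1
  have h2 : ({x, y} : Finset ι).biUnion h = h x := by
    rw [biUnion_insert, singleton_biUnion, ← heq, union_self]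
  rw [h2] at h1
  omega

end SH2

/-! ### The reduction -/

/-- the private edge number `j` -/
def priv (j : ℕ) : List ℕ := [4 * j + 1, 4 * j + 3]

/-- the copies of the pairs of elements of `l` -/
def prs (l : List ℕ) : List (List ℕ) :=
  l.flatMap fun u => (l.filter fun v => decide (u < v)).map fun v => [2 * u, 2 * v]

/-- the blocks made from block number `i` -/
def lines (i : ℕ) (p : List ℕ × List ℕ) : List (List ℕ × List ℕ) :=
  (priv (2 * i), priv (2 * i + 1)) ::
    ((prs p.1).map (fun c => (priv (2 * i), c)) ++ (prs p.2).map (fun c => (priv (2 * i + 1), c)))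

/-- the graph instance -/
def red (I : Inst) : Inst :=
  (I.1.map (fun v => 2 * v) ++ (List.range (2 * I.2.length)).flatMap priv,
    I.2.zipIdx.flatMap fun x => lines x.2 x.1)

lemma mem_prs {l c : List ℕ} : c ∈ prs l ↔ ∃ u ∈ l, ∃ v ∈ l, u < v ∧ c = [2 * u, 2 * v] := by
  unfold prs
  simp only [List.mem_flatMap, List.mem_map, List.mem_filter, decide_eq_true_eq]
  constructor
  · rintro ⟨u, hu, v, ⟨hv, huv⟩, rfl⟩
    exact ⟨u, hu, v, hv, huv, rfl⟩
  · rintro ⟨u, hu, v, hv, huv, rfl⟩
    exact ⟨u, hu, v, ⟨hv, huv⟩, rfl⟩

/-- the hyperedge number `b` of a block, as a list -/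
def side (p : List ℕ × List ℕ) (b : Bool) : List ℕ := if b then p.2 else p.1

/-- the number of the hyperedge `b` of block `i` -/
def num (i : ℕ) (b : Bool) : ℕ := 2 * i + (if b then 1 else 0)

lemma mem_lines {i : ℕ} {p x : List ℕ × List ℕ} : x ∈ lines i p ↔
    x = (priv (2 * i), priv (2 * i + 1)) ∨ ∃ b, ∃ c ∈ prs (side p b), x = (priv (num i b), c) := by
  unfold lines
  simp only [List.mem_cons, List.mem_append, List.mem_map, side, num]
  constructor
  · rintro (h | ⟨c, hc, rfl⟩ | ⟨c, hc, rfl⟩)
    · exact Or.inl h
    · exact Or.inr ⟨false, c, by simpa using hc, by simp⟩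
    · exact Or.inr ⟨true, c, by simpa using hc, by simp⟩
  · rintro (h | ⟨b, c, hc, rfl⟩)
    · exact Or.inl h
    · cases b
      · exact Or.inr (Or.inl ⟨c, by simpa using hc, by simp⟩)
      · exact Or.inr (Or.inr ⟨c, by simpa using hc, by simp⟩)

lemma mem_red {I : Inst} {x : List ℕ × List ℕ} :
    x ∈ (red I).2 ↔ ∃ i : Fin I.2.length, x ∈ lines i I.2[i] := by
  unfold red
  simp only [List.mem_flatMap]
  constructor
  · rintro ⟨⟨p, i⟩, h, hx⟩
    rw [List.mem_zipIdx_iff_getElem?] at h
    simp only at h hx
    obtain ⟨hi, rfl⟩ := List.getElem?_eq_some_iff.mp h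
    exact ⟨⟨i, hi⟩, hx⟩
  · rintro ⟨i, hx⟩
    refine ⟨(I.2[i], i), ?_, hx⟩
    rw [List.mem_zipIdx_iff_getElem?]
    simp

lemma priv_card (j : ℕ) : (priv j).toFinset.card = 2 := by
  unfold priv
  rw [List.toFinset_card_of_nodup (by simp)]
  rfl

lemma priv_inj {i j : ℕ} (h : priv i = priv j) : i = j := by
  unfold priv at h
  simp only [List.cons.injEq] at h
  omega

lemma mem_priv {j v : ℕ} (h : v ∈ (priv j).toFinset) : v % 2 = 1 ∧ v / 4 = j := by
  unfold priv at h
  simp only [List.toFinset_cons, List.toFinset_nil, insert_empty_eq, mem_insert,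
    mem_singleton] at h
  omega

lemma mem_prs_set {l c : List ℕ} (hc : c ∈ prs l) {v : ℕ} (hv : v ∈ c.toFinset) :
    v % 2 = 0 ∧ v / 2 ∈ l := by
  obtain ⟨a, ha, b, hb, hab, rfl⟩ := mem_prs.mp hc
  simp only [List.toFinset_cons, List.toFinset_nil, insert_empty_eq, mem_insert,
    mem_singleton] at hv
  rcases hv with rfl | rfl
  · refine ⟨by omega, ?_⟩
    rwa [Nat.mul_div_cancel_left _ (by norm_num)]
  · refine ⟨by omega, ?_⟩
    rwa [Nat.mul_div_cancel_left _ (by norm_num)]

lemma prs_card {l c : List ℕ} (hc : c ∈ prs l) : c.toFinset.card = 2 ∧ c.length = 2 := by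
  obtain ⟨a, ha, b, hb, hab, rfl⟩ := mem_prs.mp hc
  refine ⟨?_, rfl⟩
  rw [List.toFinset_card_of_nodup]
  · rfl
  · simp; omega

/-- the vertex set of the hyperedge `x.2` of a block `x.1` -/
def lset (x : (List ℕ × List ℕ) × Bool) : Finset ℕ := (side x.1 x.2).toFinset

lemma hedge_eq (I : Inst) (x : Ground I) : hedge I x = lset (I.2[x.1], x.2) := by
  unfold hedge lset side
  split <;> rfl

/-- All hyperedges are pairs. -/
def IsGr (I : Inst) : Prop := ∀ p ∈ I.2, ∀ b, (side p b).toFinset.card = 2

lemma red_isGr (I : Inst) : IsGr (red I) := by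
  intro p hp b
  rw [mem_red] at hp
  obtain ⟨i, hp⟩ := hp
  rw [mem_lines] at hp
  rcases hp with rfl | ⟨b', c, hc, rfl⟩
  · unfold side
    split <;> exact priv_card _
  · unfold side
    split
    · exact (prs_card hc).1
    · exact priv_card _

/-- In a graph instance, matchings can be described by sets of blocks instead of sets of
indices. -/
lemma hasMatching_iff {I : Inst} (hI : IsGr I) (m : ℕ) : HasMatching I m ↔
    ∃ L : Finset (List ℕ × List ℕ), L ⊆ I.2.toFinset ∧ L.card = m ∧
      SH (L ×ˢ (Finset.univ : Finset Bool)) lset := by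
  constructor
  · rintro ⟨J, hJ, hind⟩
    change SH _ (hedge I) at hind
    have hinj : Set.InjOn (fun i : Fin I.2.length => I.2[i]) (J : Set (Fin I.2.length)) := by
      intro i hi j hj hij
      by_contra hne
      refine hind.ne (x := (i, false)) (y := (j, false)) ?_ ?_ ?_ ?_ ?_
      · simpa using hi
      · simpa using hj
      · simpa using hne
      · rw [hedge_eq]
        exact (hI _ (by simp) false).le
      · rw [hedge_eq, hedge_eq]
        simp only at hij ⊢
        rw [hij]
    refine ⟨J.image fun i => I.2[i], ?_, ?_, ?_⟩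
    · intro x hx
      rw [mem_image] at hx
      obtain ⟨i, _, rfl⟩ := hx
      simp
    · rw [card_image_of_injOn hinj, hJ]
    · have h1 : (J.image fun i => I.2[i]) ×ˢ (Finset.univ : Finset Bool)
          = (J ×ˢ (Finset.univ : Finset Bool)).image fun x => (I.2[x.1], x.2) := by
        ext ⟨a, b⟩
        simp only [mem_product, mem_image, mem_univ, and_true, Prod.mk.injEq, Prod.exists]
        constructor
        · rintro ⟨i, hi, rfl⟩
          exact ⟨i, b, hi, rfl, rfl⟩
        · rintro ⟨i, b', hi, rfl, rfl⟩
          exact ⟨i, hi, rfl⟩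
      rw [h1, SH_image (h := hedge I)]
      · exact hind
      · rintro ⟨i, b⟩ hi ⟨j, b'⟩ hj hij
        simp only [Prod.mk.injEq] at hij
        simp only [coe_product, Set.mem_prod, mem_coe] at hi hj
        rw [hinj hi.1 hj.1 hij.1, hij.2]
      · intro x _
        rw [hedge_eq]
  · rintro ⟨L, hL, hm, hind⟩
    have hidx : ∀ x ∈ L, ∃ i : Fin I.2.length, I.2[i] = x := by
      intro x hx
      have := hL hx
      rw [List.mem_toFinset] at this
      obtain ⟨i, hi, rfl⟩ := List.getElem_of_mem this
      exact ⟨⟨i, hi⟩, rfl⟩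
    rcases L.eq_empty_or_nonempty with rfl | ⟨x0, hx0⟩
    · refine ⟨∅, by simpa using hm, ?_⟩
      intro X hX hne
      rw [empty_product, subset_empty] at hX
      exact absurd hX hne.ne_empty
    have hne : Nonempty (Fin I.2.length) := ⟨(hidx x0 hx0).choose⟩
    choose! f hf using hidx
    have hinj : Set.InjOn f (L : Set (List ℕ × List ℕ)) := by
      intro x hx y hy hxy
      rw [← hf x hx, ← hf y hy, hxy]
    refine ⟨L.image f, by rw [card_image_of_injOn hinj, hm], ?_⟩
    change SH _ (hedge I)
    have h1 : (L.image f) ×ˢ (Finset.univ : Finset Bool)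
        = (L ×ˢ (Finset.univ : Finset Bool)).image fun x => (f x.1, x.2) := by
      ext ⟨a, b⟩
      simp only [mem_product, mem_image, mem_univ, and_true, Prod.mk.injEq]
      constructor
      · rintro ⟨x, hx, rfl⟩
        exact ⟨(x, b), hx, rfl, rfl⟩
      · rintro ⟨⟨x, b'⟩, hx, rfl, rfl⟩
        exact ⟨x, hx, rfl⟩
    rw [h1, SH_image (h := lset)]
    · exact hind
    · rintro ⟨x, b⟩ hx ⟨y, b'⟩ hy hxy
      simp only [Prod.mk.injEq] at hxy
      simp only [coe_product, Set.mem_prod, mem_coe] at hx hy
      rw [hinj hx.1 hy.1 hxy.1, hxy.2]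
    · rintro ⟨x, b⟩ hx
      rw [hedge_eq]
      simp only [mem_product] at hx
      simp only
      rw [hf x hx.1]

/-! ### Correctness -/

lemma toFinset_eq_of_pair {l : List ℕ} {S : Finset ℕ} (hS : S ⊆ l.toFinset) (h2 : S.card = 2) :
    ∃ c ∈ prs l, c.toFinset = S.image (fun v => 2 * v) := by
  obtain ⟨a, b, hab, rfl⟩ := card_eq_two.mp h2
  have ha : a ∈ l := by
    have := hS (mem_insert_self a {b})
    rwa [List.mem_toFinset] at this
  have hb : b ∈ l := by
    have := hS (mem_insert_of_mem (mem_singleton_self b))
    rwa [List.mem_toFinset] at this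
  rcases lt_or_gt_of_ne hab with h | h
  · exact ⟨[2 * a, 2 * b], mem_prs.mpr ⟨a, ha, b, hb, h, rfl⟩, by
      simp [image_insert]⟩
  · exact ⟨[2 * b, 2 * a], mem_prs.mpr ⟨b, hb, a, ha, h, rfl⟩, by
      simp [image_insert, pair_comm]⟩

/-- Every matching of the hypergraph instance gives a matching of the graph instance. -/
lemma red_of {I : Inst} {m : ℕ} (h : HasMatching I m) :
    HasMatching (red I) (I.2.length + m) := by
  obtain ⟨J, hJ, hind⟩ := h
  change SH _ (hedge I) at hind
  obtain ⟨g, hg, hg'⟩ := hind.exists_pairs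
  have hc : ∀ x ∈ J ×ˢ (Finset.univ : Finset Bool), ∃ c ∈ prs (side I.2[x.1] x.2),
      c.toFinset = (g x).image (fun v => 2 * v) := by
    intro x hx
    obtain ⟨h1, h2⟩ := hg' x hx
    rw [hedge_eq] at h1
    exact toFinset_eq_of_pair h1 h2
  choose! c hc1 hc2 using hc
  rw [hasMatching_iff (red_isGr I)]
  set LA : Finset (List ℕ × List ℕ) :=
    Jᶜ.image (fun i => (priv (2 * i.1), priv (2 * i.1 + 1))) with hLA
  set LB : Finset (List ℕ × List ℕ) :=
    (J ×ˢ (Finset.univ : Finset Bool)).image (fun x => (priv (num x.1 x.2), c x)) with hLB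
  have hnum : ∀ x y : Ground I, num x.1 x.2 = num y.1 y.2 → x = y := by
    rintro ⟨i, b⟩ ⟨j, b'⟩ h
    unfold num at h
    simp only at h
    cases b <;> cases b' <;> simp only [Bool.false_eq_true, if_false, if_true] at h <;>
      first
        | (exfalso; omega)
        | (congr 1; apply Fin.ext; omega)
  have hinjA : Set.InjOn (fun i : Fin I.2.length => (priv (2 * i.1), priv (2 * i.1 + 1)))
      (Jᶜ : Finset (Fin I.2.length)) := by
    intro i _ j _ hij
    simp only [Prod.mk.injEq] at hij
    have := priv_inj hij.1
    exact Fin.ext (by omega)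
  have hinjB : Set.InjOn (fun x : Ground I => (priv (num x.1 x.2), c x))
      (J ×ˢ (Finset.univ : Finset Bool) : Finset (Ground I)) := by
    intro x _ y _ hxy
    simp only [Prod.mk.injEq] at hxy
    exact hnum x y (priv_inj hxy.1)
  have hdisj : Disjoint LA LB := by
    rw [Finset.disjoint_left]
    intro z hz hz'
    rw [hLA, mem_image] at hz
    rw [hLB, mem_image] at hz'
    obtain ⟨i, hi, rfl⟩ := hz
    obtain ⟨x, hx, hxz⟩ := hz'
    simp only [Prod.mk.injEq] at hxz
    have h1 := hc1 x hx
    rw [hxz.2] at h1
    have h2 := mem_prs_set h1 (v := 4 * (2 * i.1 + 1) + 1) (by simp [priv])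
    omega
  refine ⟨LA ∪ LB, ?_, ?_, ?_⟩
  · intro z hz
    rw [List.mem_toFinset, mem_red]
    rw [mem_union, hLA, hLB, mem_image, mem_image] at hz
    rcases hz with ⟨i, _, rfl⟩ | ⟨x, hx, rfl⟩
    · exact ⟨i, mem_lines.mpr (Or.inl rfl)⟩
    · exact ⟨x.1, mem_lines.mpr (Or.inr ⟨x.2, c x, hc1 x hx, rfl⟩)⟩
  · rw [card_union_of_disjoint hdisj, hLA, hLB, card_image_of_injOn hinjA,
      card_image_of_injOn hinjB, card_compl, card_product, Fintype.card_fin, card_univ,
      Fintype.card_bool, hJ]
    have : J.card ≤ I.2.length := by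
      have := card_le_univ J
      rwa [Fintype.card_fin] at this
    omega
  · -- the even part
    set F2 := (J ×ˢ (Finset.univ : Finset Bool)).image
      (fun x => ((priv (num x.1 x.2), c x), true)) with hF2
    set F1 := ((LA ∪ LB) ×ˢ (Finset.univ : Finset Bool)) \ F2 with hF1
    have hF12 : (LA ∪ LB) ×ˢ (Finset.univ : Finset Bool) = F1 ∪ F2 := by
      rw [hF1, sdiff_union_of_subset]
      intro z hz
      rw [hF2, mem_image] at hz
      obtain ⟨x, hx, rfl⟩ := hz
      rw [mem_product]
      exact ⟨mem_union_right _ (mem_image_of_mem _ hx), mem_univ _⟩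
    have hSH2 : SH F2 lset := by
      rw [hF2, SH_image (h := fun x => (c x).toFinset)]
      · -- doubling
        intro X hX hne
        have h1 : X.biUnion (fun x => (c x).toFinset) = (X.biUnion g).image (fun v => 2 * v) := by
          rw [biUnion_image]
          exact biUnion_congr rfl fun x hx => hc2 x (hX hx)
        rw [h1, card_image_of_injective _ (fun a b h => by simpa using h)]
        exact hg X hX hne
      · intro x hx y hy hxy
        simp only [Prod.mk.injEq, and_true] at hxy
        exact hnum x y (priv_inj hxy.1)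
      · intro x _
        simp [lset, side]
    -- the odd part
    have hodd : ∀ z ∈ F1, ∃ j, lset z = (priv j).toFinset ∧
        ((∃ i ∈ Jᶜ, z.1 = (priv (2 * i.1), priv (2 * i.1 + 1)) ∧ j = num i z.2) ∨
          (∃ x ∈ J ×ˢ (Finset.univ : Finset Bool), z = ((priv (num x.1 x.2), c x), false) ∧
            j = num x.1 x.2)) := by
      rintro ⟨z, b⟩ hz
      rw [hF1, mem_sdiff, mem_product, mem_union] at hz
      obtain ⟨⟨hz1 | hz1, _⟩, hz2⟩ := hz
      · rw [hLA, mem_image] at hz1
        obtain ⟨i, hi, rfl⟩ := hz1
        refine ⟨num i b, ?_, Or.inl ⟨i, hi, rfl, rfl⟩⟩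
        unfold lset side num
        cases b <;> simp
      · rw [hLB, mem_image] at hz1
        obtain ⟨x, hx, rfl⟩ := hz1
        cases b
        · exact ⟨num x.1 x.2, by simp [lset, side], Or.inr ⟨x, hx, rfl, rfl⟩⟩
        · exact absurd (mem_image_of_mem (fun x : Ground I => ((priv (num x.1 x.2), c x), true)) hx)
            hz2
    have hSH1 : SH F1 lset := by
      apply SH_disjoint
      · intro z hz w hw hzw
        obtain ⟨j, hj, hj'⟩ := hodd z hz
        obtain ⟨k, hk, hk'⟩ := hodd w hw
        rw [hj, hk, Finset.disjoint_left]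
        intro v hv hv'
        have h1 := (mem_priv hv).2
        have h2 := (mem_priv hv').2
        have hjk : j = k := by omega
        apply hzw
        obtain ⟨z1, zb⟩ := z
        obtain ⟨w1, wb⟩ := w
        rcases hj' with ⟨i, hi, hz1, hji⟩ | ⟨x, hx, hz1, hji⟩ <;>
          rcases hk' with ⟨i', hi', hw1, hki⟩ | ⟨x', hx', hw1, hki⟩
        · simp only at hz1 hw1 hji hki
          have h3 := hnum (i, zb) (i', wb) (by rw [← hji, ← hki, hjk])
          simp only [Prod.mk.injEq] at h3
          rw [hz1, hw1, h3.1, h3.2]
        · simp only at hz1 hw1 hji hki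
          have h3 := hnum (i, zb) x' (by rw [← hji, ← hki, hjk])
          rw [← h3, mem_product] at hx'
          exact absurd hx'.1 (mem_compl.mp hi)
        · simp only at hz1 hw1 hji hki
          have h3 := hnum (i', wb) x (by rw [← hji, ← hki, hjk])
          rw [← h3, mem_product] at hx
          exact absurd hx.1 (mem_compl.mp hi')
        · have h3 := hnum x x' (by rw [← hji, ← hki, hjk])
          rw [hz1, hw1, h3]
      · intro z hz
        obtain ⟨j, hj, _⟩ := hodd z hz
        rw [hj, priv_card]
    rw [hF12]
    apply SH_union hSH1 hSH2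
    intro z hz w hw
    obtain ⟨j, hj, _⟩ := hodd z hz
    rw [hF2, mem_image] at hw
    obtain ⟨x, hx, rfl⟩ := hw
    rw [hj, Finset.disjoint_left]
    intro v hv hv'
    have h1 := (mem_priv hv).1
    have h2 : v ∈ (c x).toFinset := by simpa [lset, side] using hv'
    have h3 := (mem_prs_set (hc1 x hx) h2).1
    omega

/-- the number of the block from which a line is made -/
def blk (x : List ℕ × List ℕ) : ℕ := x.1.headD 0 / 8

lemma blk_lines {i : ℕ} {p x : List ℕ × List ℕ} (hx : x ∈ lines i p) : blk x = i := by
  rw [mem_lines] at hx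
  rcases hx with rfl | ⟨b, c, hc, rfl⟩
  · simp only [blk, priv, List.headD_cons]
    omega
  · simp only [blk, priv, List.headD_cons, num]
    split <;> omega

lemma HasMatching.mono {I : Inst} {m m' : ℕ} (h : HasMatching I m) (hm : m' ≤ m) :
    HasMatching I m' := by
  obtain ⟨J, hJ, hind⟩ := h
  obtain ⟨J', hJ', hc⟩ := exists_subset_card_eq (hm.trans hJ.ge)
  exact ⟨J', hc, fun X hX hne => hind X (hX.trans (product_subset_product_left hJ')) hne⟩

/-- Every matching of the graph instance gives a matching of the hypergraph instance. -/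
lemma of_red {I : Inst} {m : ℕ} (h : HasMatching (red I) (I.2.length + m)) :
    HasMatching I m := by
  rw [hasMatching_iff (red_isGr I)] at h
  obtain ⟨L, hL, hcard, hind⟩ := h
  have hLm : ∀ x ∈ L, ∃ i : Fin I.2.length, x ∈ lines i I.2[i] := by
    intro x hx
    have := hL hx
    rwa [List.mem_toFinset, mem_red] at this
  have hgr : ∀ x ∈ L, ∀ b, (side x b).toFinset.card = 2 := fun x hx b =>
    red_isGr I x (List.mem_toFinset.mp (hL hx)) b
  -- members of `L` have different sides
  have hne : ∀ x ∈ L, ∀ y ∈ L, ∀ b b', (x, b) ≠ (y, b') → side x b ≠ side y b' := by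
    intro x hx y hy b b' hxy heq
    refine hind.ne (x := (x, b)) (y := (y, b')) (by simpa using hx) (by simpa using hy) hxy
      ?_ ?_
    · exact (hgr x hx b).le
    · unfold lset
      simp only
      rw [heq]
  -- the blocks which are used
  set P : Fin I.2.length → Prop := fun i => ∀ b, ∃ c ∈ prs (side I.2[i] b),
    (priv (num i b), c) ∈ L with hP
  classical
  set J : Finset (Fin I.2.length) := univ.filter P with hJ
  have hfib : ∀ i : Fin I.2.length,
      (L.filter fun x => blk x = i.1).card ≤ 1 + (if P i then 1 else 0) := by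
    intro i
    -- lines in the fibre
    have hfl : ∀ x ∈ L.filter (fun x => blk x = i.1), x ∈ L ∧ x ∈ lines i I.2[i] := by
      intro x hx
      rw [mem_filter] at hx
      obtain ⟨j, hj⟩ := hLm x hx.1
      have h1 := blk_lines hj
      have h2 : j = i := Fin.ext (by rw [← h1, hx.2])
      rw [h2] at hj
      exact ⟨hx.1, hj⟩
    -- at most one line with given first side
    have huniq : ∀ b, ((L.filter (fun x => blk x = i.1)).filter
        (fun x => x.1 = priv (num i b))).card ≤ 1 := by
      intro b
      rw [card_le_one]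
      intro x hx y hy
      rw [mem_filter] at hx hy
      by_contra hxy
      refine hne x (hfl x hx.1).1 y (hfl y hy.1).1 false false ?_ ?_
      · simpa using hxy
      · simp only [side, Bool.false_eq_true, if_false]
        rw [hx.2, hy.2]
    have hcover : L.filter (fun x => blk x = i.1) =
        ((L.filter (fun x => blk x = i.1)).filter (fun x => x.1 = priv (num i false))) ∪
        ((L.filter (fun x => blk x = i.1)).filter (fun x => x.1 = priv (num i true))) := by
      ext x
      simp only [mem_union, mem_filter]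
      constructor
      · intro hx
        have h1 := (hfl x (mem_filter.mpr hx)).2
        rw [mem_lines] at h1
        rcases h1 with h1 | ⟨b, c, hc, h1⟩
        · left
          refine ⟨hx, ?_⟩
          rw [h1]
          simp [num]
        · cases b
          · left
            refine ⟨hx, ?_⟩
            rw [h1]
          · right
            refine ⟨hx, ?_⟩
            rw [h1]
      · rintro (h | h) <;> exact h.1
    have hle2 : (L.filter (fun x => blk x = i.1)).card ≤ 2 := by
      rw [hcover]
      refine (card_union_le _ _).trans ?_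
      have h1 := huniq false
      have h2 := huniq true
      omega
    by_cases hPi : P i
    · rw [if_pos hPi]
      exact hle2
    · rw [if_neg hPi]
      by_contra hgt
      have h2 : 1 < (L.filter (fun x => blk x = i.1)).card := by omega
      -- both parts are nonempty
      apply hPi
      have hb : ∀ b, ∃ x ∈ L.filter (fun x => blk x = i.1), x.1 = priv (num i b) := by
        intro b
        by_contra hcon
        push Not at hcon
        have h3 : (L.filter (fun x => blk x = i.1)).filter (fun x => x.1 = priv (num i b)) = ∅ := by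
          rw [filter_eq_empty_iff]
          intro x hx
          exact hcon x hx
        have h4 := card_union_le
          ((L.filter (fun x => blk x = i.1)).filter (fun x => x.1 = priv (num i false)))
          ((L.filter (fun x => blk x = i.1)).filter (fun x => x.1 = priv (num i true)))
        rw [← hcover] at h4
        have h5 := huniq false
        have h6 := huniq true
        cases b
        · rw [h3, card_empty] at h4
          omega
        · rw [h3, card_empty] at h4
          omega
      obtain ⟨x, hx, hx1⟩ := hb false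
      obtain ⟨y, hy, hy1⟩ := hb true
      obtain ⟨hxL, hxl⟩ := hfl x hx
      obtain ⟨hyL, hyl⟩ := hfl y hy
      have hcx : ∃ c ∈ prs (side I.2[i] false), x = (priv (num i false), c) := by
        rw [mem_lines] at hxl
        rcases hxl with h | ⟨b, c, hc, h⟩
        · exfalso
          refine hne x hxL y hyL true false ?_ ?_
          · intro h'
            simp at h'
          · simp only [side, if_true, Bool.false_eq_true, if_false]
            rw [hy1, h]
            simp [num]
        · have h1 : priv (num i b) = priv (num i false) := by rw [← hx1, h]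
          have h2 := priv_inj h1
          cases b
          · exact ⟨c, hc, h⟩
          · simp [num] at h2
      have hcy : ∃ c ∈ prs (side I.2[i] true), y = (priv (num i true), c) := by
        rw [mem_lines] at hyl
        rcases hyl with h | ⟨b, c, hc, h⟩
        · exfalso
          have h1 : priv (2 * i.1) = priv (num i true) := by rw [← hy1, h]
          have h2 := priv_inj h1
          simp [num] at h2
        · have h1 : priv (num i b) = priv (num i true) := by rw [← hy1, h]
          have h2 := priv_inj h1
          cases b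
          · simp [num] at h2
          · exact ⟨c, hc, h⟩
      obtain ⟨c, hc, rfl⟩ := hcx
      obtain ⟨d, hd, rfl⟩ := hcy
      intro b
      cases b
      · exact ⟨c, hc, hxL⟩
      · exact ⟨d, hd, hyL⟩
  have hcount : L.card ≤ I.2.length + J.card := by
    have h1 : L.card = ∑ i ∈ range I.2.length, (L.filter fun x => blk x = i).card := by
      apply card_eq_sum_card_fiberwise
      intro x hx
      obtain ⟨j, hj⟩ := hLm x hx
      rw [blk_lines hj]
      simp
    rw [h1, ← Fin.sum_univ_eq_sum_range (fun i => (L.filter fun x => blk x = i).card)]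
    calc ∑ i : Fin I.2.length, (L.filter fun x => blk x = i.1).card
        ≤ ∑ i : Fin I.2.length, (1 + (if P i then 1 else 0)) := sum_le_sum fun i _ => hfib i
      _ = I.2.length + J.card := by
          rw [sum_add_distrib, hJ, card_filter, sum_const, card_univ, Fintype.card_fin,
            smul_eq_mul, mul_one]
  have hJm : m ≤ J.card := by omega
  refine HasMatching.mono (m := J.card) ?_ hJm
  refine ⟨J, rfl, ?_⟩
  change SH _ (hedge I)
  have hch : ∀ x ∈ J ×ˢ (Finset.univ : Finset Bool), ∃ c ∈ prs (side I.2[x.1] x.2),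
      (priv (num x.1 x.2), c) ∈ L := by
    intro x hx
    rw [mem_product, hJ, mem_filter] at hx
    exact hx.1.2 x.2
  choose! c hc1 hc2 using hch
  have hnum : ∀ x y : Ground I, num x.1 x.2 = num y.1 y.2 → x = y := by
    rintro ⟨i, b⟩ ⟨j, b'⟩ h
    unfold num at h
    simp only at h
    cases b <;> cases b' <;> simp only [Bool.false_eq_true, if_false, if_true] at h <;>
      first
        | (exfalso; omega)
        | (congr 1; apply Fin.ext; omega)
  have h1 : SH (J ×ˢ (Finset.univ : Finset Bool)) (fun x => (c x).toFinset) := by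
    rw [← SH_image (φ := fun x : Ground I => ((priv (num x.1 x.2), c x), true)) (h' := lset)]
    · apply hind.subset
      intro z hz
      rw [mem_image] at hz
      obtain ⟨x, hx, rfl⟩ := hz
      rw [mem_product]
      exact ⟨hc2 x hx, mem_univ _⟩
    · intro x hx y hy hxy
      simp only [Prod.mk.injEq, and_true] at hxy
      exact hnum x y (priv_inj hxy.1)
    · intro x _
      simp [lset, side]
  intro X hX hne'
  refine (h1 X hX hne').trans ?_
  rw [← card_image_of_injective (X.biUnion (hedge I)) (f := fun v => 2 * v)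
    (fun a b h => by simpa using h)]
  apply card_le_card
  intro v hv
  rw [mem_biUnion] at hv
  obtain ⟨x, hx, hv⟩ := hv
  have h2 := mem_prs_set (hc1 x (hX hx)) hv
  rw [mem_image]
  refine ⟨v / 2, ?_, by omega⟩
  rw [mem_biUnion]
  refine ⟨x, hx, ?_⟩
  rw [hedge_eq]
  unfold lset
  rw [List.mem_toFinset]
  exact h2.2

/-- **Correctness of the reduction.** -/
theorem red_iff (I : Inst) (m : ℕ) :
    HasMatching (red I) (I.2.length + m) ↔ HasMatching I m := ⟨of_red, red_of⟩

end Pool.Agent.H663R2.HM
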