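import Pool.Agent.H663R2.HyperLin
import Pool.Agent.H671R2.PolyAuto
import Pool.Agent.NPC.Dec

/-!
# The reduction is computable in polynomial time
-/

namespace Pool.Agent.NPC.HM663

open Pool.Agent.NPC Pool.Agent.H663R2.HM

variable {α : Type} [TEnc α]

theorem priv_poly {f : α → ℕ} (hf : Poly f) : Poly (fun a => priv (f a)) := by
  unfold priv
  fun_prop

theorem prs_poly {f : α → List ℕ} (hf : Poly f) : Poly (fun a => prs (f a)) := by
  unfold prs
  fun_prop

theorem lines_poly {f : α → ℕ} {g : α → List ℕ × List ℕ} (hf : Poly f) (hg : Poly g) :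
    Poly (fun a => lines (f a) (g a)) := by
  unfold lines
  have h1 := prs_poly (Poly.fst hg)
  have h2 := prs_poly (Poly.snd hg)
  have h3 : Poly (fun a => priv (2 * f a)) := priv_poly (by fun_prop)
  have h4 : Poly (fun a => priv (2 * f a + 1)) := priv_poly (by fun_prop)
  refine Poly.cons (Poly.pair h3 h4) (Poly.append ?_ ?_)
  · exact Poly.map (F := fun a c => (priv (2 * f a), c)) h1
      (Poly.pair (h3.comp (Poly.fst Poly.id)) (Poly.snd Poly.id))
  · exact Poly.map (F := fun a c => (priv (2 * f a + 1), c)) h2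
      (Poly.pair (h4.comp (Poly.fst Poly.id)) (Poly.snd Poly.id))

theorem red_poly : Poly red := by
  unfold red
  have h1 : Poly (fun I : Inst => List.range (2 * I.2.length)) :=
    UPoly.range (UPoly.mul (UPoly.const 2) (UPoly.length (Poly.snd Poly.id)))
  refine Poly.pair (Poly.append (by fun_prop) ?_) ?_
  · exact Poly.flatMap (F := fun _ j => priv j) h1 (priv_poly (Poly.snd Poly.id))
  · exact Poly.flatMap (F := fun _ (x : (List ℕ × List ℕ) × ℕ) => lines x.2 x.1) (by fun_prop)
      (lines_poly (by fun_prop) (by fun_prop))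

theorem ivec_poly {f g : α → List ℕ} (hf : Poly f) (hg : Poly g) :
    Poly (fun a => ivec (f a) (g a)) := by
  unfold ivec
  have h : ∀ w p q : ℕ, ((if w = p then (1 : ℤ) else 0) - (if w = q then 1 else 0))
      = if w = p then (if w = q then (0 : ℤ) else 1) else (if w = q then (-1 : ℤ) else 0) := by
    intro w p q
    split_ifs <;> norm_num
  simp only [h]
  fun_prop

theorem toLin_poly : Poly toLin := by
  unfold toLin
  refine Poly.map (F := fun (G : Inst) (p : List ℕ × List ℕ) => (ivec G.1 p.1, ivec G.1 p.2)) (by fun_prop) ?_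
  exact Poly.pair (ivec_poly (by fun_prop) (by fun_prop)) (ivec_poly (by fun_prop) (by fun_prop))

theorem lred_poly : Poly (fun I => toLin (red I)) := toLin_poly.comp red_poly

/-- Decoding of instances from bit strings. -/
def dcd (x : List Bool) : Inst := (unbits Inst x).getD ([], [])

theorem dcd_bits (I : Inst) : dcd (bits I) = I := by
  unfold dcd
  rw [unbits_bits]
  rfl

theorem dcd_poly : Poly dcd := Poly.optGetD poly_unbits (Poly.const _)

theorem dcd_pc : PC (fun x : List Bool => x) (bits : Inst → List Bool) dcd :=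
  PC.comp (g := dcd) (f := fun x => x) dcd_poly PC.rawIn

/-- Decoding of numbers from bit strings. -/
def dcn (x : List Bool) : ℕ := (unbits ℕ x).getD 0

theorem dcn_bits (n : ℕ) : dcn (bits n) = n := by
  unfold dcn
  rw [unbits_bits]
  rfl

theorem dcn_poly : Poly dcn := Poly.optGetD poly_unbits (Poly.const _)

/-- Polynomial-time functions on instances as functions of bit strings. -/
theorem exists_polyTime {β : Type} [TEnc β] {f : Inst → β} (hf : Poly f) :
    ∃ F : List Bool → List Bool, PolyTime F ∧ ∀ I, F (bits I) = bits (f I) := by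
  refine ⟨fun x => bits (f (dcd x)), PC.toPolyTime ?_, fun I => by simp only [dcd_bits]⟩
  obtain ⟨c, p, h⟩ := PC.comp (g := f) (f := dcd) hf dcd_pc
  exact ⟨c, p, h⟩

/-- Transfer of algorithms along the reduction. -/
theorem transfer {β : Type} [TEnc β] {f : Inst → β} (hf : Poly f) {A : List Bool → List Bool}
    (hA : PolyTime A) {Pr : Inst → Prop} {v : Inst → ℕ}
    (hv : ∀ I, Pr I → A (bits (f I)) = bits (I.2.length + v I)) :
    ∃ B : List Bool → List Bool, PolyTime B ∧ ∀ I, Pr I → B (bits I) = bits (v I) := by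
  have hA' := Pool.Agent.H642R2.TMSim.polyTime_toPC hA
  have h1 : PC (fun x : List Bool => x) (fun x : List Bool => x) (fun x => bits (f (dcd x))) := by
    obtain ⟨c, p, h⟩ := PC.comp (g := f) (f := dcd) hf dcd_pc
    exact ⟨c, p, h⟩
  have h2 : PC (fun x : List Bool => x) (fun x : List Bool => x)
      (fun x => A (bits (f (dcd x)))) := PC.comp (g := A) hA' h1
  have h3 : PC (fun x : List Bool => x) (bits : List Bool → List Bool)
      (fun x => A (bits (f (dcd x)))) := PC.comp (g := fun x => x) PC.rawIn h2
  have h4 : PC (fun x : List Bool => x) (bits : ℕ → List Bool)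
      (fun x => dcn (A (bits (f (dcd x))))) := PC.comp (g := dcn) dcn_poly h3
  have h5 : PC (fun x : List Bool => x) (bits : ℕ × Inst → List Bool)
      (fun x => (dcn (A (bits (f (dcd x)))), dcd x)) :=
    PC.node (f := fun x => toT (dcn (A (bits (f (dcd x)))))) (g := fun x => toT (dcd x)) h4 dcd_pc
  have hsub : Poly (fun p : ℕ × Inst => p.1 - p.2.2.length) := by fun_prop
  have h6 : PC (fun x : List Bool => x) (bits : ℕ → List Bool)
      (fun x => dcn (A (bits (f (dcd x)))) - (dcd x).2.length) :=
    PC.comp (g := fun p : ℕ × Inst => p.1 - p.2.2.length) hsub h5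
  refine ⟨fun x => bits (dcn (A (bits (f (dcd x)))) - (dcd x).2.length), PC.toPolyTime ?_,
    fun I hI => ?_⟩
  · obtain ⟨c, p, h⟩ := h6
    exact ⟨c, p, h⟩
  · simp only [dcd_bits]
    rw [hv I hI, dcn_bits, Nat.add_sub_cancel_left]

end Pool.Agent.NPC.HM663
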