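import Mathlib

/-!
# Complements of line graphs of double subdivisions: colourings and odd holes
-/

namespace Pool.Agent.H663R2.OddHole

/-- The simple graph given by a list of vertices and a list of edges. -/
def toGraph (I : List ℕ × List (ℕ × ℕ)) : SimpleGraph {v : ℕ // v ∈ I.1} :=
  SimpleGraph.fromRel fun a b => (a.1, b.1) ∈ I.2

/-- No induced cycle of odd length at least 5. -/
def OddHoleFree {V : Type} (G : SimpleGraph V) : Prop :=
  ∀ n : ℕ, 2 ≤ n → IsEmpty (SimpleGraph.cycleGraph (2 * n + 1) ↪g G)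

/-- `E` (a list of edges over `W`) has a vertex cover with at most `k` elements. -/
def VC {W : Type} (E : List (W × W)) (k : ℕ) : Prop :=
  ∃ C : Finset W, C.card ≤ k ∧ ∀ e ∈ E, e.1 ∈ C ∨ e.2 ∈ C

section Graph

variable {W : Type} [DecidableEq W]

/-- The end of the subdivided edge corresponding to the number `a`. -/
def endp (E : List (W × W)) (a : ℕ) : Option W :=
  if a % 3 = 0 then E[a / 3]?.map Prod.fst
  else if a % 3 = 2 then E[a / 3]?.map Prod.snd else none

omit [DecidableEq W] in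
lemma endp_some {E : List (W × W)} {a : ℕ} {w : W} (h : endp E a = some w) : a % 3 ≠ 1 := by
  intro h'
  unfold endp at h
  rw [h'] at h
  simp at h

/-- adjacency in the line graph of the double subdivision -/
def ladj (E : List (W × W)) (a b : ℕ) : Prop :=
  (a / 3 = b / 3 ∧ (a % 3 = 1 ∨ b % 3 = 1)) ∨ (a % 3 ≠ 1 ∧ b % 3 ≠ 1 ∧ endp E a = endp E b)

instance (E : List (W × W)) (a b : ℕ) : Decidable (ladj E a b) := by
  unfold ladj; infer_instance

/-- vertices of the graph -/
def gV (E : List (W × W)) : List ℕ := List.range (3 * E.length)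

/-- edges of the graph -/
def gE (E : List (W × W)) : List (ℕ × ℕ) :=
  ((gV E).flatMap fun a => (gV E).map fun b => (a, b)).filter fun p =>
    decide (p.1 ≠ p.2 ∧ ¬ ladj E p.1 p.2)

lemma mem_gE {E : List (W × W)} {a b : ℕ} :
    (a, b) ∈ gE E ↔ a ∈ gV E ∧ b ∈ gV E ∧ a ≠ b ∧ ¬ ladj E a b := by
  unfold gE
  simp only [List.mem_filter, List.mem_flatMap, List.mem_map, Prod.mk.injEq, decide_eq_true_eq]
  constructor
  · rintro ⟨⟨x, hx, y, hy, rfl, rfl⟩, h1, h2⟩
    exact ⟨hx, hy, h1, h2⟩
  · rintro ⟨h1, h2, h3, h4⟩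
    exact ⟨⟨a, h1, b, h2, rfl, rfl⟩, h3, h4⟩

omit [DecidableEq W] in
lemma ladj_symm {E : List (W × W)} {a b : ℕ} (h : ladj E a b) : ladj E b a := by
  rcases h with ⟨h1, h2⟩ | ⟨h1, h2, h3⟩
  · exact Or.inl ⟨h1.symm, h2.symm⟩
  · exact Or.inr ⟨h2, h1, h3.symm⟩

/-- The graph of the reduction. -/
def gG (E : List (W × W)) : SimpleGraph {v : ℕ // v ∈ gV E} := toGraph (gV E, gE E)

lemma adj_iff {E : List (W × W)} (a b : {v : ℕ // v ∈ gV E}) :
    (gG E).Adj a b ↔ a ≠ b ∧ ¬ ladj E a.1 b.1 := by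
  unfold gG toGraph
  rw [SimpleGraph.fromRel_adj]
  simp only [mem_gE]
  constructor
  · rintro ⟨h1, h2 | h2⟩
    · exact ⟨h1, h2.2.2.2⟩
    · exact ⟨h1, fun h => h2.2.2.2 (ladj_symm h)⟩
  · rintro ⟨h1, h2⟩
    exact ⟨h1, Or.inl ⟨a.2, b.2, fun h => h1 (Subtype.ext h), h2⟩⟩

lemma not_adj {E : List (W × W)} {a b : {v : ℕ // v ∈ gV E}} (hne : a ≠ b)
    (h : ¬ (gG E).Adj a b) : ladj E a.1 b.1 := by
  by_contra hc
  exact h ((adj_iff a b).mpr ⟨hne, hc⟩)

omit [DecidableEq W] in
lemma lt_of_mem {E : List (W × W)} {a : ℕ} (h : a ∈ gV E) : a / 3 < E.length := by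
  unfold gV at h
  rw [List.mem_range] at h
  omega

omit [DecidableEq W] in
/-- the two ends of an edge are different -/
lemma endp_ne {E : List (W × W)} (hE : ∀ e ∈ E, e.1 ≠ e.2) {a b : ℕ} (ha : a ∈ gV E)
    (hab : a / 3 = b / 3) (ha1 : a % 3 ≠ 1) (hb1 : b % 3 ≠ 1) (hne : a ≠ b) :
    endp E a ≠ endp E b := by
  have hlt := lt_of_mem ha
  have hget : E[a / 3]? = some E[a / 3] := List.getElem?_eq_getElem hlt
  have hmem : E[a / 3] ∈ E := List.getElem_mem hlt
  have h := hE _ hmem
  unfold endp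
  rw [← hab, hget]
  have h3 : a % 3 < 3 := Nat.mod_lt _ (by norm_num)
  have h4 : b % 3 < 3 := Nat.mod_lt _ (by norm_num)
  have h5 : (a % 3 = 0 ∧ b % 3 = 2) ∨ (a % 3 = 2 ∧ b % 3 = 0) := by omega
  rcases h5 with ⟨h5, h6⟩ | ⟨h5, h6⟩
  · simp only [h5, h6, Option.map_some]
    simpa using h
  · simp only [h5, h6, Option.map_some]
    simpa using fun h' => h h'.symm

/-- distinct vertices on the same subdivided edge, neither of them the middle, are not adjacent in
the line graph -/
lemma not_ladj {E : List (W × W)} (hE : ∀ e ∈ E, e.1 ≠ e.2) {a b : ℕ} (ha : a ∈ gV E)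
    (hab : a / 3 = b / 3) (ha1 : a % 3 ≠ 1) (hb1 : b % 3 ≠ 1) (hne : a ≠ b) : ¬ ladj E a b := by
  rintro (⟨_, h | h⟩ | ⟨_, _, h⟩)
  · exact ha1 h
  · exact hb1 h
  · exact endp_ne hE ha hab ha1 hb1 hne h

/-- The line graph of the double subdivision has no diamond. -/
lemma no_diamond {E : List (W × W)} (hE : ∀ e ∈ E, e.1 ≠ e.2) {x y p q : ℕ}
    (hx : x ∈ gV E) (hy : y ∈ gV E) (hp : p ∈ gV E) (hq : q ∈ gV E)
    (hxy : x ≠ y) (hxp : x ≠ p) (hxq : x ≠ q) (hyp : y ≠ p) (hyq : y ≠ q) (hpq : p ≠ q)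
    (h1 : ladj E x p) (h2 : ladj E x q) (h3 : ladj E y p) (h4 : ladj E y q) (h5 : ladj E p q) :
    ladj E x y := by
  have key : ∀ {u v w z : ℕ}, u ∈ gV E → v ∈ gV E → w ∈ gV E → z ∈ gV E → u ≠ v → u ≠ w →
      u ≠ z → v ≠ w → v ≠ z → w ≠ z → ladj E u v → ladj E u w → ladj E u z → u % 3 ≠ 1 := by
    intro u v w z _ _ _ _ h1 h2 h3 h4 h5 h6 g1 g2 g3 hu
    have e1 : u / 3 = v / 3 := by
      rcases g1 with ⟨h, _⟩ | ⟨h, _⟩
      · exact h
      · exact absurd hu h
    have e2 : u / 3 = w / 3 := by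
      rcases g2 with ⟨h, _⟩ | ⟨h, _⟩
      · exact h
      · exact absurd hu h
    have e3 : u / 3 = z / 3 := by
      rcases g3 with ⟨h, _⟩ | ⟨h, _⟩
      · exact h
      · exact absurd hu h
    omega
  have hp1 : p % 3 ≠ 1 := key hp hx hy hq (Ne.symm hxp) (Ne.symm hyp) hpq hxy hxq hyq
    (ladj_symm h1) (ladj_symm h3) h5
  have hq1 : q % 3 ≠ 1 := key hq hx hy hp (Ne.symm hxq) (Ne.symm hyq) (Ne.symm hpq) hxy hxp hyp
    (ladj_symm h2) (ladj_symm h4) (ladj_symm h5)
  have he : endp E p = endp E q := by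
    rcases h5 with ⟨_, h | h⟩ | ⟨_, _, h⟩
    · exact absurd h hp1
    · exact absurd h hq1
    · exact h
  -- `x` is not a middle
  have mid : ∀ {u : ℕ}, u ∈ gV E → u ≠ p → u ≠ q → ladj E u p → ladj E u q → u % 3 ≠ 1 := by
    intro u _ hup huq g1 g2 hu
    have e1 : u / 3 = p / 3 := by
      rcases g1 with ⟨h, _⟩ | ⟨h, _⟩
      · exact h
      · exact absurd hu h
    have e2 : u / 3 = q / 3 := by
      rcases g2 with ⟨h, _⟩ | ⟨h, _⟩
      · exact h
      · exact absurd hu h
    exact endp_ne hE hp (e1.symm.trans e2) hp1 hq1 hpq he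
  have hx1 := mid hx hxp hxq h1 h2
  have hy1 := mid hy hyp hyq h3 h4
  have g1 : endp E x = endp E p := by
    rcases h1 with ⟨_, h | h⟩ | ⟨_, _, h⟩
    · exact absurd h hx1
    · exact absurd h hp1
    · exact h
  have g2 : endp E y = endp E p := by
    rcases h3 with ⟨_, h | h⟩ | ⟨_, _, h⟩
    · exact absurd h hy1
    · exact absurd h hp1
    · exact h
  exact Or.inr ⟨hx1, hy1, g1.trans g2.symm⟩

/-- The line graph of the double subdivision has no induced pentagon. -/
lemma no_pentagon {E : List (W × W)} (hE : ∀ e ∈ E, e.1 ≠ e.2) {x y z u v : ℕ}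
    (hx : x ∈ gV E) (hy : y ∈ gV E) (hz : z ∈ gV E) (hu : u ∈ gV E) (hv : v ∈ gV E)
    (hd : [x, y, z, u, v].Nodup)
    (h1 : ladj E x y) (h2 : ladj E y z) (h3 : ladj E z u) (h4 : ladj E u v) (h5 : ladj E v x)
    (n1 : ¬ ladj E x z) : False := by
  -- no vertex is a middle
  have key : ∀ {a b c d e : ℕ}, a ∈ gV E → b ∈ gV E → c ∈ gV E → d ∈ gV E → e ∈ gV E →
      [a, b, c, d, e].Nodup →
      ladj E a b → ladj E b c → ladj E c d → ladj E d e → ladj E e a →
      a % 3 ≠ 1 := by
    intro a b c d e ha hb hc hd' he hnd g1 g2 g3 g4 g5 hmid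
    simp only [List.nodup_cons, List.mem_cons, List.not_mem_nil, or_false, not_or,
      List.nodup_nil, and_true, not_false_eq_true] at hnd
    obtain ⟨⟨ab, ac, ad, ae⟩, ⟨bc, bd, be⟩, ⟨cd, ce⟩, de⟩ := hnd
    have e1 : a / 3 = b / 3 := by
      rcases g1 with ⟨h, _⟩ | ⟨h, _⟩
      · exact h
      · exact absurd hmid h
    have e2 : a / 3 = e / 3 := by
      rcases g5 with ⟨h, _⟩ | ⟨_, h, _⟩
      · exact h.symm
      · exact absurd hmid h
    have hb1 : b % 3 ≠ 1 := by omega
    have he1 : e % 3 ≠ 1 := by omega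
    have hc' : c / 3 ≠ a / 3 := by
      intro h; omega
    have hd'' : d / 3 ≠ a / 3 := by
      intro h; omega
    have f1 : c % 3 ≠ 1 ∧ endp E b = endp E c := by
      rcases g2 with ⟨h, _⟩ | ⟨_, h, h'⟩
      · omega
      · exact ⟨h, h'⟩
    have f2 : d % 3 ≠ 1 ∧ endp E d = endp E e := by
      rcases g4 with ⟨h, _⟩ | ⟨h, _, h'⟩
      · omega
      · exact ⟨h, h'⟩
    have f3 : endp E c = endp E d := by
      rcases g3 with ⟨_, h | h⟩ | ⟨_, _, h⟩
      · exact absurd h f1.1
      · exact absurd h f2.1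
      · exact h
    exact endp_ne hE hb (e1.symm.trans e2) hb1 he1 be
      (f1.2.trans (f3.trans f2.2))
  have hx1 := key hx hy hz hu hv hd h1 h2 h3 h4 h5
  have hz1 : z % 3 ≠ 1 := by
    refine key hz hu hv hx hy ?_ h3 h4 h5 h1 h2
    have := (List.rotate_perm [x, y, z, u, v] 2).nodup_iff.mpr hd
    simpa [List.rotate] using this
  have hy1 : y % 3 ≠ 1 := by
    refine key hy hz hu hv hx ?_ h2 h3 h4 h5 h1
    have := (List.rotate_perm [x, y, z, u, v] 1).nodup_iff.mpr hd
    simpa [List.rotate] using this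
  apply n1
  have f1 : endp E x = endp E y := by
    rcases h1 with ⟨_, h | h⟩ | ⟨_, _, h⟩
    · exact absurd h hx1
    · exact absurd h hy1
    · exact h
  have f2 : endp E y = endp E z := by
    rcases h2 with ⟨_, h | h⟩ | ⟨_, _, h⟩
    · exact absurd h hy1
    · exact absurd h hz1
    · exact h
  exact Or.inr ⟨hx1, hz1, f1.trans f2⟩

/-- The graph of the reduction has no odd hole. -/
theorem oddHoleFree {E : List (W × W)} (hE : ∀ e ∈ E, e.1 ≠ e.2) : OddHoleFree (gG E) := by
  intro n hn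
  constructor
  intro f
  have inj : ∀ i j : Fin (2 * n + 1), i ≠ j → f i ≠ f j := fun i j h h' => h (f.injective h')
  have inj' : ∀ i j : Fin (2 * n + 1), i ≠ j → (f i).1 ≠ (f j).1 :=
    fun i j h h' => inj i j h (Subtype.ext h')
  -- nonadjacent vertices of the cycle are adjacent in the line graph
  have far : ∀ i j : Fin (2 * n + 1), i ≠ j → ¬ (SimpleGraph.cycleGraph (2 * n + 1)).Adj i j →
      ladj E (f i).1 (f j).1 := by
    intro i j hij h
    apply not_adj (inj i j hij)
    rw [f.map_adj_iff]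
    exact h
  have near : ∀ i j : Fin (2 * n + 1), (SimpleGraph.cycleGraph (2 * n + 1)).Adj i j →
      ¬ ladj E (f i).1 (f j).1 := by
    intro i j h
    rw [← f.map_adj_iff, adj_iff] at h
    exact h.2
  obtain rfl | hn3 : n = 2 ∨ 3 ≤ n := by omega
  · refine no_pentagon hE (f 0).2 (f 2).2 (f 4).2 (f 1).2 (f 3).2 ?_
      (far 0 2 (by decide) (by decide)) (far 2 4 (by decide) (by decide))
      (far 4 1 (by decide) (by decide)) (far 1 3 (by decide) (by decide))
      (far 3 0 (by decide) (by decide))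
      (near 0 4 (by decide))
    have h01 := inj' 0 1 (by decide)
    have h02 := inj' 0 2 (by decide)
    have h03 := inj' 0 3 (by decide)
    have h04 := inj' 0 4 (by decide)
    have h12 := inj' 1 2 (by decide)
    have h13 := inj' 1 3 (by decide)
    have h14 := inj' 1 4 (by decide)
    have h23 := inj' 2 3 (by decide)
    have h24 := inj' 2 4 (by decide)
    have h34 := inj' 3 4 (by decide)
    simp only [List.nodup_cons, List.mem_cons, List.not_mem_nil, or_false, not_or,
      List.nodup_nil, and_true, not_false_eq_true]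
    exact ⟨⟨h02, h04, h01, h03⟩, ⟨h24, h12.symm, h23⟩, ⟨h14.symm, h34.symm⟩, h13⟩
  · have key : ∀ a b : ℕ, (ha : a < 2 * n + 1) → (hb : b < 2 * n + 1) →
        ((SimpleGraph.cycleGraph (2 * n + 1)).Adj ⟨a, ha⟩ ⟨b, hb⟩ ↔
          (a = b + 1 ∨ b = a + 1 ∨ (a = 0 ∧ b = 2 * n) ∨ (b = 0 ∧ a = 2 * n))) := by
      intro a b ha hb
      rw [SimpleGraph.cycleGraph_adj']
      simp only [Fin.sub_def]
      constructor
      · rintro (h | h)
        · by_cases hab : b ≤ a
          · have : 2 * n + 1 - b + a = (a - b) + (2 * n + 1) := by omega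
            rw [this, Nat.add_mod_right, Nat.mod_eq_of_lt (by omega)] at h
            omega
          · rw [Nat.mod_eq_of_lt (by omega)] at h
            omega
        · by_cases hab : a ≤ b
          · have : 2 * n + 1 - a + b = (b - a) + (2 * n + 1) := by omega
            rw [this, Nat.add_mod_right, Nat.mod_eq_of_lt (by omega)] at h
            omega
          · rw [Nat.mod_eq_of_lt (by omega)] at h
            omega
      · rintro (h | h | ⟨h, h'⟩ | ⟨h, h'⟩)
        · left
          have : 2 * n + 1 - b + a = 1 + (2 * n + 1) := by omega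
          rw [this, Nat.add_mod_right, Nat.mod_eq_of_lt (by omega)]
        · right
          have : 2 * n + 1 - a + b = 1 + (2 * n + 1) := by omega
          rw [this, Nat.add_mod_right, Nat.mod_eq_of_lt (by omega)]
        · left
          rw [Nat.mod_eq_of_lt (by omega)]; omega
        · right
          rw [Nat.mod_eq_of_lt (by omega)]; omega
    have l0 : 0 < 2 * n + 1 := by omega
    have l1 : 1 < 2 * n + 1 := by omega
    have l3 : 3 < 2 * n + 1 := by omega
    have l5 : 5 < 2 * n + 1 := by omega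
    have ne : ∀ a b : ℕ, (ha : a < 2 * n + 1) → (hb : b < 2 * n + 1) → a ≠ b →
        (⟨a, ha⟩ : Fin (2 * n + 1)) ≠ ⟨b, hb⟩ := by
      intro a b ha hb h h'
      exact h (congrArg Fin.val h')
    have F : ∀ a b : ℕ, (ha : a < 2 * n + 1) → (hb : b < 2 * n + 1) → a ≠ b →
        ¬ (a = b + 1 ∨ b = a + 1 ∨ (a = 0 ∧ b = 2 * n) ∨ (b = 0 ∧ a = 2 * n)) →
        ladj E (f ⟨a, ha⟩).1 (f ⟨b, hb⟩).1 := by
      intro a b ha hb h h'
      exact far _ _ (ne a b ha hb h) (fun hc => h' ((key a b ha hb).mp hc))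
    have hfin := no_diamond hE (f ⟨0, l0⟩).2 (f ⟨1, l1⟩).2 (f ⟨3, l3⟩).2 (f ⟨5, l5⟩).2
      (inj' _ _ (ne 0 1 l0 l1 (by omega))) (inj' _ _ (ne 0 3 l0 l3 (by omega)))
      (inj' _ _ (ne 0 5 l0 l5 (by omega))) (inj' _ _ (ne 1 3 l1 l3 (by omega)))
      (inj' _ _ (ne 1 5 l1 l5 (by omega))) (inj' _ _ (ne 3 5 l3 l5 (by omega)))
      (F 0 3 l0 l3 (by omega) (by omega)) (F 0 5 l0 l5 (by omega) (by omega))
      (F 1 3 l1 l3 (by omega) (by omega)) (F 1 5 l1 l5 (by omega) (by omega))
      (F 3 5 l3 l5 (by omega) (by omega))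
    exact near _ _ ((key 0 1 l0 l1).mpr (by omega)) hfin

omit [DecidableEq W] in
lemma mem_gV {E : List (W × W)} {a : ℕ} (h : a / 3 < E.length) : a ∈ gV E := by
  unfold gV
  rw [List.mem_range]
  omega

/-- the vertex with number `a` -/
def vtx (E : List (W × W)) (a : ℕ) (h : a / 3 < E.length) : {v : ℕ // v ∈ gV E} :=
  ⟨a, mem_gV h⟩

/-- From a vertex cover with `k` elements, a colouring with `k + |E|` colours. -/
theorem colorable_of_vc {E : List (W × W)} {k : ℕ} (h : VC E k) :
    (gG E).Colorable (k + E.length) := by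
  classical
  obtain ⟨C, hC, hcov⟩ := h
  -- the colour of a vertex
  let inC : ℕ → Prop := fun a => ∃ w ∈ C, endp E a = some w
  have hcard : Fintype.card (C ⊕ Fin E.length) ≤ k + E.length := by
    rw [Fintype.card_sum, Fintype.card_coe, Fintype.card_fin]
    omega
  let c : {v : ℕ // v ∈ gV E} → C ⊕ Fin E.length := fun a =>
    if h : inC a.1 then Sum.inl ⟨h.choose, h.choose_spec.1⟩
    else Sum.inr ⟨a.1 / 3, lt_of_mem a.2⟩
  have hvalid : ∀ {a b : {v : ℕ // v ∈ gV E}}, (gG E).Adj a b → c a ≠ c b := by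
    intro a b hab hc
    rw [adj_iff] at hab
    obtain ⟨hne, hl⟩ := hab
    apply hl
    by_cases ha : inC a.1 <;> by_cases hb : inC b.1
    · simp only [c, dif_pos ha, dif_pos hb, Sum.inl.injEq, Subtype.mk.injEq] at hc
      have h1 := ha.choose_spec.2
      have h2 := hb.choose_spec.2
      refine Or.inr ⟨endp_some h1, endp_some h2, ?_⟩
      rw [h1, h2, hc]
    · simp only [c, dif_pos ha, dif_neg hb, reduceCtorEq] at hc
    · simp only [c, dif_neg ha, dif_pos hb, reduceCtorEq] at hc
    · simp only [c, dif_neg ha, dif_neg hb, Sum.inr.injEq, Fin.mk.injEq] at hc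
      by_cases hm : a.1 % 3 = 1 ∨ b.1 % 3 = 1
      · exact Or.inl ⟨hc, hm⟩
      · exfalso
        push Not at hm
        have hlt := lt_of_mem a.2
        have hget : E[a.1 / 3]? = some E[a.1 / 3] := List.getElem?_eq_getElem hlt
        have hmem : E[a.1 / 3] ∈ E := List.getElem_mem hlt
        have hne' : a.1 ≠ b.1 := fun h' => hne (Subtype.ext h')
        have h3 : a.1 % 3 < 3 := Nat.mod_lt _ (by norm_num)
        have h4 : b.1 % 3 < 3 := Nat.mod_lt _ (by norm_num)
        have h5 : (a.1 % 3 = 0 ∧ b.1 % 3 = 2) ∨ (a.1 % 3 = 2 ∧ b.1 % 3 = 0) := by omega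
        rcases h5 with ⟨h5, h6⟩ | ⟨h5, h6⟩ <;> rcases hcov _ hmem with h7 | h7
        · exact ha ⟨_, h7, by unfold endp; rw [if_pos h5, hget]; rfl⟩
        · exact hb ⟨_, h7, by
            unfold endp; rw [if_neg (by omega), if_pos h6, ← hc, hget]; rfl⟩
        · exact hb ⟨_, h7, by unfold endp; rw [if_pos h6, ← hc, hget]; rfl⟩
        · exact ha ⟨_, h7, by
            unfold endp; rw [if_neg (by omega), if_pos h5, hget]; rfl⟩
  exact ((SimpleGraph.Coloring.mk c hvalid).colorable).mono hcard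

/-- From a colouring with `k + |E|` colours, a vertex cover with `k` elements. -/
theorem vc_of_colorable {E : List (W × W)} (hE : ∀ e ∈ E, e.1 ≠ e.2) {k : ℕ}
    (h : (gG E).Colorable (k + E.length)) : VC E k := by
  classical
  obtain ⟨c⟩ := h
  have hmidlt : ∀ i : Fin E.length, (3 * i.1 + 1) / 3 < E.length := by
    intro i; have := i.2; omega
  let mid : Fin E.length → Fin (k + E.length) := fun i => c (vtx E (3 * i.1 + 1) (hmidlt i))
  have hprop : ∀ a b : {v : ℕ // v ∈ gV E}, c a = c b → a = b ∨ ladj E a.1 b.1 := by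
    intro a b hab
    by_contra hcon
    push Not at hcon
    exact c.valid ((adj_iff a b).mpr hcon) hab
  have hmidinj : Function.Injective mid := by
    intro i j hij
    rcases hprop _ _ hij with h' | h'
    · have := congrArg Subtype.val h'
      simp only [vtx] at this
      exact Fin.ext (by omega)
    · rcases h' with ⟨h1, _⟩ | ⟨h1, _, _⟩
      · simp only [vtx] at h1
        exact Fin.ext (by omega)
      · simp only [vtx] at h1
        omega
  set Mid : Finset (Fin (k + E.length)) := Finset.univ.image mid with hMid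
  have hMidc : Mid.card = E.length := by
    rw [hMid, Finset.card_image_of_injective _ hmidinj, Finset.card_univ, Fintype.card_fin]
  have hNc : Midᶜ.card = k := by
    rw [Finset.card_compl, hMidc, Fintype.card_fin]; omega
  -- the cover
  let g : Fin (k + E.length) → Finset W := fun γ =>
    if h : ∃ a : {v : ℕ // v ∈ gV E}, c a = γ ∧ ∃ w, endp E a.1 = some w
    then {h.choose_spec.2.choose} else ∅
  have hg1 : ∀ γ, (g γ).card ≤ 1 := by
    intro γ
    simp only [g]
    split_ifs <;> simp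
  have hmemg : ∀ a : {v : ℕ // v ∈ gV E}, ∀ w, endp E a.1 = some w → c a ∉ Mid → w ∈ g (c a) := by
    intro a w haw hcM
    have hex : ∃ b : {v : ℕ // v ∈ gV E}, c b = c a ∧ ∃ w, endp E b.1 = some w :=
      ⟨a, rfl, w, haw⟩
    have hga : g (c a) = {hex.choose_spec.2.choose} := dif_pos hex
    rw [hga, Finset.mem_singleton]
    have h1 := hex.choose_spec.1
    have h2 := hex.choose_spec.2.choose_spec
    rcases hprop _ _ h1 with h' | h'
    · have h3 : endp E hex.choose.1 = endp E a.1 :=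
        congrArg (fun z : {v : ℕ // v ∈ gV E} => endp E z.1) h'
      rw [h2, haw] at h3
      exact (Option.some.inj h3).symm
    · have hb1 : hex.choose.1 % 3 ≠ 1 := endp_some h2
      have ha1 : a.1 % 3 ≠ 1 := endp_some haw
      rcases h' with ⟨_, h' | h'⟩ | ⟨_, _, h'⟩
      · exact absurd h' hb1
      · exact absurd h' ha1
      · rw [h2, haw] at h'
        exact (Option.some.inj h').symm
  refine ⟨Midᶜ.biUnion g, ?_, ?_⟩
  · calc (Midᶜ.biUnion g).card ≤ Midᶜ.card * 1 :=
          Finset.card_biUnion_le_card_mul _ _ _ (fun γ _ => hg1 γ)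
      _ = k := by rw [mul_one, hNc]
  · intro e he
    obtain ⟨i, hi, rfl⟩ := List.getElem_of_mem he
    have hget : E[i]? = some E[i] := List.getElem?_eq_getElem hi
    have d1 : (3 * i) / 3 = i := by omega
    have d2 : (3 * i + 2) / 3 = i := by omega
    have m1 : (3 * i) % 3 = 0 := by omega
    have m2 : (3 * i + 2) % 3 = 2 := by omega
    set a := vtx E (3 * i) (by omega) with ha
    set b := vtx E (3 * i + 2) (by omega) with hb
    have hea : endp E a.1 = some (E[i]).1 := by
      simp only [ha, vtx, endp, m1, d1, hget, Option.map_some, if_true]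
    have heb : endp E b.1 = some (E[i]).2 := by
      simp only [hb, vtx, endp, m2, d2, hget, Option.map_some]
      simp
    -- an end whose colour is the colour of a middle has the colour of its own middle
    have hown : ∀ x : {v : ℕ // v ∈ gV E}, x.1 / 3 = i → x.1 % 3 ≠ 1 → c x ∈ Mid →
        c x = mid ⟨i, hi⟩ := by
      intro x hx1 hx2 hxM
      rw [hMid, Finset.mem_image] at hxM
      obtain ⟨j, _, hj⟩ := hxM
      have hj' : c (vtx E (3 * j.1 + 1) (hmidlt j)) = c x := hj
      rcases hprop _ _ hj' with h' | h'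
      · exfalso
        have := congrArg Subtype.val h'
        simp only [vtx] at this
        omega
      · have : j = ⟨i, hi⟩ := by
          rcases h' with ⟨h', _⟩ | ⟨h', _, _⟩
          · simp only [vtx] at h'
            exact Fin.ext (by simp only; omega)
          · exfalso
            simp only [vtx] at h'
            omega
        rw [← hj, this]
    by_cases hca : c a ∈ Mid
    · right
      have hcb : c b ∉ Mid := by
        intro hcb
        have h1 := hown a d1 (by simp only [ha, vtx]; omega) hca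
        have h2 := hown b d2 (by simp only [hb, vtx]; omega) hcb
        rcases hprop a b (h1.trans h2.symm) with h' | h'
        · have := congrArg Subtype.val h'
          simp only [ha, hb, vtx] at this
          omega
        · refine not_ladj hE a.2 ?_ ?_ ?_ ?_ h'
          · simp only [ha, hb, vtx]; omega
          · simp only [ha, vtx]; omega
          · simp only [hb, vtx]; omega
          · simp only [ha, hb, vtx]; omega
      rw [Finset.mem_biUnion]
      exact ⟨c b, Finset.mem_compl.mpr hcb, hmemg b _ heb hcb⟩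
    · left
      rw [Finset.mem_biUnion]
      exact ⟨c a, Finset.mem_compl.mpr hca, hmemg a _ hea hca⟩

/-- **Chromatic number of the graph of the reduction.** -/
theorem colorable_iff {E : List (W × W)} (hE : ∀ e ∈ E, e.1 ≠ e.2) (k : ℕ) :
    (gG E).Colorable (k + E.length) ↔ VC E k :=
  ⟨vc_of_colorable hE, colorable_of_vc⟩

end Graph

end Pool.Agent.H663R2.OddHole
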