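import Pool.Agent.H663R2.VCHard
import Pool.Agent.H642R2.TMSim

/-!
# The reduction to colouring odd-hole-free graphs is computable in polynomial time
-/

namespace Pool.Agent.NPC.OH663

open Pool.Agent.NPC Pool.Agent.H663R2.OddHole

section

variable {W : Type} [TEnc W] [DecidableEq W]

omit [DecidableEq W] in
theorem gV_upoly {α : Type} [TEnc α] {E : α → List (W × W)} (hE : Poly E) :
    UPoly (fun a => 3 * (E a).length) := UPoly.mul (UPoly.const 3) (UPoly.length hE)

omit [DecidableEq W] in
theorem gV_poly {α : Type} [TEnc α] {E : α → List (W × W)} (hE : Poly E) :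
    Poly (fun a => gV (E a)) := UPoly.range (gV_upoly hE)

omit [DecidableEq W] in
theorem endp_poly {α : Type} [TEnc α] {E : α → List (W × W)} {n : α → ℕ} (hE : Poly E)
    (hn : Poly n) : Poly (fun a => endp (E a) (n a)) := by
  have hget : Poly (fun a => (E a)[n a / 3]?) :=
    Poly.getElem? hE (Poly.div hn (Poly.const 3))
  have h1 : Poly (fun a => ((E a)[n a / 3]?).map Prod.fst) := by
    refine (Poly.optCases (g := fun _ => (none : Option W)) (h := fun _ p => some p.1) hget
      (Poly.const none) (Poly.some (Poly.fst (Poly.snd Poly.id)))).congr fun a => ?_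
    cases (E a)[n a / 3]? <;> rfl
  have h2 : Poly (fun a => ((E a)[n a / 3]?).map Prod.snd) := by
    refine (Poly.optCases (g := fun _ => (none : Option W)) (h := fun _ p => some p.2) hget
      (Poly.const none) (Poly.some (Poly.snd (Poly.snd Poly.id)))).congr fun a => ?_
    cases (E a)[n a / 3]? <;> rfl
  exact Poly.ite (p := fun a => n a % 3 = 0)
    (Poly.decide_eq (Poly.mod hn (Poly.const 3)) (Poly.const 0)) h1
    (Poly.ite (p := fun a => n a % 3 = 2)
      (Poly.decide_eq (Poly.mod hn (Poly.const 3)) (Poly.const 2)) h2 (Poly.const none))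

theorem ladj_poly {α : Type} [TEnc α] {E : α → List (W × W)} {m n : α → ℕ} (hE : Poly E)
    (hm : Poly m) (hn : Poly n) : Poly (fun a => decide (ladj (E a) (m a) (n a))) := by
  have m1 : Poly (fun a => decide (m a % 3 = 1)) :=
    Poly.decide_eq (Poly.mod hm (Poly.const 3)) (Poly.const 1)
  have n1 : Poly (fun a => decide (n a % 3 = 1)) :=
    Poly.decide_eq (Poly.mod hn (Poly.const 3)) (Poly.const 1)
  have d1 : Poly (fun a => decide (m a / 3 = n a / 3)) :=
    Poly.decide_eq (Poly.div hm (Poly.const 3)) (Poly.div hn (Poly.const 3))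
  have e1 : Poly (fun a => decide (endp (E a) (m a) = endp (E a) (n a))) :=
    Poly.decide_eq (endp_poly hE hm) (endp_poly hE hn)
  refine (Poly.or (Poly.and d1 (Poly.or m1 n1))
    (Poly.and (Poly.not m1) (Poly.and (Poly.not n1) e1))).congr fun a => ?_
  rw [Bool.eq_iff_iff]
  simp only [Bool.or_eq_true, Bool.and_eq_true, Bool.not_eq_true', decide_eq_true_eq,
    decide_eq_false_iff_not]
  exact Iff.rfl

theorem gE_poly {α : Type} [TEnc α] {E : α → List (W × W)} (hE : Poly E) :
    Poly (fun a => gE (E a)) := by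
  refine Poly.filter (p := fun a (r : ℕ × ℕ) => decide (r.1 ≠ r.2 ∧ ¬ ladj (E a) r.1 r.2))
    (pairs_poly (gV_poly hE)) ?_
  have g1 : Poly (fun x : α × (ℕ × ℕ) => x.2.1) := Poly.fst (Poly.snd Poly.id)
  have g2 : Poly (fun x : α × (ℕ × ℕ) => x.2.2) := Poly.snd (Poly.snd Poly.id)
  refine (Poly.and (Poly.not (Poly.decide_eq g1 g2))
    (Poly.not (ladj_poly (hE.comp (Poly.fst Poly.id)) g1 g2))).congr fun a => ?_
  rw [Bool.eq_iff_iff]
  simp

end

/-- The instance of the colouring problem made from a 3-CNF. -/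
def inst (φ : List (Lit ℕ × Lit ℕ × Lit ℕ)) : (List ℕ × List (ℕ × ℕ)) × ℕ :=
  ((gV (cE φ), gE (cE φ)), 2 * φ.length + (cE φ).length)

theorem inst_poly : Poly inst :=
  Poly.pair (Poly.pair (gV_poly cE_poly) (gE_poly cE_poly))
    (Poly.add (Poly.mul (Poly.const 2) (Poly.length Poly.id)) (Poly.length cE_poly))

theorem inst_ohf (φ : List (Lit ℕ × Lit ℕ × Lit ℕ)) : OddHoleFree (toGraph (inst φ).1) :=
  oddHoleFree (cE_ne φ)

theorem inst_iff (φ : List (Lit ℕ × Lit ℕ × Lit ℕ)) :
    SAT3 φ ↔ (toGraph (inst φ).1).Colorable (inst φ).2 := by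
  rw [sat_iff_vc]
  exact (colorable_iff (cE_ne φ) (2 * φ.length)).symm

/-! ### Counting distinct entries -/

/-- remove duplicates -/
def dd (l : List ℕ) : List ℕ := l.foldl (fun acc x => if x ∈ acc then acc else x :: acc) []

theorem dd_aux (l : List ℕ) : ∀ acc : List ℕ, acc.Nodup →
    (l.foldl (fun acc x => if x ∈ acc then acc else x :: acc) acc).Nodup ∧
    (l.foldl (fun acc x => if x ∈ acc then acc else x :: acc) acc).toFinset
      = acc.toFinset ∪ l.toFinset := by
  induction l with
  | nil => intro acc h; exact ⟨h, by simp⟩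
  | cons x l ih =>
    intro acc h
    rw [List.foldl_cons]
    by_cases hx : x ∈ acc
    · rw [if_pos hx]
      obtain ⟨h1, h2⟩ := ih acc h
      refine ⟨h1, ?_⟩
      rw [h2]
      ext y
      simp only [Finset.mem_union, List.mem_toFinset, List.mem_cons]
      constructor
      · rintro (h | h)
        · exact Or.inl h
        · exact Or.inr (Or.inr h)
      · rintro (h | rfl | h)
        · exact Or.inl h
        · exact Or.inl hx
        · exact Or.inr h
    · rw [if_neg hx]
      obtain ⟨h1, h2⟩ := ih (x :: acc) (List.nodup_cons.mpr ⟨hx, h⟩)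
      refine ⟨h1, ?_⟩
      rw [h2]
      ext y
      simp only [Finset.mem_union, List.mem_toFinset, List.mem_cons]
      tauto

theorem dd_length (l : List ℕ) : (dd l).length = l.toFinset.card := by
  obtain ⟨h1, h2⟩ := dd_aux l [] List.nodup_nil
  have h3 : (dd l).toFinset = l.toFinset := by
    unfold dd
    rw [h2]; simp
  rw [← h3, List.toFinset_card_of_nodup]
  exact h1

theorem dd_sz (l : List ℕ) : ∀ acc : List ℕ,
    sz (l.foldl (fun acc x => if x ∈ acc then acc else x :: acc) acc) ≤ sz acc + sz l := by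
  induction l with
  | nil => intro acc; simp
  | cons x l ih =>
    intro acc
    rw [List.foldl_cons]
    by_cases hx : x ∈ acc
    · rw [if_pos hx]
      have := ih acc
      simp only [sz_list_cons]
      omega
    · rw [if_neg hx]
      have := ih (x :: acc)
      simp only [sz_list_cons] at this ⊢
      omega

theorem dd_poly {α : Type} [TEnc α] {l : α → List ℕ} (hl : Poly l) :
    Poly (fun a => dd (l a)) := by
  obtain ⟨r, hr⟩ := hl.sz_le
  refine Poly.foldl (s := fun _ => ([] : List ℕ))
    (F := fun _ acc x => if x ∈ acc then acc else x :: acc) hl (Poly.const _) ?_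
    (Polynomial.C 1 + r) ?_
  · exact Poly.ite (p := fun (p : α × List ℕ × ℕ) => p.2.2 ∈ p.2.1)
      (Poly.decide_mem (Poly.snd (Poly.snd Poly.id)) (Poly.fst (Poly.snd Poly.id)))
      (Poly.fst (Poly.snd Poly.id))
      (Poly.cons (Poly.snd (Poly.snd Poly.id)) (Poly.fst (Poly.snd Poly.id)))
  · intro a k _
    have h1 := dd_sz ((l a).take k) []
    have h2 := Poly.sz_take_le (l a) k
    have h3 := hr a
    simp only [Polynomial.eval_add, Polynomial.eval_C]
    simp only [sz_list_nil] at h1
    omega

/-- Decide whether the colouring `c` of the instance uses at most the permitted number of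
colours. -/
def dec (p : (List (Lit ℕ × Lit ℕ × Lit ℕ)) × List ℕ) : Bool :=
  decide ((dd ((gV (cE p.1)).map fun v => p.2.getD v 0)).length ≤ (inst p.1).2)

theorem dec_poly : Poly dec := by
  have e1 : Poly (fun p : (List (Lit ℕ × Lit ℕ × Lit ℕ)) × List ℕ =>
      (gV (cE p.1)).map fun v => p.2.getD v 0) :=
    Poly.map (F := fun (p : (List (Lit ℕ × Lit ℕ × Lit ℕ)) × List ℕ) v => p.2.getD v 0)
      (gV_poly (cE_poly.comp (Poly.fst Poly.id)))
      (Poly.getD (Poly.snd (Poly.fst Poly.id)) (Poly.snd Poly.id) (Poly.const 0))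
  exact Poly.decide_le (Poly.length (dd_poly e1))
    (Poly.snd (Poly.comp (g := inst) inst_poly (Poly.fst Poly.id)))

theorem inst_fst_poly : Poly (fun φ => (inst φ).1) := Poly.fst inst_poly

end Pool.Agent.NPC.OH663
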