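import Mathlib

/-!
# Covering skew-supermodular demands: tight sets, the greedy chain lemma, the formula
-/

namespace Pool.Agent.H663R2.Skew

open Finset

variable {S : Type*} [DecidableEq S]

/-- skew-supermodularity of `p` on the subsets of `U` -/
def SkewOn (U : Finset S) (p : Finset S → ℤ) : Prop :=
  ∀ X ⊆ U, ∀ Y ⊆ U, p X + p Y ≤ p (X ∩ Y) + p (X ∪ Y) ∨ p X + p Y ≤ p (X \ Y) + p (Y \ X)

/-- `B` covers the demands `q` -/
def Cov (U : Finset S) (q : Finset S → ℤ) (B : Finset S) : Prop :=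
  ∀ Z ⊆ U, q Z ≤ ((B ∩ Z).card : ℤ)

lemma card_split (B X Y : Finset S) :
    ((B ∩ X).card : ℤ) + (B ∩ Y).card = (B ∩ (X ∩ Y)).card + (B ∩ (X ∪ Y)).card := by
  have h := Finset.card_union_add_card_inter (B ∩ X) (B ∩ Y)
  rw [← Finset.inter_union_distrib_left] at h
  have h2 : B ∩ X ∩ (B ∩ Y) = B ∩ (X ∩ Y) := by
    ext x; simp only [mem_inter]; tauto
  rw [h2] at h
  have : (((B ∩ (X ∪ Y)).card + (B ∩ (X ∩ Y)).card : ℕ) : ℤ) = ((B ∩ X).card + (B ∩ Y).card : ℕ) := by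
    exact_mod_cast h
  push_cast at this
  linarith

lemma card_split_sdiff (B X Y : Finset S) :
    ((B ∩ X).card : ℤ) = (B ∩ (X ∩ Y)).card + (B ∩ (X \ Y)).card := by
  have h := Finset.card_union_of_disjoint (s := B ∩ (X ∩ Y)) (t := B ∩ (X \ Y)) (by
    rw [Finset.disjoint_left]
    intro x hx hx'
    simp only [mem_inter, mem_sdiff] at hx hx'
    tauto)
  have h2 : B ∩ (X ∩ Y) ∪ B ∩ (X \ Y) = B ∩ X := by
    ext x; simp only [mem_inter, mem_sdiff, mem_union]; tauto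
  rw [h2] at h
  exact_mod_cast h

lemma tight_cases {U : Finset S} {q : Finset S → ℤ} (hq : SkewOn U q) {B : Finset S}
    (hB : Cov U q B) {T R : Finset S} (hT : T ⊆ U) (hR : R ⊆ U)
    (tT : q T = ((B ∩ T).card : ℤ)) (tR : q R = ((B ∩ R).card : ℤ)) :
    q (T ∪ R) = ((B ∩ (T ∪ R)).card : ℤ) ∨
    (B ∩ (T ∩ R) = ∅ ∧ q (T \ R) = ((B ∩ (T \ R)).card : ℤ) ∧
      q (R \ T) = ((B ∩ (R \ T)).card : ℤ)) := by
  have hi : T ∩ R ⊆ U := Finset.inter_subset_left.trans hT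
  have hu : T ∪ R ⊆ U := Finset.union_subset hT hR
  have hd1 : T \ R ⊆ U := Finset.sdiff_subset.trans hT
  have hd2 : R \ T ⊆ U := Finset.sdiff_subset.trans hR
  rcases hq T hT R hR with h | h
  · left
    have h1 := hB _ hi
    have h2 := hB _ hu
    have h3 := card_split B T R
    omega
  · right
    have h1 := hB _ hd1
    have h2 := hB _ hd2
    have h3 := card_split_sdiff B T R
    have h4 := card_split_sdiff B R T
    rw [Finset.inter_comm R T] at h4
    have h5 : (B ∩ (T ∩ R)).card = 0 := by omega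
    exact ⟨Finset.card_eq_zero.mp h5, by omega, by omega⟩

lemma sum_insert_le' {ι : Type*} [DecidableEq ι] (f : ι → ℕ) (a : ι) (s : Finset ι) :
    ∑ i ∈ insert a s, f i ≤ f a + ∑ i ∈ s, f i := by
  by_cases h : a ∈ s
  · rw [Finset.insert_eq_of_mem h]; omega
  · rw [Finset.sum_insert h]

lemma exists_disjoint_family {U : Finset S} {q : Finset S → ℤ} (hq : SkewOn U q) {B : Finset S}
    (hB : Cov U q B) {W : Finset S} (hW : W ⊆ B)
    (hcov : ∀ b ∈ W, ∃ T ⊆ U, b ∈ T ∧ q T = ((B ∩ T).card : ℤ)) :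
    ∃ F : Finset (Finset S), (∀ T ∈ F, T ⊆ U ∧ q T = ((B ∩ T).card : ℤ)) ∧
      (∀ T ∈ F, ∀ R ∈ F, T ≠ R → Disjoint T R) ∧ ∀ b ∈ W, ∃ T ∈ F, b ∈ T := by
  classical
  let tight : Finset (Finset S) := U.powerset.filter fun T => q T = ((B ∩ T).card : ℤ)
  have htight : ∀ T, T ∈ tight ↔ T ⊆ U ∧ q T = ((B ∩ T).card : ℤ) := by
    intro T; simp [tight]
  let FF : Finset (Finset (Finset S)) := tight.powerset.filter fun F => ∀ b ∈ W, ∃ T ∈ F, b ∈ T
  have hFF : ∀ F, F ∈ FF ↔ F ⊆ tight ∧ ∀ b ∈ W, ∃ T ∈ F, b ∈ T := by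
    intro F; simp [FF]
  have hne : FF.Nonempty := by
    refine ⟨tight, (hFF _).mpr ⟨Finset.Subset.refl _, ?_⟩⟩
    intro b hb
    obtain ⟨T, h1, h2, h3⟩ := hcov b hb
    exact ⟨T, (htight T).mpr ⟨h1, h3⟩, h2⟩
  obtain ⟨F, hF, hmin⟩ := Finset.exists_min_image FF (fun F => ∑ T ∈ F, T.card) hne
  obtain ⟨hF1, hF2⟩ := (hFF F).mp hF
  refine ⟨F, fun T hT => (htight T).mp (hF1 hT), ?_, hF2⟩
  intro T hT R hR hTR
  by_contra hdis
  rw [Finset.not_disjoint_iff_nonempty_inter] at hdis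
  have hpos : 0 < (T ∩ R).card := Finset.card_pos.mpr hdis
  obtain ⟨hTU, tT⟩ := (htight T).mp (hF1 hT)
  obtain ⟨hRU, tR⟩ := (htight R).mp (hF1 hR)
  set G := (F.erase T).erase R with hG
  have hRm : R ∈ F.erase T := Finset.mem_erase.mpr ⟨hTR.symm, hR⟩
  have hsum : ∑ X ∈ F, X.card = T.card + (R.card + ∑ X ∈ G, X.card) := by
    rw [← Finset.add_sum_erase F _ hT, ← Finset.add_sum_erase (F.erase T) _ hRm]
  have hGF : G ⊆ F := (Finset.erase_subset _ _).trans (Finset.erase_subset _ _)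
  have hGmem : ∀ X ∈ F, X = T ∨ X = R ∨ X ∈ G := by
    intro X hX
    by_cases h1 : X = T
    · exact Or.inl h1
    · by_cases h2 : X = R
      · exact Or.inr (Or.inl h2)
      · exact Or.inr (Or.inr (Finset.mem_erase.mpr ⟨h2, Finset.mem_erase.mpr ⟨h1, hX⟩⟩))
  rcases tight_cases hq hB hTU hRU tT tR with h | ⟨h0, h1, h2⟩
  · have hmem : insert (T ∪ R) G ∈ FF := by
      refine (hFF _).mpr ⟨?_, ?_⟩
      · intro X hX
        rcases Finset.mem_insert.mp hX with rfl | hX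
        · exact (htight _).mpr ⟨Finset.union_subset hTU hRU, h⟩
        · exact hF1 (hGF hX)
      · intro b hb
        obtain ⟨X, hX, hbX⟩ := hF2 b hb
        rcases hGmem X hX with rfl | rfl | hX'
        · exact ⟨X ∪ R, Finset.mem_insert_self _ _, Finset.mem_union_left _ hbX⟩
        · exact ⟨T ∪ X, Finset.mem_insert_self _ _, Finset.mem_union_right _ hbX⟩
        · exact ⟨X, Finset.mem_insert_of_mem hX', hbX⟩
    have h3 := hmin _ hmem
    have h4 := sum_insert_le' (fun X : Finset S => X.card) (T ∪ R) G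
    have h5 := Finset.card_union_add_card_inter T R
    omega
  · have hmem : insert (T \ R) (insert (R \ T) G) ∈ FF := by
      refine (hFF _).mpr ⟨?_, ?_⟩
      · intro X hX
        rcases Finset.mem_insert.mp hX with rfl | hX
        · exact (htight _).mpr ⟨Finset.sdiff_subset.trans hTU, h1⟩
        · rcases Finset.mem_insert.mp hX with rfl | hX
          · exact (htight _).mpr ⟨Finset.sdiff_subset.trans hRU, h2⟩
          · exact hF1 (hGF hX)
      · intro b hb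
        obtain ⟨X, hX, hbX⟩ := hF2 b hb
        have hbB := hW hb
        have hnb : ¬ (b ∈ T ∧ b ∈ R) := by
          rintro ⟨hbT, hbR⟩
          have : b ∈ B ∩ (T ∩ R) := by simp [hbB, hbT, hbR]
          rw [h0] at this
          simp at this
        rcases hGmem X hX with rfl | rfl | hX'
        · refine ⟨X \ R, Finset.mem_insert_self _ _, ?_⟩
          exact Finset.mem_sdiff.mpr ⟨hbX, fun h => hnb ⟨hbX, h⟩⟩
        · refine ⟨X \ T, Finset.mem_insert_of_mem (Finset.mem_insert_self _ _), ?_⟩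
          exact Finset.mem_sdiff.mpr ⟨hbX, fun h => hnb ⟨h, hbX⟩⟩
        · exact ⟨X, Finset.mem_insert_of_mem (Finset.mem_insert_of_mem hX'), hbX⟩
    have h3 := hmin _ hmem
    have h4 := sum_insert_le' (fun X : Finset S => X.card) (T \ R) (insert (R \ T) G)
    have h4' := sum_insert_le' (fun X : Finset S => X.card) (R \ T) G
    have h5 := Finset.card_sdiff_add_card_inter T R
    have h6 := Finset.card_sdiff_add_card_inter R T
    rw [Finset.inter_comm] at h6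
    omega

/-- The weight formula for a disjoint family of tight sets covering `B ∩ V`. -/
lemma family_value {U : Finset S} {q : Finset S → ℤ} {B V : Finset S}
    (hV : U \ V ⊆ B) {F : Finset (Finset S)}
    (hF : ∀ T ∈ F, T ⊆ U ∧ q T = ((B ∩ T).card : ℤ))
    (hdis : ∀ T ∈ F, ∀ R ∈ F, T ≠ R → Disjoint T R) (hcov : ∀ b ∈ B ∩ V, ∃ T ∈ F, b ∈ T) :
    ((B ∩ V).card : ℤ) = ∑ T ∈ F, (q T - ((T \ V).card : ℤ)) := by
  have h1 : ∀ T ∈ F, q T - ((T \ V).card : ℤ) = ((B ∩ V ∩ T).card : ℤ) := by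
    intro T hT
    obtain ⟨hTU, tT⟩ := hF T hT
    have h2 := card_split_sdiff B T V
    have h3 : B ∩ (T \ V) = T \ V := by
      apply Finset.inter_eq_right.mpr
      exact (Finset.sdiff_subset_sdiff hTU (Finset.Subset.refl V)).trans hV
    have h4 : B ∩ (T ∩ V) = B ∩ V ∩ T := by
      ext x; simp only [mem_inter]; tauto
    rw [h3, h4] at h2
    rw [tT]; omega
  rw [Finset.sum_congr rfl h1]
  have h5 : B ∩ V = F.biUnion fun T => B ∩ V ∩ T := by
    ext x
    simp only [mem_biUnion, mem_inter]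
    constructor
    · rintro ⟨hx, hx'⟩
      obtain ⟨T, hT, hxT⟩ := hcov x (Finset.mem_inter.mpr ⟨hx, hx'⟩)
      exact ⟨T, hT, ⟨hx, hx'⟩, hxT⟩
    · rintro ⟨T, hT, h, _⟩
      exact h
  have h6 : (F.biUnion fun T => B ∩ V ∩ T).card = ∑ T ∈ F, (B ∩ V ∩ T).card := by
    apply Finset.card_biUnion
    intro T hT R hR hTR
    exact (hdis T hT R hR hTR).mono Finset.inter_subset_right Finset.inter_subset_right
  rw [← h5] at h6
  rw [h6]
  push_cast
  rfl

/-- Weak duality. -/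
lemma family_le {U : Finset S} {q : Finset S → ℤ} {x : S → ℝ} (h0 : ∀ s, 0 ≤ x s)
    (h1 : ∀ s, x s ≤ 1) (hx : ∀ Z ⊆ U, (q Z : ℝ) ≤ ∑ s ∈ Z, x s) {V : Finset S}
    {F : Finset (Finset S)} (hF : ∀ T ∈ F, T ⊆ U)
    (hdis : ∀ T ∈ F, ∀ R ∈ F, T ≠ R → Disjoint T R) :
    ((∑ T ∈ F, (q T - ((T \ V).card : ℤ)) : ℤ) : ℝ) ≤ ∑ s ∈ V, x s := by
  push_cast
  have h2 : ∀ T ∈ F, (q T : ℝ) - ((T \ V).card : ℝ) ≤ ∑ s ∈ V ∩ T, x s := by
    intro T hT
    have h3 := hx T (hF T hT)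
    have h4 : ∑ s ∈ T, x s = ∑ s ∈ V ∩ T, x s + ∑ s ∈ T \ V, x s := by
      rw [← Finset.sum_union]
      · congr 1
        ext s; simp only [mem_inter, mem_union, mem_sdiff]; tauto
      · rw [Finset.disjoint_left]
        intro s hs hs'
        simp only [mem_inter, mem_sdiff] at hs hs'
        tauto
    have h5 : ∑ s ∈ T \ V, x s ≤ ((T \ V).card : ℝ) := by
      calc ∑ s ∈ T \ V, x s ≤ ∑ s ∈ T \ V, (1 : ℝ) := Finset.sum_le_sum fun s _ => h1 s
        _ = ((T \ V).card : ℝ) := by simp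
    linarith
  refine (Finset.sum_le_sum h2).trans ?_
  rw [← Finset.sum_biUnion]
  · apply Finset.sum_le_sum_of_subset_of_nonneg
    · intro s hs
      obtain ⟨T, _, hs⟩ := Finset.mem_biUnion.mp hs
      exact (Finset.mem_inter.mp hs).1
    · intro s _ _
      exact h0 s
  · intro T hT R hR hTR
    exact (hdis T hT R hR hTR).mono Finset.inter_subset_right Finset.inter_subset_right

lemma card_le_real (B Z : Finset S) : ((B ∩ Z).card : ℝ) = ∑ s ∈ Z, (if s ∈ B then (1 : ℝ) else 0) := by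
  rw [Finset.sum_ite_mem]
  simp [Finset.inter_comm]

open Classical in
/-- minimal size of the trace on `X` of a cover -/
noncomputable def low (U : Finset S) (q : Finset S → ℤ) (X : Finset S) : ℕ :=
  sInf {n | ∃ B ⊆ U, Cov U q B ∧ (B ∩ X).card = n}

lemma low_le {U : Finset S} {q : Finset S → ℤ} {B : Finset S} (hBU : B ⊆ U) (hB : Cov U q B)
    (X : Finset S) : low U q X ≤ (B ∩ X).card :=
  Nat.sInf_le ⟨B, hBU, hB, rfl⟩

lemma low_mem {U : Finset S} {q : Finset S → ℤ} (hU : Cov U q U) (X : Finset S) :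
    ∃ B ⊆ U, Cov U q B ∧ (B ∩ X).card = low U q X := by
  have h : ({n | ∃ B ⊆ U, Cov U q B ∧ (B ∩ X).card = n} : Set ℕ).Nonempty :=
    ⟨_, U, Finset.Subset.refl _, hU, rfl⟩
  exact Nat.sInf_mem h

lemma tight_of_not_erase {U : Finset S} {q : Finset S → ℤ} {B : Finset S} (hB : Cov U q B)
    {b : S} (hb : b ∈ B) (h : ¬ Cov U q (B.erase b)) :
    ∃ T ⊆ U, b ∈ T ∧ q T = ((B ∩ T).card : ℤ) := by
  unfold Cov at h
  push Not at h
  obtain ⟨T, hT, hlt⟩ := h
  have h1 := hB T hT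
  refine ⟨T, hT, ?_, ?_⟩
  · by_contra hbT
    have : B.erase b ∩ T = B ∩ T := by
      ext x; simp only [mem_inter, mem_erase]
      constructor
      · rintro ⟨⟨_, h⟩, h'⟩; exact ⟨h, h'⟩
      · rintro ⟨h, h'⟩
        exact ⟨⟨fun hx => hbT (hx ▸ h'), h⟩, h'⟩
    rw [this] at hlt
    omega
  · have h2 : (B ∩ T).card ≤ (B.erase b ∩ T).card + 1 := by
      have : B ∩ T ⊆ insert b (B.erase b ∩ T) := by
        intro x hx
        by_cases hxb : x = b
        · simp [hxb]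
        · simp only [mem_inter, mem_erase, mem_insert] at hx ⊢
          tauto
      exact (Finset.card_le_card this).trans (Finset.card_insert_le _ _)
    omega

/-- A cover all of whose elements in `V` lie in tight sets is minimal on `V`. -/
lemma min_of_tight {U : Finset S} {q : Finset S → ℤ} (hq : SkewOn U q) {B V : Finset S}
    (hBU : B ⊆ U) (hB : Cov U q B) (hV : U \ V ⊆ B)
    (hcov : ∀ b ∈ B ∩ V, ∃ T ⊆ U, b ∈ T ∧ q T = ((B ∩ T).card : ℤ)) :
    (B ∩ V).card = low U q V ∧ ∃ F : Finset (Finset S), (∀ T ∈ F, T ⊆ U) ∧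
      (∀ T ∈ F, ∀ R ∈ F, T ≠ R → Disjoint T R) ∧
      ((B ∩ V).card : ℤ) = ∑ T ∈ F, (q T - ((T \ V).card : ℤ)) := by
  obtain ⟨F, hF, hdis, hc⟩ := exists_disjoint_family hq hB (W := B ∩ V) Finset.inter_subset_left hcov
  have hval := family_value hV hF hdis hc
  refine ⟨?_, F, fun T hT => (hF T hT).1, hdis, hval⟩
  apply le_antisymm _ (low_le hBU hB V)
  obtain ⟨B', hB'U, hB', hc'⟩ := low_mem (U := U) (q := q) (fun Z hZ => (hB Z hZ).trans (by
    exact_mod_cast Finset.card_le_card (Finset.inter_subset_inter_right hBU))) V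
  rw [← hc']
  have h := family_le (U := U) (q := q) (x := fun s => if s ∈ B' then (1 : ℝ) else 0) (V := V)
    (by intro s; positivity) (by intro s; split_ifs <;> norm_num)
    (by intro Z hZ; rw [← card_le_real]; exact_mod_cast hB' Z hZ)
    (F := F) (fun T hT => (hF T hT).1) hdis
  rw [← hval, ← card_le_real] at h
  exact_mod_cast h

/-- The greedy chain lemma. -/
lemma exists_chain {U : Finset S} {q : Finset S → ℤ} (hq : SkewOn U q) (hU : Cov U q U)
    {W V : Finset S} (hWV : W ⊆ V) (hVU : V ⊆ U) :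
    ∃ B ⊆ U, Cov U q B ∧ (B ∩ W).card = low U q W ∧ (B ∩ V).card = low U q V ∧
      ∃ F : Finset (Finset S), (∀ T ∈ F, T ⊆ U) ∧
      (∀ T ∈ F, ∀ R ∈ F, T ≠ R → Disjoint T R) ∧
      ((B ∩ V).card : ℤ) = ∑ T ∈ F, (q T - ((T \ V).card : ℤ)) := by
  classical
  -- first minimise on `W`
  let C0 : Finset (Finset S) := U.powerset.filter fun B => Cov U q B ∧ U \ W ⊆ B
  have hC0 : ∀ B, B ∈ C0 ↔ B ⊆ U ∧ Cov U q B ∧ U \ W ⊆ B := by intro B; simp [C0]
  have hne0 : C0.Nonempty := ⟨U, (hC0 U).mpr ⟨Finset.Subset.refl _, hU, Finset.sdiff_subset⟩⟩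
  obtain ⟨B0, hB0, hmin0⟩ := Finset.exists_min_image C0 (fun B => B.card) hne0
  obtain ⟨hB0U, hB0c, hB0W⟩ := (hC0 B0).mp hB0
  have ht0 : ∀ b ∈ B0 ∩ W, ∃ T ⊆ U, b ∈ T ∧ q T = ((B0 ∩ T).card : ℤ) := by
    intro b hb
    obtain ⟨hb1, hb2⟩ := Finset.mem_inter.mp hb
    apply tight_of_not_erase hB0c hb1
    intro hcov
    have hmem : B0.erase b ∈ C0 := by
      refine (hC0 _).mpr ⟨(Finset.erase_subset _ _).trans hB0U, hcov, ?_⟩
      intro x hx
      refine Finset.mem_erase.mpr ⟨?_, hB0W hx⟩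
      rintro rfl
      exact (Finset.mem_sdiff.mp hx).2 hb2
    have := hmin0 _ hmem
    have h2 := Finset.card_erase_lt_of_mem hb1
    omega
  obtain ⟨hlowW, _⟩ := min_of_tight hq hB0U hB0c hB0W ht0
  -- then minimise on `V`
  let C1 : Finset (Finset S) := U.powerset.filter fun B => Cov U q B ∧ U \ V ⊆ B ∧ B ∩ W = B0 ∩ W
  have hC1 : ∀ B, B ∈ C1 ↔ B ⊆ U ∧ Cov U q B ∧ U \ V ⊆ B ∧ B ∩ W = B0 ∩ W := by
    intro B; simp [C1]
  have hne1 : C1.Nonempty := ⟨B0, (hC1 B0).mpr ⟨hB0U, hB0c,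
    (Finset.sdiff_subset_sdiff (Finset.Subset.refl U) hWV).trans hB0W, rfl⟩⟩
  obtain ⟨B1, hB1, hmin1⟩ := Finset.exists_min_image C1 (fun B => B.card) hne1
  obtain ⟨hB1U, hB1c, hB1V, hB1W⟩ := (hC1 B1).mp hB1
  have hsub : B1 ⊆ B0 := by
    intro x hx
    by_cases hxW : x ∈ W
    · have : x ∈ B1 ∩ W := Finset.mem_inter.mpr ⟨hx, hxW⟩
      rw [hB1W] at this
      exact (Finset.mem_inter.mp this).1
    · exact hB0W (Finset.mem_sdiff.mpr ⟨hB1U hx, hxW⟩)
  have ht1 : ∀ b ∈ B1 ∩ V, ∃ T ⊆ U, b ∈ T ∧ q T = ((B1 ∩ T).card : ℤ) := by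
    intro b hb
    obtain ⟨hb1, hb2⟩ := Finset.mem_inter.mp hb
    by_cases hbW : b ∈ W
    · obtain ⟨T, hTU, hbT, hT⟩ := ht0 b (Finset.mem_inter.mpr ⟨hsub hb1, hbW⟩)
      refine ⟨T, hTU, hbT, le_antisymm (hB1c T hTU) ?_⟩
      rw [hT]
      exact_mod_cast Finset.card_le_card (Finset.inter_subset_inter_right hsub)
    · apply tight_of_not_erase hB1c hb1
      intro hcov
      have hmem : B1.erase b ∈ C1 := by
        refine (hC1 _).mpr ⟨(Finset.erase_subset _ _).trans hB1U, hcov, ?_, ?_⟩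
        · intro x hx
          refine Finset.mem_erase.mpr ⟨?_, hB1V hx⟩
          rintro rfl
          exact (Finset.mem_sdiff.mp hx).2 hb2
        · rw [← hB1W]
          ext x
          simp only [mem_inter, mem_erase]
          constructor
          · rintro ⟨⟨_, h⟩, h'⟩; exact ⟨h, h'⟩
          · rintro ⟨h, h'⟩
            exact ⟨⟨fun hx => hbW (hx ▸ h'), h⟩, h'⟩
      have := hmin1 _ hmem
      have h2 := Finset.card_erase_lt_of_mem hb1
      omega
  obtain ⟨hlowV, hF⟩ := min_of_tight hq hB1U hB1c hB1V ht1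
  exact ⟨B1, hB1U, hB1c, by rw [hB1W]; exact hlowW, hlowV, hF⟩

lemma low_supermodular {U : Finset S} {q : Finset S → ℤ} (hq : SkewOn U q) (hU : Cov U q U)
    {X Y : Finset S} (hX : X ⊆ U) (hY : Y ⊆ U) :
    low U q X + low U q Y ≤ low U q (X ∩ Y) + low U q (X ∪ Y) := by
  obtain ⟨B, hBU, hB, h1, h2, _⟩ := exists_chain hq hU (W := X ∩ Y) (V := X ∪ Y)
    (Finset.inter_subset_left.trans Finset.subset_union_left) (Finset.union_subset hX hY)
  have h3 := low_le hBU hB X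
  have h4 := low_le hBU hB Y
  have h5 := card_split B X Y
  omega

lemma low_formula {U : Finset S} {q : Finset S → ℤ} (hq : SkewOn U q) (hU : Cov U q U)
    {V : Finset S} (hVU : V ⊆ U) :
    ∃ F : Finset (Finset S), (∀ T ∈ F, T ⊆ U) ∧
      (∀ T ∈ F, ∀ R ∈ F, T ≠ R → Disjoint T R) ∧
      (low U q V : ℤ) = ∑ T ∈ F, (q T - ((T \ V).card : ℤ)) := by
  obtain ⟨B, hBU, hB, h1, h2, F, hF1, hF2, hF3⟩ := exists_chain hq hU
    (Finset.Subset.refl V) hVU
  exact ⟨F, hF1, hF2, by rw [← hF3, h2]⟩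

lemma low_le_real {U : Finset S} {q : Finset S → ℤ} (hq : SkewOn U q) (hU : Cov U q U)
    {x : S → ℝ} (h0 : ∀ s, 0 ≤ x s) (h1 : ∀ s, x s ≤ 1)
    (hx : ∀ Z ⊆ U, (q Z : ℝ) ≤ ∑ s ∈ Z, x s) {V : Finset S} (hVU : V ⊆ U) :
    (low U q V : ℝ) ≤ ∑ s ∈ V, x s := by
  obtain ⟨F, hF1, hF2, hF3⟩ := low_formula hq hU hVU
  have h := family_le h0 h1 hx (V := V) hF1 hF2
  rw [← hF3] at h
  exact_mod_cast h

lemma le_low {U : Finset S} {q : Finset S → ℤ} (hU : Cov U q U) {X : Finset S} (hX : X ⊆ U) :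
    q X ≤ low U q X := by
  obtain ⟨B, hBU, hB, h⟩ := low_mem hU X
  rw [← h]
  exact hB X hX

end Pool.Agent.H663R2.Skew
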