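import Pool.Agent.H663R2.SkewA

/-!
# The cross inequality, the discrete sandwich theorem and the existence of the first colour class
-/

namespace Pool.Agent.H663R2.Skew

open Finset

variable {S : Type*} [DecidableEq S]

lemma Cov.mono {U : Finset S} {q : Finset S → ℤ} {B B' : Finset S} (h : Cov U q B) (hB : B ⊆ B') :
    Cov U q B' := fun Z hZ => (h Z hZ).trans (by
      exact_mod_cast Finset.card_le_card (Finset.inter_subset_inter_right hB))

/-- The shift of the demands. -/
def sh (p : Finset S → ℤ) (m : ℕ) : Finset S → ℤ := fun X => p X - (m : ℤ)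

lemma skew_sh {U : Finset S} {p : Finset S → ℤ} (hp : SkewOn U p) (m : ℕ) : SkewOn U (sh p m) := by
  intro X hX Y hY
  unfold sh
  rcases hp X hX Y hY with h | h
  · left; linarith
  · right; linarith

lemma cov_univ_sh {U : Finset S} {p : Finset S → ℤ} (hcard : ∀ X ⊆ U, p X ≤ (X.card : ℤ)) (m : ℕ) :
    Cov U (sh p m) U := by
  intro Z hZ
  unfold sh
  rw [Finset.inter_eq_right.mpr hZ]
  have := hcard Z hZ
  omega

lemma exists_partition {U : Finset S} {p : Finset S → ℤ} (hp : SkewOn U p) {m1 m2 : ℕ}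
    (hcard : ∀ X ⊆ U, p X ≤ (X.card : ℤ)) (hle : ∀ X ⊆ U, p X ≤ ((m1 + m2 : ℕ) : ℤ)) :
    ∀ (n : ℕ) (B1 B2 : Finset S), B1.card + B2.card = n → B1 ⊆ U → B2 ⊆ U →
      Cov U (sh p m1) B1 → Cov U (sh p m2) B2 → U ⊆ B1 ∪ B2 →
      ∃ C1 ⊆ B1, ∃ C2 ⊆ B2, Cov U (sh p m1) C1 ∧ Cov U (sh p m2) C2 ∧ U ⊆ C1 ∪ C2 ∧
        Disjoint C1 C2 := by
  intro n
  induction n using Nat.strong_induction_on with
  | _ n ih =>
  intro B1 B2 hn hB1U hB2U h1 h2 hun
  by_cases hdis : Disjoint B1 B2
  · exact ⟨B1, Finset.Subset.refl _, B2, Finset.Subset.refl _, h1, h2, hun, hdis⟩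
  rw [Finset.not_disjoint_iff] at hdis
  obtain ⟨e, he1, he2⟩ := hdis
  by_cases hc1 : Cov U (sh p m1) (B1.erase e)
  · have hlt := Finset.card_erase_lt_of_mem he1
    obtain ⟨C1, hC1, C2, hC2, h⟩ := ih ((B1.erase e).card + B2.card) (by omega) _ _ rfl
      ((Finset.erase_subset _ _).trans hB1U) hB2U hc1 h2 (by
        intro x hx
        rcases Finset.mem_union.mp (hun hx) with h | h
        · by_cases hxe : x = e
          · subst hxe; exact Finset.mem_union_right _ he2
          · exact Finset.mem_union_left _ (Finset.mem_erase.mpr ⟨hxe, h⟩)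
        · exact Finset.mem_union_right _ h)
    exact ⟨C1, hC1.trans (Finset.erase_subset _ _), C2, hC2, h⟩
  by_cases hc2 : Cov U (sh p m2) (B2.erase e)
  · have hlt := Finset.card_erase_lt_of_mem he2
    obtain ⟨C1, hC1, C2, hC2, h⟩ := ih (B1.card + (B2.erase e).card) (by omega) _ _ rfl
      hB1U ((Finset.erase_subset _ _).trans hB2U) h1 hc2 (by
        intro x hx
        rcases Finset.mem_union.mp (hun hx) with h | h
        · exact Finset.mem_union_left _ h
        · by_cases hxe : x = e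
          · subst hxe; exact Finset.mem_union_left _ he1
          · exact Finset.mem_union_right _ (Finset.mem_erase.mpr ⟨hxe, h⟩))
    exact ⟨C1, hC1, C2, hC2.trans (Finset.erase_subset _ _), h⟩
  exfalso
  obtain ⟨T, hTU, heT, hT⟩ := tight_of_not_erase h1 he1 hc1
  obtain ⟨R, hRU, heR, hR⟩ := tight_of_not_erase h2 he2 hc2
  unfold sh at hT hR
  have hiU : T ∩ R ⊆ U := Finset.inter_subset_left.trans hTU
  have s1 := card_split_sdiff B1 T R
  have s2 := card_split_sdiff B2 R T
  rw [Finset.inter_comm R T] at s2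
  have hpos1 : 0 < (B1 ∩ (T ∩ R)).card := Finset.card_pos.mpr ⟨e, by simp [he1, heT, heR]⟩
  rcases hp T hTU R hRU with h | h
  · have h3 := hle (T ∪ R) (Finset.union_subset hTU hRU)
    have h4 := hcard (T ∩ R) hiU
    -- `|T ∩ R| < |B1 ∩ T ∩ R| + |B2 ∩ T ∩ R|`
    have h5 : (T ∩ R).card + 1 ≤ (B1 ∩ (T ∩ R)).card + (B2 ∩ (T ∩ R)).card := by
      rw [← Finset.card_union_add_card_inter]
      have h6 : T ∩ R ⊆ B1 ∩ (T ∩ R) ∪ B2 ∩ (T ∩ R) := by
        intro x hx
        rcases Finset.mem_union.mp (hun (hiU hx)) with h | h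
        · exact Finset.mem_union_left _ (Finset.mem_inter.mpr ⟨h, hx⟩)
        · exact Finset.mem_union_right _ (Finset.mem_inter.mpr ⟨h, hx⟩)
      have h7 := Finset.card_le_card h6
      have h8 : 0 < (B1 ∩ (T ∩ R) ∩ (B2 ∩ (T ∩ R))).card :=
        Finset.card_pos.mpr ⟨e, by simp [he1, he2, heT, heR]⟩
      omega
    push_cast at h3
    omega
  · have h3 := h1 (T \ R) (Finset.sdiff_subset.trans hTU)
    have h4 := h2 (R \ T) (Finset.sdiff_subset.trans hRU)
    unfold sh at h3 h4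
    omega

lemma cross {U : Finset S} {p : Finset S → ℤ} (hp : SkewOn U p) {m1 m2 : ℕ}
    (hcard : ∀ X ⊆ U, p X ≤ (X.card : ℤ)) (hle : ∀ X ⊆ U, p X ≤ ((m1 + m2 : ℕ) : ℤ))
    {X Y : Finset S} (hX : X ⊆ U) (hY : Y ⊆ U) :
    low U (sh p m1) X + low U (sh p m2) Y ≤
      (X ∩ Y).card + low U (sh p m1) (X \ Y) + low U (sh p m2) (Y \ X) := by
  obtain ⟨B1, hB1U, hB1, e1⟩ := low_mem (cov_univ_sh hcard m1) (X \ Y)
  obtain ⟨B2, hB2U, hB2, e2⟩ := low_mem (cov_univ_sh hcard m2) (Y \ X)
  have hB1' : B1 ∪ (U \ (X \ Y)) ⊆ U := Finset.union_subset hB1U Finset.sdiff_subset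
  have hB2' : B2 ∪ (U \ (Y \ X)) ⊆ U := Finset.union_subset hB2U Finset.sdiff_subset
  obtain ⟨C1, hC1, C2, hC2, hc1, hc2, _, hd⟩ := exists_partition hp hcard hle _ _ _ rfl hB1' hB2'
    (hB1.mono Finset.subset_union_left) (hB2.mono Finset.subset_union_left) (by
      intro x hx
      simp only [mem_union, mem_sdiff]
      tauto)
  have l1 := low_le (hC1.trans hB1') hc1 X
  have l2 := low_le (hC2.trans hB2') hc2 Y
  have s1 := card_split_sdiff C1 X Y
  have s2 := card_split_sdiff C2 Y X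
  rw [Finset.inter_comm Y X] at s2
  have k1 : (C1 ∩ (X \ Y)).card ≤ (B1 ∩ (X \ Y)).card := by
    apply Finset.card_le_card
    intro x hx
    obtain ⟨hx1, hx2⟩ := Finset.mem_inter.mp hx
    rcases Finset.mem_union.mp (hC1 hx1) with h | h
    · exact Finset.mem_inter.mpr ⟨h, hx2⟩
    · exact absurd hx2 (Finset.mem_sdiff.mp h).2
  have k2 : (C2 ∩ (Y \ X)).card ≤ (B2 ∩ (Y \ X)).card := by
    apply Finset.card_le_card
    intro x hx
    obtain ⟨hx1, hx2⟩ := Finset.mem_inter.mp hx
    rcases Finset.mem_union.mp (hC2 hx1) with h | h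
    · exact Finset.mem_inter.mpr ⟨h, hx2⟩
    · exact absurd hx2 (Finset.mem_sdiff.mp h).2
  have k3 : (C1 ∩ (X ∩ Y)).card + (C2 ∩ (X ∩ Y)).card ≤ (X ∩ Y).card := by
    rw [← Finset.card_union_of_disjoint]
    · exact Finset.card_le_card (Finset.union_subset Finset.inter_subset_right
        Finset.inter_subset_right)
    · exact hd.mono Finset.inter_subset_left Finset.inter_subset_left
  omega

/-- Frank's discrete sandwich theorem. -/
lemma sandwich (U : Finset S) : ∀ (p b : Finset S → ℤ),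
    (∀ X ⊆ U, ∀ Y ⊆ U, p X + p Y ≤ p (X ∩ Y) + p (X ∪ Y)) →
    (∀ X ⊆ U, ∀ Y ⊆ U, b (X ∩ Y) + b (X ∪ Y) ≤ b X + b Y) →
    (∀ X ⊆ U, p X ≤ b X) → p ∅ = 0 → b ∅ = 0 →
    ∃ m : S → ℤ, ∀ X ⊆ U, p X ≤ ∑ s ∈ X, m s ∧ ∑ s ∈ X, m s ≤ b X := by
  induction U using Finset.induction_on with
  | empty =>
    intro p b _ _ _ hp0 hb0
    refine ⟨fun _ => 0, ?_⟩
    intro X hX
    rw [Finset.subset_empty] at hX
    subst hX
    simp [hp0, hb0]
  | insert s U hs ih =>
    intro p b hp hb hpb hp0 hb0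
    have hsub : ∀ {X : Finset S}, X ⊆ U → X ⊆ insert s U := fun h =>
      h.trans (Finset.subset_insert _ _)
    have hsub' : ∀ {X : Finset S}, X ⊆ U → insert s X ⊆ insert s U := fun h =>
      Finset.insert_subset_insert _ h
    have hsn : ∀ {X : Finset S}, X ⊆ U → s ∉ X := fun h h' => hs (h h')
    obtain ⟨X0, hX0, hmax⟩ := Finset.exists_max_image U.powerset
      (fun X => p (insert s X) - b X) ⟨∅, by simp⟩
    rw [Finset.mem_powerset] at hX0
    set α : ℤ := p (insert s X0) - b X0 with hα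
    have hA : ∀ X ⊆ U, p (insert s X) - b X ≤ α := fun X hX => hmax X (Finset.mem_powerset.mpr hX)
    have eq1 : ∀ {X Y : Finset S}, Y ⊆ U → insert s X ∩ Y = X ∩ Y := by
      intro X Y hY
      ext x
      simp only [mem_inter, mem_insert]
      constructor
      · rintro ⟨h | h, h'⟩
        · exact absurd (h ▸ h') (hsn hY)
        · exact ⟨h, h'⟩
      · rintro ⟨h, h'⟩; exact ⟨Or.inr h, h'⟩
    have eq2 : ∀ {X Y : Finset S}, insert s X ∪ Y = insert s (X ∪ Y) := by
      intro X Y; exact Finset.insert_union _ _ _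
    have hA' : ∀ Y ⊆ U, α ≤ b (insert s Y) - p Y := by
      intro Y hY
      have h1 := hp (insert s X0) (hsub' hX0) Y (hsub hY)
      rw [eq1 hY, eq2] at h1
      have h2 := hb (insert s Y) (hsub' hY) X0 (hsub hX0)
      rw [eq1 hX0, eq2, Finset.inter_comm Y X0, Finset.union_comm Y X0] at h2
      have h3 := hpb (X0 ∩ Y) (hsub (Finset.inter_subset_left.trans hX0))
      have h4 := hpb (insert s (X0 ∪ Y)) (hsub' (Finset.union_subset hX0 hY))
      omega
    obtain ⟨m, hm⟩ := ih (fun X => max (p X) (p (insert s X) - α))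
      (fun X => min (b X) (b (insert s X) - α)) (by
        intro X hX Y hY
        have g1 := hp X (hsub hX) Y (hsub hY)
        have g2 := hp (insert s X) (hsub' hX) Y (hsub hY)
        have g3 := hp (insert s Y) (hsub' hY) X (hsub hX)
        have g4 := hp (insert s X) (hsub' hX) (insert s Y) (hsub' hY)
        rw [eq1 hY, eq2] at g2
        rw [eq1 hX, eq2, Finset.inter_comm Y X, Finset.union_comm Y X] at g3
        rw [← Finset.insert_inter_distrib, ← Finset.insert_union_distrib] at g4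
        omega) (by
        intro X hX Y hY
        have g1 := hb X (hsub hX) Y (hsub hY)
        have g2 := hb (insert s X) (hsub' hX) Y (hsub hY)
        have g3 := hb (insert s Y) (hsub' hY) X (hsub hX)
        have g4 := hb (insert s X) (hsub' hX) (insert s Y) (hsub' hY)
        rw [eq1 hY, eq2] at g2
        rw [eq1 hX, eq2, Finset.inter_comm Y X, Finset.union_comm Y X] at g3
        rw [← Finset.insert_inter_distrib, ← Finset.insert_union_distrib] at g4
        omega) (by
        intro X hX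
        have g1 := hpb X (hsub hX)
        have g2 := hpb (insert s X) (hsub' hX)
        have g3 := hA X hX
        have g4 := hA' X hX
        omega) (by
        have g3 := hA ∅ (by simp)
        omega) (by
        have g4 := hA' ∅ (by simp)
        omega)
    refine ⟨Function.update m s α, ?_⟩
    have hupd : ∀ X ⊆ U, ∑ t ∈ X, Function.update m s α t = ∑ t ∈ X, m t := by
      intro X hX
      apply Finset.sum_congr rfl
      intro t ht
      rw [Function.update_of_ne]
      rintro rfl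
      exact hsn hX ht
    intro X hX
    by_cases hsX : s ∈ X
    · have hXe : X.erase s ⊆ U := by
        intro x hx
        obtain ⟨h1, h2⟩ := Finset.mem_erase.mp hx
        rcases Finset.mem_insert.mp (hX h2) with h | h
        · exact absurd h h1
        · exact h
      have h1 := hm _ hXe
      rw [Finset.insert_erase hsX] at h1
      rw [← Finset.add_sum_erase X _ hsX, Function.update_self, hupd _ hXe]
      omega
    · have hXU : X ⊆ U := by
        intro x hx
        rcases Finset.mem_insert.mp (hX hx) with h | h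
        · exact absurd (h ▸ hx) hsX
        · exact h
      have h1 := hm _ hXU
      rw [hupd _ hXU]
      omega

/-- the lower function of one demand function with prescribed size `c` -/
noncomputable def gfun (U : Finset S) (p : Finset S → ℤ) (m1 m2 c : ℕ) (X : Finset S) : ℤ :=
  max (low U (sh p m2) X : ℤ) ((c : ℤ) - ((U \ X).card : ℤ) + (low U (sh p m1) (U \ X) : ℤ))

lemma gfun_super {U : Finset S} {p : Finset S → ℤ} (hp : SkewOn U p) {m1 m2 : ℕ}
    (hcard : ∀ X ⊆ U, p X ≤ (X.card : ℤ)) (hle : ∀ X ⊆ U, p X ≤ ((m1 + m2 : ℕ) : ℤ)) (c : ℕ)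
    {X Y : Finset S} (hX : X ⊆ U) (hY : Y ⊆ U) :
    gfun U p m1 m2 c X + gfun U p m1 m2 c Y ≤
      gfun U p m1 m2 c (X ∩ Y) + gfun U p m1 m2 c (X ∪ Y) := by
  have s2 := low_supermodular (skew_sh hp m2) (cov_univ_sh hcard m2) hX hY
  have e1 : (U \ X) ∩ (U \ Y) = U \ (X ∪ Y) := by
    ext x; simp only [mem_inter, mem_sdiff, mem_union]; tauto
  have e2 : (U \ X) ∪ (U \ Y) = U \ (X ∩ Y) := by
    ext x; simp only [mem_inter, mem_sdiff, mem_union]; tauto
  have s1 := low_supermodular (skew_sh hp m1) (cov_univ_sh hcard m1) (X := U \ X) (Y := U \ Y)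
    Finset.sdiff_subset Finset.sdiff_subset
  rw [e1, e2] at s1
  have c1 := Finset.card_union_add_card_inter (U \ X) (U \ Y)
  rw [e1, e2] at c1
  -- mixed
  have mixed : ∀ {X Y : Finset S}, X ⊆ U → Y ⊆ U →
      (low U (sh p m2) X : ℤ) + ((c : ℤ) - ((U \ Y).card : ℤ) + (low U (sh p m1) (U \ Y) : ℤ)) ≤
      (low U (sh p m2) (X ∩ Y) : ℤ) +
        ((c : ℤ) - ((U \ (X ∪ Y)).card : ℤ) + (low U (sh p m1) (U \ (X ∪ Y)) : ℤ)) := by
    intro X Y hX hY
    have h := cross hp hcard hle (X := U \ Y) (Y := X) Finset.sdiff_subset hX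
    have f1 : (U \ Y) \ X = U \ (X ∪ Y) := by
      ext x; simp only [mem_sdiff, mem_union]; tauto
    have f2 : X \ (U \ Y) = X ∩ Y := by
      ext x; simp only [mem_sdiff, mem_inter]
      constructor
      · rintro ⟨h, h'⟩
        refine ⟨h, ?_⟩
        by_contra hy
        exact h' ⟨hX h, hy⟩
      · rintro ⟨h, h'⟩; exact ⟨h, fun h'' => h''.2 h'⟩
    rw [f1, f2] at h
    have f3 := Finset.card_sdiff_add_card_inter (U \ Y) X
    rw [f1] at f3
    omega
  have m1' := mixed hX hY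
  have m2' := mixed hY hX
  rw [Finset.inter_comm Y X, Finset.union_comm Y X] at m2'
  unfold gfun
  omega

/-- Existence of a set of prescribed size satisfying all lower and upper bounds. -/
lemma exists_set {U : Finset S} {p1 p2 : Finset S → ℤ} (hp1 : SkewOn U p1) (hp2 : SkewOn U p2)
    {m1 m2 : ℕ} (hcard1 : ∀ X ⊆ U, p1 X ≤ (X.card : ℤ)) (hcard2 : ∀ X ⊆ U, p2 X ≤ (X.card : ℤ))
    (hle1 : ∀ X ⊆ U, p1 X ≤ ((m1 + m2 : ℕ) : ℤ)) (hle2 : ∀ X ⊆ U, p2 X ≤ ((m1 + m2 : ℕ) : ℤ))
    (c : ℕ)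
    (hi : ∀ X ⊆ U, low U (sh p1 m2) X + low U (sh p2 m2) (U \ X) ≤ c)
    (hii : ∀ X ⊆ U, low U (sh p1 m1) X + low U (sh p2 m1) (U \ X) + c ≤ U.card)
    (hiii : ∀ X ⊆ U, low U (sh p1 m2) X + low U (sh p2 m1) X ≤ X.card)
    (hiv : ∀ X ⊆ U, low U (sh p2 m2) X + low U (sh p1 m1) X ≤ X.card) :
    ∃ A ⊆ U, A.card = c ∧ (∀ X ⊆ U, p1 X - (m2 : ℤ) ≤ ((A ∩ X).card : ℤ)) ∧
      (∀ X ⊆ U, p2 X - (m2 : ℤ) ≤ ((A ∩ X).card : ℤ)) ∧
      (∀ X ⊆ U, p1 X - (m1 : ℤ) ≤ ((X \ A).card : ℤ)) ∧
      (∀ X ⊆ U, p2 X - (m1 : ℤ) ≤ ((X \ A).card : ℤ)) := by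
  have hsdd : ∀ {X : Finset S}, X ⊆ U → U \ (U \ X) = X := fun h => Finset.sdiff_sdiff_eq_self h
  have hcd : ∀ {X : Finset S}, X ⊆ U → (U \ X).card + X.card = U.card := fun h =>
    Finset.card_sdiff_add_card_eq_card h
  obtain ⟨m, hm⟩ := sandwich U (gfun U p2 m1 m2 c) (fun X => (c : ℤ) - gfun U p1 m1 m2 c (U \ X))
    (fun X hX Y hY => gfun_super hp2 hcard2 hle2 c hX hY) (by
      intro X hX Y hY
      have h := gfun_super hp1 hcard1 hle1 c (X := U \ X) (Y := U \ Y) Finset.sdiff_subset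
        Finset.sdiff_subset
      have e1 : (U \ X) ∩ (U \ Y) = U \ (X ∪ Y) := by
        ext x; simp only [mem_inter, mem_sdiff, mem_union]; tauto
      have e2 : (U \ X) ∪ (U \ Y) = U \ (X ∩ Y) := by
        ext x; simp only [mem_inter, mem_sdiff, mem_union]; tauto
      rw [e1, e2] at h
      omega) (by
      intro X hX
      have h1 := hi (U \ X) Finset.sdiff_subset
      have h2 := hii X hX
      have h3 := hiii (U \ X) Finset.sdiff_subset
      have h4 := hiv X hX
      have h5 := hcd hX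
      rw [hsdd hX] at h1
      unfold gfun
      rw [hsdd hX]
      omega) (by
      have h1 := hii ∅ (Finset.empty_subset _)
      have h4 := hiv ∅ (Finset.empty_subset _)
      unfold gfun
      rw [Finset.sdiff_empty] at h1 ⊢
      rw [Finset.card_empty] at h4
      omega) (by
      have h1 := hii U (Finset.Subset.refl _)
      have h2 := hi U (Finset.Subset.refl _)
      have h4 := hiv ∅ (Finset.empty_subset _)
      unfold gfun
      rw [Finset.sdiff_empty]
      rw [Finset.sdiff_self] at h1 h2 ⊢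
      rw [Finset.card_empty] at h4 ⊢
      omega)
  have hlow1 : ∀ X ⊆ U, p1 X - (m1 : ℤ) ≤ low U (sh p1 m1) X := fun X hX =>
    le_low (cov_univ_sh hcard1 m1) hX
  have hlow1' : ∀ X ⊆ U, p1 X - (m2 : ℤ) ≤ low U (sh p1 m2) X := fun X hX =>
    le_low (cov_univ_sh hcard1 m2) hX
  have hlow2 : ∀ X ⊆ U, p2 X - (m1 : ℤ) ≤ low U (sh p2 m1) X := fun X hX =>
    le_low (cov_univ_sh hcard2 m1) hX
  have hlow2' : ∀ X ⊆ U, p2 X - (m2 : ℤ) ≤ low U (sh p2 m2) X := fun X hX =>
    le_low (cov_univ_sh hcard2 m2) hX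
  have hm01 : ∀ s ∈ U, 0 ≤ m s ∧ m s ≤ 1 := by
    intro s hs
    have hsU : ({s} : Finset S) ⊆ U := Finset.singleton_subset_iff.mpr hs
    have h := hm {s} hsU
    rw [Finset.sum_singleton] at h
    unfold gfun at h
    rw [hsdd hsU, Finset.card_singleton] at h
    omega
  let A := U.filter fun s => m s = 1
  have hAU : A ⊆ U := Finset.filter_subset _ _
  have hsumA : ∀ X ⊆ U, ∑ s ∈ X, m s = ((A ∩ X).card : ℤ) := by
    intro X hX
    have h1 : ∀ s ∈ X, m s = if m s = 1 then 1 else 0 := by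
      intro s hs
      have := hm01 s (hX hs)
      split_ifs with h
      · exact h
      · omega
    rw [Finset.sum_congr rfl h1, Finset.sum_boole]
    congr 2
    ext s
    simp only [A, mem_filter, mem_inter]
    constructor
    · rintro ⟨h, h'⟩; exact ⟨⟨hX h, h'⟩, h⟩
    · rintro ⟨⟨_, h'⟩, h⟩; exact ⟨h, h'⟩
  have hsumU : ∑ s ∈ U, m s = (c : ℤ) := by
    have h := hm U (Finset.Subset.refl _)
    unfold gfun at h
    rw [Finset.sdiff_self] at h
    rw [Finset.card_empty] at h
    omega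
  have hsplit : ∀ X ⊆ U, ∑ s ∈ U \ X, m s = (c : ℤ) - ∑ s ∈ X, m s := by
    intro X hX
    have := Finset.sum_sdiff (f := m) hX
    rw [hsumU] at this
    omega
  have hcX : ∀ X : Finset S, ((X \ A).card : ℤ) = X.card - ((A ∩ X).card : ℤ) := by
    intro X
    have := Finset.card_sdiff_add_card_inter X A
    rw [Finset.inter_comm] at this
    omega
  refine ⟨A, hAU, ?_, ?_, ?_, ?_, ?_⟩
  · have := hsumA U (Finset.Subset.refl _)
    rw [hsumU, Finset.inter_eq_left.mpr hAU] at this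
    omega
  · intro X hX
    have h1 := hm (U \ X) Finset.sdiff_subset
    have h2 := hsplit X hX
    have h3 := hsumA X hX
    have h4 := hlow1' X hX
    rw [hsdd hX] at h1
    unfold gfun at h1
    omega
  · intro X hX
    have h1 := hm X hX
    have h3 := hsumA X hX
    have h4 := hlow2' X hX
    unfold gfun at h1
    omega
  · intro X hX
    have h1 := hm X hX
    have h3 := hsumA X hX
    have h4 := hlow1 X hX
    have h5 := hcX X
    unfold gfun at h1
    rw [hsdd hX] at h1
    omega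
  · intro X hX
    have h1 := hm (U \ X) Finset.sdiff_subset
    have h2 := hsplit X hX
    have h3 := hsumA X hX
    have h4 := hlow2 X hX
    have h5 := hcX X
    unfold gfun at h1
    rw [hsdd hX] at h1
    omega

end Pool.Agent.H663R2.Skew
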