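import Pool.Agent.H663R2.SkewB

/-!
# Colourings from the first class; main structural theorem
-/

namespace Pool.Agent.H663R2.Skew

open Finset

variable {S : Type*} [DecidableEq S]

omit [DecidableEq S] in
lemma frac_bound {U : Finset S} {p : Finset S → ℤ} {m1 m2 : ℕ}
    (hcard : ∀ X ⊆ U, p X ≤ (X.card : ℤ)) (hle : ∀ X ⊆ U, p X ≤ ((m1 + m2 : ℕ) : ℤ))
    (hk : 0 < m1 + m2) : ∀ Z ⊆ U, (sh p m2 Z : ℝ) ≤ ∑ s ∈ Z, (m1 : ℝ) / (m1 + m2 : ℝ) := by
  intro Z hZ
  have h1 := hcard Z hZ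
  have h2 := hle Z hZ
  have h1' : (p Z : ℝ) ≤ Z.card := by exact_mod_cast h1
  have h2' : (p Z : ℝ) ≤ (m1 : ℝ) + m2 := by exact_mod_cast h2
  have hk' : (0 : ℝ) < (m1 : ℝ) + m2 := by exact_mod_cast hk
  rw [Finset.sum_const, nsmul_eq_mul]
  unfold sh
  push_cast
  rw [← mul_div_assoc, le_div_iff₀ hk']
  have h3 : (m1 : ℝ) * p Z ≤ m1 * Z.card := mul_le_mul_of_nonneg_left h1' (by positivity)
  have h4 : (m2 : ℝ) * p Z ≤ m2 * ((m1 : ℝ) + m2) := mul_le_mul_of_nonneg_left h2' (by positivity)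
  nlinarith

lemma low_frac {U : Finset S} {p : Finset S → ℤ} (hp : SkewOn U p) {m1 m2 : ℕ}
    (hcard : ∀ X ⊆ U, p X ≤ (X.card : ℤ)) (hle : ∀ X ⊆ U, p X ≤ ((m1 + m2 : ℕ) : ℤ))
    (hk : 0 < m1 + m2) {X : Finset S} (hX : X ⊆ U) :
    (m1 + m2) * low U (sh p m2) X ≤ m1 * X.card := by
  have hk' : (0 : ℝ) < (m1 : ℝ) + m2 := by exact_mod_cast hk
  have h := low_le_real (skew_sh hp m2) (cov_univ_sh hcard m2)
    (x := fun _ => (m1 : ℝ) / (m1 + m2 : ℝ)) (by intro s; positivity)
    (by intro s; rw [div_le_one hk']; have : (0 : ℝ) ≤ m2 := by positivity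
        linarith) (frac_bound hcard hle hk) hX
  rw [Finset.sum_const, nsmul_eq_mul, ← mul_div_assoc, le_div_iff₀ hk'] at h
  have h' : (((m1 + m2) * low U (sh p m2) X : ℕ) : ℝ) ≤ ((m1 * X.card : ℕ) : ℝ) := by
    push_cast
    linarith
  exact_mod_cast h'

/-- The existence of a set of size `c` when `c` is at least the average. -/
lemma exists_set' {U : Finset S} {p1 p2 : Finset S → ℤ} (hp1 : SkewOn U p1) (hp2 : SkewOn U p2)
    {m1 m2 : ℕ} (hcard1 : ∀ X ⊆ U, p1 X ≤ (X.card : ℤ)) (hcard2 : ∀ X ⊆ U, p2 X ≤ (X.card : ℤ))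
    (hle1 : ∀ X ⊆ U, p1 X ≤ ((m1 + m2 : ℕ) : ℤ)) (hle2 : ∀ X ⊆ U, p2 X ≤ ((m1 + m2 : ℕ) : ℤ))
    (hk : 0 < m1 + m2) (c : ℕ) (hc : m1 * U.card ≤ (m1 + m2) * c)
    (hii : ∀ X ⊆ U, low U (sh p1 m1) X + low U (sh p2 m1) (U \ X) + c ≤ U.card) :
    ∃ A ⊆ U, A.card = c ∧ (∀ X ⊆ U, p1 X - (m2 : ℤ) ≤ ((A ∩ X).card : ℤ)) ∧
      (∀ X ⊆ U, p2 X - (m2 : ℤ) ≤ ((A ∩ X).card : ℤ)) ∧
      (∀ X ⊆ U, p1 X - (m1 : ℤ) ≤ ((X \ A).card : ℤ)) ∧
      (∀ X ⊆ U, p2 X - (m1 : ℤ) ≤ ((X \ A).card : ℤ)) := by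
  have hle1' : ∀ X ⊆ U, p1 X ≤ ((m2 + m1 : ℕ) : ℤ) := by
    intro X hX; rw [add_comm m2 m1]; exact hle1 X hX
  have hle2' : ∀ X ⊆ U, p2 X ≤ ((m2 + m1 : ℕ) : ℤ) := by
    intro X hX; rw [add_comm m2 m1]; exact hle2 X hX
  refine exists_set hp1 hp2 hcard1 hcard2 hle1 hle2 c ?_ hii ?_ ?_
  · intro X hX
    have h1 := low_frac hp1 hcard1 hle1 hk hX
    have h2 := low_frac hp2 hcard2 hle2 hk (X := U \ X) Finset.sdiff_subset
    have h3 := Finset.card_sdiff_add_card_eq_card hX
    have h4 : (m1 + m2) * (low U (sh p1 m2) X + low U (sh p2 m2) (U \ X)) ≤ (m1 + m2) * c := by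
      calc (m1 + m2) * (low U (sh p1 m2) X + low U (sh p2 m2) (U \ X))
          ≤ m1 * X.card + m1 * (U \ X).card := by rw [mul_add]; omega
        _ = m1 * U.card := by rw [← h3]; ring
        _ ≤ _ := hc
    exact Nat.le_of_mul_le_mul_left h4 hk
  · intro X hX
    have h1 := low_frac hp1 hcard1 hle1 hk hX
    have h2 := low_frac hp2 hcard2 hle2' (by omega) hX
    have h4 : (m1 + m2) * (low U (sh p1 m2) X + low U (sh p2 m1) X) ≤ (m1 + m2) * X.card := by
      rw [mul_add]
      rw [add_comm m2 m1] at h2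
      calc _ ≤ m1 * X.card + m2 * X.card := by omega
        _ = _ := by ring
    exact Nat.le_of_mul_le_mul_left h4 hk
  · intro X hX
    have h1 := low_frac hp2 hcard2 hle2 hk hX
    have h2 := low_frac hp1 hcard1 hle1' (by omega) hX
    have h4 : (m1 + m2) * (low U (sh p2 m2) X + low U (sh p1 m1) X) ≤ (m1 + m2) * X.card := by
      rw [mul_add]
      rw [add_comm m2 m1] at h2
      calc _ ≤ m1 * X.card + m2 * X.card := by omega
        _ = _ := by ring
    exact Nat.le_of_mul_le_mul_left h4 hk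

/-- partial maximisation -/
def proj (W : Finset S) (p : Finset S → ℤ) (Z : Finset S) : ℤ :=
  W.powerset.sup' ⟨∅, Finset.empty_mem_powerset _⟩ fun Y => p (Z ∪ Y)

lemma le_proj {W : Finset S} (p : Finset S → ℤ) (Z : Finset S) {Y : Finset S} (hY : Y ⊆ W) :
    p (Z ∪ Y) ≤ proj W p Z :=
  Finset.le_sup' (fun Y => p (Z ∪ Y)) (Finset.mem_powerset.mpr hY)

lemma proj_attained (W : Finset S) (p : Finset S → ℤ) (Z : Finset S) :
    ∃ Y ⊆ W, proj W p Z = p (Z ∪ Y) := by
  obtain ⟨Y, hY, h⟩ := Finset.exists_mem_eq_sup' (s := W.powerset)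
    ⟨∅, Finset.empty_mem_powerset _⟩ fun Y => p (Z ∪ Y)
  exact ⟨Y, Finset.mem_powerset.mp hY, h⟩

lemma skew_proj {U V W : Finset S} (hV : V ⊆ U) (hW : W ⊆ U) (hd : Disjoint V W)
    {p : Finset S → ℤ} (hp : SkewOn U p) : SkewOn V (proj W p) := by
  intro X hX Y hY
  obtain ⟨A, hA, eA⟩ := proj_attained W p X
  obtain ⟨B, hB, eB⟩ := proj_attained W p Y
  rw [eA, eB]
  have hd' : ∀ x, x ∈ V → x ∈ W → False := fun x h h' => Finset.disjoint_left.mp hd h h'
  have e1 : (X ∪ A) ∩ (Y ∪ B) = (X ∩ Y) ∪ (A ∩ B) := by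
    ext x
    simp only [mem_inter, mem_union]
    constructor
    · rintro ⟨h | h, h' | h'⟩
      · exact Or.inl ⟨h, h'⟩
      · exact (hd' x (hX h) (hB h')).elim
      · exact (hd' x (hY h') (hA h)).elim
      · exact Or.inr ⟨h, h'⟩
    · rintro (⟨h, h'⟩ | ⟨h, h'⟩)
      · exact ⟨Or.inl h, Or.inl h'⟩
      · exact ⟨Or.inr h, Or.inr h'⟩
  have e2 : (X ∪ A) ∪ (Y ∪ B) = (X ∪ Y) ∪ (A ∪ B) := by
    ext x
    simp only [mem_union]; tauto
  have e3 : (X ∪ A) \ (Y ∪ B) = (X \ Y) ∪ (A \ B) := by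
    ext x
    simp only [mem_sdiff, mem_union]
    constructor
    · rintro ⟨h | h, h'⟩
      · exact Or.inl ⟨h, fun h'' => h' (Or.inl h'')⟩
      · exact Or.inr ⟨h, fun h'' => h' (Or.inr h'')⟩
    · rintro (⟨h, h'⟩ | ⟨h, h'⟩)
      · refine ⟨Or.inl h, ?_⟩
        rintro (h'' | h'')
        · exact h' h''
        · exact hd' x (hX h) (hB h'')
      · refine ⟨Or.inr h, ?_⟩
        rintro (h'' | h'')
        · exact hd' x (hY h'') (hA h)
        · exact h' h''
  have e4 : (Y ∪ B) \ (X ∪ A) = (Y \ X) ∪ (B \ A) := by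
    ext x
    simp only [mem_sdiff, mem_union]
    constructor
    · rintro ⟨h | h, h'⟩
      · exact Or.inl ⟨h, fun h'' => h' (Or.inl h'')⟩
      · exact Or.inr ⟨h, fun h'' => h' (Or.inr h'')⟩
    · rintro (⟨h, h'⟩ | ⟨h, h'⟩)
      · refine ⟨Or.inl h, ?_⟩
        rintro (h'' | h'')
        · exact h' h''
        · exact hd' x (hY h) (hA h'')
      · refine ⟨Or.inr h, ?_⟩
        rintro (h'' | h'')
        · exact hd' x (hX h'') (hB h)
        · exact h' h''
  rcases hp (X ∪ A) (Finset.union_subset (hX.trans hV) (hA.trans hW)) (Y ∪ B)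
    (Finset.union_subset (hY.trans hV) (hB.trans hW)) with h | h
  · left
    rw [e1, e2] at h
    have h1 := le_proj (W := W) p (X ∩ Y) (Y := A ∩ B) (Finset.inter_subset_left.trans hA)
    have h2 := le_proj (W := W) p (X ∪ Y) (Y := A ∪ B) (Finset.union_subset hA hB)
    linarith
  · right
    rw [e3, e4] at h
    have h1 := le_proj (W := W) p (X \ Y) (Y := A \ B) (Finset.sdiff_subset.trans hA)
    have h2 := le_proj (W := W) p (Y \ X) (Y := B \ A) (Finset.sdiff_subset.trans hB)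
    linarith

lemma skew_sub_min {U : Finset S} {p : Finset S → ℤ} (hp : SkewOn U p) (A : Finset S) (m : ℕ) :
    SkewOn U fun X => p X - (min (A ∩ X).card m : ℕ) := by
  intro X hX Y hY
  have h1 := card_split A X Y
  have h2 := card_split_sdiff A X Y
  have h3 := card_split_sdiff A Y X
  rw [Finset.inter_comm Y X] at h3
  rcases hp X hX Y hY with h | h
  · left; push_cast; omega
  · right; push_cast; omega

lemma skew_sub_image {U : Finset S} {p : Finset S → ℤ} (hp : SkewOn U p) (A : Finset S)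
    (g : S → ℕ) : SkewOn U fun X => p X - (((X \ A).image g).card : ℤ) := by
  intro X hX Y hY
  rcases hp X hX Y hY with h | h
  · left
    have h1 := Finset.card_union_add_card_inter ((X \ A).image g) ((Y \ A).image g)
    rw [← Finset.image_union, ← Finset.union_sdiff_distrib] at h1
    have h2 : (((X ∩ Y) \ A).image g).card ≤ ((X \ A).image g ∩ (Y \ A).image g).card := by
      apply Finset.card_le_card
      intro c hc
      obtain ⟨x, hx, rfl⟩ := Finset.mem_image.mp hc
      simp only [mem_sdiff, mem_inter] at hx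
      exact Finset.mem_inter.mpr ⟨Finset.mem_image_of_mem _ (Finset.mem_sdiff.mpr ⟨hx.1.1, hx.2⟩),
        Finset.mem_image_of_mem _ (Finset.mem_sdiff.mpr ⟨hx.1.2, hx.2⟩)⟩
    beta_reduce
    omega
  · right
    have h1 : (((X \ Y) \ A).image g).card ≤ ((X \ A).image g).card :=
      Finset.card_le_card (Finset.image_subset_image
        (Finset.sdiff_subset_sdiff Finset.sdiff_subset (Finset.Subset.refl A)))
    have h2 : (((Y \ X) \ A).image g).card ≤ ((Y \ A).image g).card :=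
      Finset.card_le_card (Finset.image_subset_image
        (Finset.sdiff_subset_sdiff Finset.sdiff_subset (Finset.Subset.refl A)))
    beta_reduce
    omega

/-- The demands on the complement of the first set. -/
def rfun (p : Finset S → ℤ) (A : Finset S) (m1 : ℕ) : Finset S → ℤ :=
  proj A fun X => p X - (min (A ∩ X).card m1 : ℕ)

lemma rfun_props {U : Finset S} {p : Finset S → ℤ} (hp : SkewOn U p) {m1 m2 : ℕ}
    (hcard : ∀ X ⊆ U, p X ≤ (X.card : ℤ)) (hle : ∀ X ⊆ U, p X ≤ ((m1 + m2 : ℕ) : ℤ))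
    {A : Finset S} (hA : A ⊆ U) (h1 : ∀ X ⊆ U, p X - (m2 : ℤ) ≤ ((A ∩ X).card : ℤ))
    (h2 : ∀ X ⊆ U, p X - (m1 : ℤ) ≤ ((X \ A).card : ℤ)) :
    SkewOn (U \ A) (rfun p A m1) ∧ (∀ X ⊆ U \ A, rfun p A m1 X ≤ (X.card : ℤ)) ∧
      (∀ X ⊆ U \ A, rfun p A m1 X ≤ (m2 : ℤ)) := by
  refine ⟨skew_proj Finset.sdiff_subset hA Finset.sdiff_disjoint (skew_sub_min hp A m1), ?_, ?_⟩
  all_goals
    intro X hX
    obtain ⟨Y, hY, e⟩ := proj_attained A (fun X => p X - (min (A ∩ X).card m1 : ℕ)) X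
    unfold rfun
    rw [e]
    have hXU : X ∪ Y ⊆ U := Finset.union_subset (hX.trans Finset.sdiff_subset) (hY.trans hA)
    have hdisj : Disjoint X Y := by
      rw [Finset.disjoint_left]
      intro x hx hx'
      exact (Finset.mem_sdiff.mp (hX hx)).2 (hY hx')
    have e1 : A ∩ (X ∪ Y) = Y := by
      ext x; simp only [mem_inter, mem_union]
      constructor
      · rintro ⟨h, h' | h'⟩
        · exact absurd h (Finset.mem_sdiff.mp (hX h')).2
        · exact h'
      · intro h; exact ⟨hY h, Or.inr h⟩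
    have e2 : (X ∪ Y) \ A = X := by
      ext x; simp only [mem_sdiff, mem_union]
      constructor
      · rintro ⟨h | h, h'⟩
        · exact h
        · exact absurd (hY h) h'
      · intro h; exact ⟨Or.inl h, (Finset.mem_sdiff.mp (hX h)).2⟩
    have k1 := h1 _ hXU
    have k2 := h2 _ hXU
    have k3 := hcard _ hXU
    have k4 := hle _ hXU
    rw [Finset.card_union_of_disjoint hdisj] at k3
    rw [e1] at k1
    rw [e2] at k2
    simp only [e1]
    push_cast at *
    omega

/-- The exact equitable supermodular colouring theorem. -/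
lemma exists_colouring : ∀ (k n : ℕ) (U : Finset S) (p1 p2 : Finset S → ℤ),
    SkewOn U p1 → SkewOn U p2 → (∀ X ⊆ U, p1 X ≤ (X.card : ℤ)) → (∀ X ⊆ U, p2 X ≤ (X.card : ℤ)) →
    (∀ X ⊆ U, p1 X ≤ (k : ℤ)) → (∀ X ⊆ U, p2 X ≤ (k : ℤ)) → U.card = k * n →
    ∃ f : S → ℕ, (∀ s ∈ U, f s < k) ∧ (∀ j < k, (U.filter fun s => f s = j).card = n) ∧
      ∀ X ⊆ U, p1 X ≤ ((X.image f).card : ℤ) ∧ p2 X ≤ ((X.image f).card : ℤ) := by
  intro k
  induction k with
  | zero =>
    intro n U p1 p2 _ _ _ _ h1 h2 hU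
    rw [zero_mul, Finset.card_eq_zero] at hU
    subst hU
    refine ⟨fun _ => 0, by simp, by simp, ?_⟩
    intro X hX
    have h1' := h1 X hX
    have h2' := h2 X hX
    rw [Finset.subset_empty] at hX
    subst hX
    simpa using ⟨h1', h2'⟩
  | succ k ih =>
    intro n U p1 p2 hs1 hs2 hc1 hc2 hl1 hl2 hU
    have hl1' : ∀ X ⊆ U, p1 X ≤ ((1 + k : ℕ) : ℤ) := by
      intro X hX; rw [add_comm 1 k]; exact hl1 X hX
    have hl2' : ∀ X ⊆ U, p2 X ≤ ((1 + k : ℕ) : ℤ) := by
      intro X hX; rw [add_comm 1 k]; exact hl2 X hX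
    obtain ⟨A, hAU, hAc, a1, a2, a3, a4⟩ := exists_set' hs1 hs2 hc1 hc2 hl1' hl2' (by omega) n
      (by rw [hU]; ring_nf; rfl) (by
        intro X hX
        have h1 := low_frac hs1 hc1 (m1 := k) (m2 := 1) hl1 (by omega) hX
        have h2 := low_frac hs2 hc2 (m1 := k) (m2 := 1) hl2 (by omega) (X := U \ X)
          Finset.sdiff_subset
        have h3 := Finset.card_sdiff_add_card_eq_card hX
        have h4 : (k + 1) * (low U (sh p1 1) X + low U (sh p2 1) (U \ X) + n) ≤
            (k + 1) * U.card := by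
          calc (k + 1) * (low U (sh p1 1) X + low U (sh p2 1) (U \ X) + n)
              = (k + 1) * low U (sh p1 1) X + (k + 1) * low U (sh p2 1) (U \ X) + (k + 1) * n := by
                ring
            _ ≤ k * X.card + k * (U \ X).card + U.card := by rw [hU]; omega
            _ = k * ((U \ X).card + X.card) + U.card := by ring
            _ = (k + 1) * U.card := by rw [h3]; ring
        exact Nat.le_of_mul_le_mul_left h4 (by omega))
    have r1 := rfun_props hs1 hc1 hl1' hAU a1 a3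
    have r2 := rfun_props hs2 hc2 hl2' hAU a2 a4
    obtain ⟨g, g1, g2, g3⟩ := ih n (U \ A) (rfun p1 A 1) (rfun p2 A 1) r1.1 r2.1 r1.2.1 r2.2.1
      r1.2.2 r2.2.2 (by
        have := Finset.card_sdiff_add_card_eq_card hAU
        rw [hAc, hU] at this
        have h5 : (k + 1) * n = k * n + n := by ring
        omega)
    refine ⟨fun s => if s ∈ A then k else g s, ?_, ?_, ?_⟩
    · intro s hs
      by_cases hsA : s ∈ A
      · simp [hsA]
      · have := g1 s (Finset.mem_sdiff.mpr ⟨hs, hsA⟩)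
        simp only [hsA, if_false]
        omega
    · intro j hj
      by_cases hjk : j = k
      · subst hjk
        rw [← hAc]
        congr 1
        ext s
        simp only [mem_filter]
        constructor
        · rintro ⟨h, h'⟩
          by_contra hsA
          have := g1 s (Finset.mem_sdiff.mpr ⟨h, hsA⟩)
          simp only [hsA, if_false] at h'
          omega
        · intro h
          exact ⟨hAU h, by simp [h]⟩
      · rw [← g2 j (by omega)]
        congr 1
        ext s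
        simp only [mem_filter, mem_sdiff]
        constructor
        · rintro ⟨h, h'⟩
          by_cases hsA : s ∈ A
          · simp only [hsA, if_true] at h'
            exact absurd h'.symm hjk
          · simp only [hsA, if_false] at h'
            exact ⟨⟨h, hsA⟩, h'⟩
        · rintro ⟨⟨h, hsA⟩, h'⟩
          exact ⟨h, by simp only [hsA, if_false]; exact h'⟩
    · intro X hX
      have himg : ((X.image fun s => if s ∈ A then k else g s).card : ℤ) =
          ((X \ A).image g).card + (min (A ∩ X).card 1 : ℕ) := by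
        have hX1 : X = (X \ A) ∪ (A ∩ X) := by
          ext s; simp only [mem_union, mem_sdiff, mem_inter]; tauto
        have e1 : (X.image fun s => if s ∈ A then k else g s) =
            (X \ A).image g ∪ (A ∩ X).image fun _ => k := by
          conv_lhs => rw [hX1]
          rw [Finset.image_union]
          congr 1
          · apply Finset.image_congr
            intro s hs
            have := (Finset.mem_sdiff.mp (Finset.mem_coe.mp hs)).2
            simp [this]
          · apply Finset.image_congr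
            intro s hs
            have := (Finset.mem_inter.mp (Finset.mem_coe.mp hs)).1
            simp [this]
        rw [e1, Finset.card_union_of_disjoint]
        · push_cast
          congr 1
          rcases Finset.eq_empty_or_nonempty (A ∩ X) with h | h
          · rw [h]; simp
          · rw [Finset.image_const h, Finset.card_singleton]
            have := Finset.card_pos.mpr h
            omega
        · rw [Finset.disjoint_left]
          intro c hc hc'
          obtain ⟨s, hs, rfl⟩ := Finset.mem_image.mp hc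
          obtain ⟨t, ht, he⟩ := Finset.mem_image.mp hc'
          have := g1 s (Finset.sdiff_subset_sdiff hX (Finset.Subset.refl A) hs)
          omega
      have hX1 : (X \ A) ∪ (A ∩ X) = X := by
        ext s; simp only [mem_union, mem_sdiff, mem_inter]; tauto
      have k1 := le_proj (W := A) (fun X => p1 X - (min (A ∩ X).card 1 : ℕ)) (X \ A)
        (Y := A ∩ X) Finset.inter_subset_left
      have k2 := le_proj (W := A) (fun X => p2 X - (min (A ∩ X).card 1 : ℕ)) (X \ A)
        (Y := A ∩ X) Finset.inter_subset_left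
      rw [hX1] at k1 k2
      have k3 := g3 (X \ A) (Finset.sdiff_subset_sdiff hX (Finset.Subset.refl A))
      unfold rfun at k3
      rw [himg]
      constructor
      · linarith [k3.1]
      · linarith [k3.2]

/-- From the set `A` to the two-sized colouring. -/
lemma exists_two_colouring {U : Finset S} {p1 p2 : Finset S → ℤ} (hp1 : SkewOn U p1)
    (hp2 : SkewOn U p2) {m1 m2 n1 n2 : ℕ} (hcard1 : ∀ X ⊆ U, p1 X ≤ (X.card : ℤ))
    (hcard2 : ∀ X ⊆ U, p2 X ≤ (X.card : ℤ))
    (hle1 : ∀ X ⊆ U, p1 X ≤ ((m1 + m2 : ℕ) : ℤ)) (hle2 : ∀ X ⊆ U, p2 X ≤ ((m1 + m2 : ℕ) : ℤ))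
    {A : Finset S} (hAU : A ⊆ U) (hAc : A.card = m1 * n1) (hAc' : (U \ A).card = m2 * n2)
    (a1 : ∀ X ⊆ U, p1 X - (m2 : ℤ) ≤ ((A ∩ X).card : ℤ))
    (a2 : ∀ X ⊆ U, p2 X - (m2 : ℤ) ≤ ((A ∩ X).card : ℤ))
    (a3 : ∀ X ⊆ U, p1 X - (m1 : ℤ) ≤ ((X \ A).card : ℤ))
    (a4 : ∀ X ⊆ U, p2 X - (m1 : ℤ) ≤ ((X \ A).card : ℤ)) :
    ∃ h g : S → ℕ, (∀ s ∈ A, h s < m1) ∧ (∀ s ∈ U \ A, g s < m2) ∧
      (∀ j < m1, (A.filter fun s => h s = j).card = n1) ∧
      (∀ j < m2, ((U \ A).filter fun s => g s = j).card = n2) ∧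
      ∀ X ⊆ U, p1 X ≤ (((A ∩ X).image h).card : ℤ) + ((X \ A).image g).card ∧
        p2 X ≤ (((A ∩ X).image h).card : ℤ) + ((X \ A).image g).card := by
  have r1 := rfun_props hp1 hcard1 hle1 hAU a1 a3
  have r2 := rfun_props hp2 hcard2 hle2 hAU a2 a4
  obtain ⟨g, g1, g2, g3⟩ := exists_colouring m2 n2 (U \ A) (rfun p1 A m1) (rfun p2 A m1)
    r1.1 r2.1 r1.2.1 r2.2.1 r1.2.2 r2.2.2 hAc'
  have main : ∀ p : Finset S → ℤ, SkewOn U p →
      (∀ X ⊆ U \ A, rfun p A m1 X ≤ ((X.image g).card : ℤ)) →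
      SkewOn A (proj (U \ A) fun X => p X - (((X \ A).image g).card : ℤ)) ∧
      (∀ Y ⊆ A, proj (U \ A) (fun X => p X - (((X \ A).image g).card : ℤ)) Y ≤ (Y.card : ℤ)) ∧
      (∀ Y ⊆ A, proj (U \ A) (fun X => p X - (((X \ A).image g).card : ℤ)) Y ≤ (m1 : ℤ)) := by
    intro p hp hr
    have hboth : ∀ Y ⊆ A, proj (U \ A) (fun X => p X - (((X \ A).image g).card : ℤ)) Y ≤
        (min Y.card m1 : ℕ) := by
      intro Y hY
      obtain ⟨Z, hZ, e⟩ := proj_attained (U \ A) (fun X => p X - (((X \ A).image g).card : ℤ)) Y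
      rw [e]
      have e1 : A ∩ (Z ∪ Y) = Y := by
        ext x; simp only [mem_inter, mem_union]
        constructor
        · rintro ⟨h, h' | h'⟩
          · exact absurd h (Finset.mem_sdiff.mp (hZ h')).2
          · exact h'
        · intro h; exact ⟨hY h, Or.inr h⟩
      have e2 : (Y ∪ Z) \ A = Z := by
        ext x; simp only [mem_sdiff, mem_union]
        constructor
        · rintro ⟨h | h, h'⟩
          · exact absurd (hY h) h'
          · exact h
        · intro h; exact ⟨Or.inr h, (Finset.mem_sdiff.mp (hZ h)).2⟩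
      have k1 := le_proj (W := A) (fun X => p X - (min (A ∩ X).card m1 : ℕ)) Z (Y := Y) hY
      rw [e1, Finset.union_comm Z Y] at k1
      have k2 := hr Z hZ
      unfold rfun at k2
      simp only [e2]
      linarith
    refine ⟨skew_proj hAU Finset.sdiff_subset Finset.disjoint_sdiff (skew_sub_image hp A g),
      ?_, ?_⟩
    · intro Y hY
      exact (hboth Y hY).trans (by exact_mod_cast Nat.min_le_left _ _)
    · intro Y hY
      exact (hboth Y hY).trans (by exact_mod_cast Nat.min_le_right _ _)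
  have q1 := main p1 hp1 fun X hX => (g3 X hX).1
  have q2 := main p2 hp2 fun X hX => (g3 X hX).2
  obtain ⟨h, h1, h2, h3⟩ := exists_colouring m1 n1 A _ _ q1.1 q2.1 q1.2.1 q2.2.1 q1.2.2 q2.2.2 hAc
  refine ⟨h, g, h1, g1, h2, g2, ?_⟩
  intro X hX
  have hX1 : (A ∩ X) ∪ (X \ A) = X := by
    ext s; simp only [mem_union, mem_sdiff, mem_inter]; tauto
  have k1 := le_proj (W := U \ A) (fun X => p1 X - (((X \ A).image g).card : ℤ)) (A ∩ X)
    (Y := X \ A) (Finset.sdiff_subset_sdiff hX (Finset.Subset.refl A))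
  have k2 := le_proj (W := U \ A) (fun X => p2 X - (((X \ A).image g).card : ℤ)) (A ∩ X)
    (Y := X \ A) (Finset.sdiff_subset_sdiff hX (Finset.Subset.refl A))
  rw [hX1] at k1 k2
  have k3 := h3 (A ∩ X) Finset.inter_subset_left
  constructor
  · linarith [k3.1]
  · linarith [k3.2]

end Pool.Agent.H663R2.Skew
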