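import Pool.Agent.NPC.Sat
import Pool.Agent.H663R2.OddHole

/-!
# Vertex cover is NP-hard (reduction from 3SAT), with polynomial-time reduction functions
-/

namespace Pool.Agent.NPC.OH663

open Pool.Agent.NPC Pool.Agent.H663R2.OddHole

/-- The literal occurrences of a 3-CNF: (clause number, position) and literal. -/
def occ (φ : List (Lit ℕ × Lit ℕ × Lit ℕ)) : List ((ℕ × ℕ) × Lit ℕ) :=
  φ.zipIdx.flatMap fun c => [((c.2, 0), c.1.1), ((c.2, 1), c.1.2.1), ((c.2, 2), c.1.2.2)]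

/-- Two occurrences are in conflict. -/
def confl (p q : (ℕ × ℕ) × Lit ℕ) : Bool :=
  (decide (p.1.1 = q.1.1) && !(decide (p.1.2 = q.1.2))) ||
    ((p.2.1 ^^ q.2.1) && decide (p.2.2 = q.2.2))

/-- The edges of the conflict graph. -/
def cE (φ : List (Lit ℕ × Lit ℕ × Lit ℕ)) : List ((ℕ × ℕ) × (ℕ × ℕ)) :=
  (((occ φ).flatMap fun p => (occ φ).map fun q => (p, q)).filter fun r => confl r.1 r.2).map
    fun r => (r.1.1, r.2.1)

/-- literal at a position of a clause -/
def litAt (c : Lit ℕ × Lit ℕ × Lit ℕ) (s : ℕ) : Lit ℕ :=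
  if s = 0 then c.1 else if s = 1 then c.2.1 else c.2.2

lemma mem_occ {φ : List (Lit ℕ × Lit ℕ × Lit ℕ)} {j s : ℕ} {l : Lit ℕ} :
    ((j, s), l) ∈ occ φ ↔ ∃ h : j < φ.length, s < 3 ∧ l = litAt φ[j] s := by
  unfold occ
  simp only [List.mem_flatMap, List.mem_cons, List.not_mem_nil, or_false, Prod.mk.injEq]
  constructor
  · rintro ⟨⟨c, i⟩, hc, h⟩
    have hc' := List.mem_zipIdx hc
    simp only [Nat.zero_le, zero_add, Nat.sub_zero, true_and] at hc'
    obtain ⟨h1, h2⟩ := hc'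
    rcases h with ⟨⟨rfl, rfl⟩, rfl⟩ | ⟨⟨rfl, rfl⟩, rfl⟩ | ⟨⟨rfl, rfl⟩, rfl⟩
    · exact ⟨h1, by norm_num, by rw [h2]; rfl⟩
    · exact ⟨h1, by norm_num, by rw [h2]; rfl⟩
    · exact ⟨h1, by norm_num, by rw [h2]; rfl⟩
  · rintro ⟨h, hs, rfl⟩
    refine ⟨(φ[j], j), ?_, ?_⟩
    · rw [List.mem_zipIdx_iff_getElem?]
      exact List.getElem?_eq_getElem h
    · have : s = 0 ∨ s = 1 ∨ s = 2 := by omega
      rcases this with rfl | rfl | rfl
      · left; exact ⟨⟨rfl, rfl⟩, rfl⟩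
      · right; left; exact ⟨⟨rfl, rfl⟩, rfl⟩
      · right; right; exact ⟨⟨rfl, rfl⟩, rfl⟩

lemma mem_cE {φ : List (Lit ℕ × Lit ℕ × Lit ℕ)} {a b : ℕ × ℕ} :
    (a, b) ∈ cE φ ↔ ∃ l l' : Lit ℕ, (a, l) ∈ occ φ ∧ (b, l') ∈ occ φ ∧
      confl (a, l) (b, l') = true := by
  unfold cE
  simp only [List.mem_map, List.mem_filter, List.mem_flatMap]
  constructor
  · rintro ⟨⟨p, q⟩, ⟨⟨p', hp', q', hq', h1⟩, h3⟩, h4⟩
    obtain ⟨rfl, rfl⟩ := Prod.mk.inj h1
    obtain ⟨rfl, rfl⟩ := Prod.mk.inj h4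
    exact ⟨p'.2, q'.2, hp', hq', h3⟩
  · rintro ⟨l, l', h1, h2, h3⟩
    exact ⟨((a, l), (b, l')), ⟨⟨(a, l), h1, (b, l'), h2, rfl⟩, h3⟩, rfl⟩

/-- no loops -/
lemma cE_ne (φ : List (Lit ℕ × Lit ℕ × Lit ℕ)) : ∀ e ∈ cE φ, e.1 ≠ e.2 := by
  rintro ⟨a, b⟩ he hab
  simp only at hab
  subst hab
  rw [mem_cE] at he
  obtain ⟨l, l', h1, h2, h3⟩ := he
  obtain ⟨j, s⟩ := a
  rw [mem_occ] at h1 h2
  obtain ⟨_, _, rfl⟩ := h1
  obtain ⟨_, _, rfl⟩ := h2
  unfold confl at h3
  simp at h3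

theorem sat_iff_vc (φ : List (Lit ℕ × Lit ℕ × Lit ℕ)) :
    SAT3 φ ↔ VC (cE φ) (2 * φ.length) := by
  classical
  constructor
  · rintro ⟨τ, hτ⟩
    -- a true literal in each clause
    have hch : ∀ j : Fin φ.length, ∃ s : Fin 3,
        τ (litAt φ[j.1] s.1).2 = (litAt φ[j.1] s.1).1 := by
      intro j
      rcases hτ _ (List.getElem_mem j.2) with h | h | h
      · exact ⟨0, h⟩
      · exact ⟨1, h⟩
      · exact ⟨2, h⟩
    choose s hs using hch
    refine ⟨Finset.univ.biUnion (fun j : Fin φ.length =>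
      (Finset.univ.filter (fun t : Fin 3 => t ≠ s j)).image (fun t => (j.1, t.1))), ?_, ?_⟩
    · calc _ ≤ (Finset.univ : Finset (Fin φ.length)).card * 2 := by
            apply Finset.card_biUnion_le_card_mul
            intro j _
            refine Finset.card_image_le.trans ?_
            have h3 : ∀ x : Fin 3, (Finset.univ.filter (fun t : Fin 3 => t ≠ x)).card ≤ 2 := by
              decide
            exact h3 (s j)
        _ = 2 * φ.length := by rw [Finset.card_univ, Fintype.card_fin, mul_comm]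
    · rintro ⟨⟨j, t⟩, ⟨j', t'⟩⟩ he
      rw [mem_cE] at he
      obtain ⟨l, l', h1, h2, h3⟩ := he
      rw [mem_occ] at h1 h2
      obtain ⟨hj, ht, rfl⟩ := h1
      obtain ⟨hj', ht', rfl⟩ := h2
      by_contra hcon
      push Not at hcon
      obtain ⟨c1, c2⟩ := hcon
      have e1 : t = (s ⟨j, hj⟩).1 := by
        by_contra hne
        apply c1
        rw [Finset.mem_biUnion]
        refine ⟨⟨j, hj⟩, Finset.mem_univ _, ?_⟩
        rw [Finset.mem_image]
        refine ⟨⟨t, ht⟩, ?_, rfl⟩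
        rw [Finset.mem_filter]
        refine ⟨Finset.mem_univ _, fun h => hne ?_⟩
        rw [← h]
      have e2 : t' = (s ⟨j', hj'⟩).1 := by
        by_contra hne
        apply c2
        rw [Finset.mem_biUnion]
        refine ⟨⟨j', hj'⟩, Finset.mem_univ _, ?_⟩
        rw [Finset.mem_image]
        refine ⟨⟨t', ht'⟩, ?_, rfl⟩
        rw [Finset.mem_filter]
        refine ⟨Finset.mem_univ _, fun h => hne ?_⟩
        rw [← h]
      have f1 := hs ⟨j, hj⟩
      have f2 := hs ⟨j', hj'⟩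
      unfold confl at h3
      simp only [Bool.or_eq_true, Bool.and_eq_true, decide_eq_true_eq, Bool.not_eq_true',
        decide_eq_false_iff_not] at h3
      rcases h3 with ⟨g1, g2⟩ | ⟨g1, g2⟩
      · subst g1
        exact g2 (e1.trans e2.symm)
      · rw [e1, e2] at g1 g2
        simp only at f1 f2
        rw [g2] at f1
        rw [← f1, ← f2] at g1
        simp at g1
  · rintro ⟨C, hC, hcov⟩
    -- in each clause at least two occurrences are in the cover
    let D : Fin φ.length → Finset (Fin 3) := fun j =>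
      Finset.univ.filter (fun t : Fin 3 => (j.1, t.1) ∈ C)
    have hpair : ∀ j : Fin φ.length, ∀ t t' : Fin 3, t ≠ t' → t ∈ D j ∨ t' ∈ D j := by
      intro j t t' hne
      have hmem : ((j.1, t.1), (j.1, t'.1)) ∈ cE φ := by
        rw [mem_cE]
        refine ⟨_, _, mem_occ.mpr ⟨j.2, t.2, rfl⟩, mem_occ.mpr ⟨j.2, t'.2, rfl⟩, ?_⟩
        unfold confl
        have : t.1 ≠ t'.1 := fun h => hne (Fin.ext h)
        simp [this]
      rcases hcov _ hmem with h | h
      · left; simp only [D, Finset.mem_filter]; exact ⟨Finset.mem_univ _, h⟩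
      · right; simp only [D, Finset.mem_filter]; exact ⟨Finset.mem_univ _, h⟩
    have hD2 : ∀ j, 2 ≤ (D j).card := by
      intro j
      have : ∀ S : Finset (Fin 3), (∀ t t' : Fin 3, t ≠ t' → t ∈ S ∨ t' ∈ S) → 2 ≤ S.card := by
        decide
      exact this _ (hpair j)
    have hsum : ∑ j : Fin φ.length, (D j).card ≤ C.card := by
      rw [← Finset.card_sigma]
      apply Finset.card_le_card_of_injOn (fun x : (_ : Fin φ.length) × Fin 3 => (x.1.1, x.2.1))
      · rintro ⟨j, t⟩ h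
        simp only [Finset.coe_sigma, Set.mem_sigma_iff, Finset.mem_coe, D,
          Finset.mem_filter] at h
        exact h.2.2
      · rintro ⟨j, t⟩ _ ⟨j', t'⟩ _ h
        simp only [Prod.mk.injEq] at h
        obtain ⟨h1, h2⟩ := h
        have h1' : j = j' := Fin.ext h1
        subst h1'
        have h2' : t = t' := Fin.ext h2
        subst h2'
        rfl
    have hDle : ∀ j, (D j).card = 2 := by
      intro j
      by_contra hne
      have h3 : 2 < (D j).card := lt_of_le_of_ne (hD2 j) (Ne.symm hne)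
      have hlt : ∑ _j : Fin φ.length, 2 < ∑ j : Fin φ.length, (D j).card :=
        Finset.sum_lt_sum (fun i _ => hD2 i) ⟨j, Finset.mem_univ _, h3⟩
      rw [Finset.sum_const, Finset.card_univ, Fintype.card_fin, smul_eq_mul] at hlt
      omega
    have hout : ∀ j, ∃ t : Fin 3, t ∉ D j := by
      intro j
      by_contra hcon
      push Not at hcon
      have : D j = Finset.univ := Finset.eq_univ_iff_forall.mpr hcon
      have h2 := hDle j
      rw [this] at h2
      simp at h2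
    choose s hs using hout
    refine ⟨fun x => decide (∃ j : Fin φ.length, litAt φ[j.1] (s j).1 = (true, x)), ?_⟩
    intro c hc
    obtain ⟨j, hj, rfl⟩ := List.getElem_of_mem hc
    have key : (fun x => decide (∃ j : Fin φ.length, litAt φ[j.1] (s j).1 = (true, x)))
        (litAt φ[j] (s ⟨j, hj⟩).1).2 = (litAt φ[j] (s ⟨j, hj⟩).1).1 := by
      cases hb : (litAt φ[j] (s ⟨j, hj⟩).1).1 with
      | true =>
        simp only [decide_eq_true_eq]
        exact ⟨⟨j, hj⟩, Prod.ext hb rfl⟩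
      | false =>
        simp only [decide_eq_false_iff_not, not_exists]
        intro j' hj'
        have hmem : ((j, (s ⟨j, hj⟩).1), (j'.1, (s j').1)) ∈ cE φ := by
          rw [mem_cE]
          refine ⟨_, _, mem_occ.mpr ⟨hj, (s ⟨j, hj⟩).2, rfl⟩,
            mem_occ.mpr ⟨j'.2, (s j').2, rfl⟩, ?_⟩
          unfold confl
          rw [hj']
          simp [hb]
        rcases hcov _ hmem with h | h
        · exact hs ⟨j, hj⟩ (by simp only [D, Finset.mem_filter]; exact ⟨Finset.mem_univ _, h⟩)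
        · exact hs j' (by simp only [D, Finset.mem_filter]; exact ⟨Finset.mem_univ _, h⟩)
    have hcases : ∀ t : Fin 3, litAt φ[j] t.1 = φ[j].1 ∨ litAt φ[j] t.1 = φ[j].2.1 ∨
        litAt φ[j] t.1 = φ[j].2.2 := by
      intro t
      fin_cases t <;> simp [litAt]
    rcases hcases (s ⟨j, hj⟩) with h | h | h
    · left; rw [h] at key; exact key
    · right; left; rw [h] at key; exact key
    · right; right; rw [h] at key; exact key

/-! ### Polynomial time -/

theorem occ_poly : Poly occ := by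
  refine Poly.flatMap (F := fun _ (c : (Lit ℕ × Lit ℕ × Lit ℕ) × ℕ) =>
    [((c.2, 0), c.1.1), ((c.2, 1), c.1.2.1), ((c.2, 2), c.1.2.2)]) (Poly.zipIdx Poly.id) ?_
  have f0 : Poly (fun x : List (Lit ℕ × Lit ℕ × Lit ℕ) × ((Lit ℕ × Lit ℕ × Lit ℕ) × ℕ) =>
      x.2.2) := Poly.snd (Poly.snd Poly.id)
  have f1 : Poly (fun x : List (Lit ℕ × Lit ℕ × Lit ℕ) × ((Lit ℕ × Lit ℕ × Lit ℕ) × ℕ) =>
      x.2.1) := Poly.fst (Poly.snd Poly.id)
  exact CL.pList3 (Poly.pair (Poly.pair f0 (Poly.const 0)) (Poly.fst f1))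
    (Poly.pair (Poly.pair f0 (Poly.const 1)) (Poly.fst (Poly.snd f1)))
    (Poly.pair (Poly.pair f0 (Poly.const 2)) (Poly.snd (Poly.snd f1)))

/-- all ordered pairs -/
theorem pairs_poly {α β : Type} [TEnc α] [TEnc β] {l : α → List β} (hl : Poly l) :
    Poly (fun a => (l a).flatMap fun p => (l a).map fun q => (p, q)) := by
  refine Poly.flatMap (F := fun a (p : β) => (l a).map fun q => (p, q)) hl ?_
  exact Poly.map (F := fun (x : α × β) (q : β) => (x.2, q)) (hl.comp (Poly.fst Poly.id))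
    (Poly.pair (Poly.snd (Poly.fst Poly.id)) (Poly.snd Poly.id))

theorem cE_poly : Poly cE := by
  refine Poly.map (F := fun _ (r : ((ℕ × ℕ) × Lit ℕ) × ((ℕ × ℕ) × Lit ℕ)) => (r.1.1, r.2.1))
    (Poly.filter (p := fun _ (r : ((ℕ × ℕ) × Lit ℕ) × ((ℕ × ℕ) × Lit ℕ)) => confl r.1 r.2)
      (pairs_poly occ_poly) ?_) ?_
  · unfold confl
    have g1 : Poly (fun x : List (Lit ℕ × Lit ℕ × Lit ℕ) ×
        (((ℕ × ℕ) × Lit ℕ) × ((ℕ × ℕ) × Lit ℕ)) => x.2.1) := Poly.fst (Poly.snd Poly.id)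
    have g2 : Poly (fun x : List (Lit ℕ × Lit ℕ × Lit ℕ) ×
        (((ℕ × ℕ) × Lit ℕ) × ((ℕ × ℕ) × Lit ℕ)) => x.2.2) := Poly.snd (Poly.snd Poly.id)
    exact Poly.or (Poly.and (Poly.decide_eq (Poly.fst (Poly.fst g1)) (Poly.fst (Poly.fst g2)))
      (Poly.not (Poly.decide_eq (Poly.snd (Poly.fst g1)) (Poly.snd (Poly.fst g2)))))
      (Poly.and (Poly.xor (Poly.fst (Poly.snd g1)) (Poly.fst (Poly.snd g2)))
        (Poly.decide_eq (Poly.snd (Poly.snd g1)) (Poly.snd (Poly.snd g2))))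
  · exact Poly.pair (Poly.fst (Poly.fst (Poly.snd Poly.id))) (Poly.fst (Poly.snd (Poly.snd Poly.id)))

end Pool.Agent.NPC.OH663
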